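import Pool.Agent.Lib.MP_a3e05c_co.SW.Rel

/-!
# EULER, near-cliques with 3, 4 or 5 missing edges: four and five missing edges
-/

open Finset Polynomial

namespace MP_a3e05c_co.SW

variable {V : Type} [Fintype V] [DecidableEq V] {u w v z : V}

/-- the strong tournament on four vertices -/
theorem q_four (h : WCfg u w v z {(v, z)}) :
    (Ts univ (S1 u w v z {(v, z)})).card = (Ts univ (S2 u w v z {(v, z)})).card := by
  obtain ⟨π, hu, hw, hv, hz⟩ : ∃ π : Equiv.Perm V, π u = w ∧ π w = v ∧ π v = z ∧ π z = u := by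
    have n1 := h.uw
    have n2 := h.uv
    have n3 := h.uz
    have n4 := h.wv
    have n5 := h.wz
    have n6 := h.vz
    refine ⟨Equiv.swap z u * (Equiv.swap u w * Equiv.swap w v), ?_, ?_, ?_, ?_⟩
    · rw [Equiv.Perm.mul_apply, Equiv.Perm.mul_apply, Equiv.swap_apply_of_ne_of_ne n1 n2,
        Equiv.swap_apply_left, Equiv.swap_apply_of_ne_of_ne n5 (Ne.symm n1)]
    · rw [Equiv.Perm.mul_apply, Equiv.Perm.mul_apply, Equiv.swap_apply_left,
        Equiv.swap_apply_of_ne_of_ne (Ne.symm n2) (Ne.symm n4),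
        Equiv.swap_apply_of_ne_of_ne n6 (Ne.symm n2)]
    · rw [Equiv.Perm.mul_apply, Equiv.Perm.mul_apply, Equiv.swap_apply_right,
        Equiv.swap_apply_right, Equiv.swap_apply_right]
    · rw [Equiv.Perm.mul_apply, Equiv.Perm.mul_apply,
        Equiv.swap_apply_of_ne_of_ne (Ne.symm n5) (Ne.symm n6),
        Equiv.swap_apply_of_ne_of_ne (Ne.symm n3) (Ne.symm n5), Equiv.swap_apply_left]
  refine Ts_perm π (fun x => by simp) ?_ ?_
  · intro p hp
    unfold S2 Z1 at hp
    unfold S1 Z1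
    simp only [mem_insert, mem_singleton] at hp ⊢
    rcases hp with rfl | rfl | rfl | rfl | rfl | rfl
    · simp [hu, hw]
    · simp [hz, hw]
    · simp [hw, hv]
    · simp [hu, hv]
    · simp [hz, hu]
    · simp [hv, hz]
  · intro p hp
    have eu : π.symm w = u := by rw [Equiv.symm_apply_eq, hu]
    have ew : π.symm v = w := by rw [Equiv.symm_apply_eq, hw]
    have ev : π.symm z = v := by rw [Equiv.symm_apply_eq, hv]
    have ez : π.symm u = z := by rw [Equiv.symm_apply_eq, hz]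
    unfold S1 Z1 at hp
    unfold S2 Z1
    simp only [mem_insert, mem_singleton] at hp ⊢
    rcases hp with rfl | rfl | rfl | rfl | rfl | rfl
    · simp [eu, ez]
    · simp [eu, ev]
    · simp [eu, ew]
    · simp [ez, ew]
    · simp [ev, ez]
    · simp [ew, ev]

variable {W : Finset (V × V)}

/-- the last vertex is balanced, too -/
theorem Ts_erase (w : V) (S : Finset (V × V)) (hodd : Odd (Fintype.card V)) :
    Ts (univ.erase w) S = Ts univ S := by
  ext T
  rw [mem_Ts, mem_Ts]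
  constructor
  · rintro ⟨h1, h2, h3⟩
    refine ⟨h1, fun x _ => ?_, h3⟩
    by_cases hx : x = w
    · have h4 := two_sum_od h1
      rw [← Finset.add_sum_erase univ _ (mem_univ w)] at h4
      have h5 : ∑ x ∈ univ.erase w, (2 * od T x + 1) = ∑ _x ∈ univ.erase w, Fintype.card V :=
        Finset.sum_congr rfl h2
      rw [Finset.sum_add_distrib, ← Finset.mul_sum, Finset.sum_const, Finset.sum_const,
        smul_eq_mul, smul_eq_mul, mul_one] at h5
      have h6 := Finset.card_erase_of_mem (mem_univ w)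
      rw [Finset.card_univ] at h6
      have h7 : 0 < Fintype.card V := hodd.pos
      have h8 : ((univ : Finset V).erase w).card * Fintype.card V + Fintype.card V =
          Fintype.card V * Fintype.card V := by
        rw [h6, Nat.sub_mul, one_mul]
        have : Fintype.card V ≤ Fintype.card V * Fintype.card V := Nat.le_mul_self _
        omega
      rw [hx]
      omega
    · exact h2 x (mem_erase.2 ⟨hx, mem_univ _⟩)
  · rintro ⟨h1, h2, h3⟩
    exact ⟨h1, fun x _ => h2 x (mem_univ _), h3⟩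

/-- negative correlation of the two arcs at `w` -/
theorem q_five (h : WCfg u w v z W) (hodd : Odd (Fintype.card V)) :
    (Ts univ (S1 u w v z W)).card +
      (Ts univ (insert (w, u) (insert (w, z) (insert (w, v) (Z1 u v z W))))).card ≤
    2 * (Ts univ (S2 u w v z W)).card := by
  set P := (Ts univ (insert (w, z) (insert (w, v) (Z1 u v z W)))).card with hP
  set Q := (Ts univ (insert (z, w) (insert (w, v) (Z1 u v z W)))).card with hQ
  have hPe : P = (Ts univ (S1 u w v z W)).card +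
      (Ts univ (insert (w, u) (insert (w, z) (insert (w, v) (Z1 u v z W))))).card := by
    rw [hP, Ts_split univ _ h.uw]
    rfl
  have hQe : Q = 2 * (Ts univ (S2 u w v z W)).card := by
    have h5 := h.q_eq
    rw [hQ, Ts_split univ _ h.uw, ← h5]
    unfold S2
    omega
  rw [← hPe, ← hQe]
  obtain ⟨n1, n2, n3, n4⟩ := h.nZ1
  have htot := split_two h.bal1 h.wv h.wz n1 n2 n3 n4
  have hrev := rev_two h.bal1 n1 n2 n3 n4
  rw [← hP] at htot hrev
  rw [← hQ] at htot
  set Ω := Ts univ (Z1 u v z W) with hΩ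
  rcases Ω.eq_empty_or_nonempty with h0 | hne
  · rw [h0, card_empty] at htot
    omega
  set M : Finset (V × V) := {(w, v), (w, z)} with hM
  have hmk : ∀ T, mk M T = bt (T w v) + bt (T w z) := by
    intro T
    unfold mk bt
    rw [hM, card_filter, Finset.sum_pair]
    intro h1
    exact h.vz (Prod.mk.inj h1).2
  have hmk2 : ∀ T, mk M T < 3 := by
    intro T
    rw [hmk]
    unfold bt
    split_ifs <;> norm_num
  set c : ℕ → ℕ := fun j => (Ω.filter fun T => mk M T = j).card with hc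
  have hsum : ∀ {R : Type} [CommRing R] (g : ℕ → R),
      ∑ T ∈ Ω, g (mk M T) = (c 0 : R) * g 0 + (c 1 : R) * g 1 + (c 2 : R) * g 2 := by
    intro R _ g
    rw [← Finset.sum_fiberwise_of_maps_to (s := Ω) (t := range 3) (g := fun T => mk M T)
      (fun T _ => mem_range.2 (hmk2 T))]
    have h1 : ∀ j ∈ range 3, ∑ T ∈ Ω.filter (fun T => mk M T = j), g (mk M T) =
        (c j : R) * g j := by
      intro j _
      rw [Finset.sum_congr rfl (g := fun _ => g j) (fun T hT => by rw [(mem_filter.1 hT).2]),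
        Finset.sum_const, nsmul_eq_mul]
    rw [Finset.sum_congr rfl h1, Finset.sum_range_succ, Finset.sum_range_succ,
      Finset.sum_range_succ, Finset.sum_range_zero, zero_add]
  have hdisc : 4 * (c 0 : ℝ) * (c 2 : ℝ) ≤ (c 1 : ℝ) ^ 2 := by
    refine quad_disc (Nat.cast_nonneg _) fun ζ hζ => ?_
    have he := Ts_erase w (Z1 u v z W) hodd
    refine (tour_root (A := univ.erase w) (S := Z1 u v z W) (M := M) ?_ ?_ (ζ := ζ) ?_).1
    · intro p hp
      rw [hM, mem_insert, mem_singleton] at hp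
      rcases hp with rfl | rfl
      · exact notMem_erase w univ
      · exact notMem_erase w univ
    · rw [he]
      exact hne
    · rw [he, ← hΩ, hsum (fun j => ζ ^ j), pow_zero, pow_one, mul_one]
      exact_mod_cast hζ
  have hc2 : c 2 = P := by
    rw [hP, hc]
    dsimp only
    congr 1
    ext T
    rw [mem_filter, hΩ, mem_Ts, mem_Ts, hmk]
    simp only [mem_insert, forall_eq_or_imp]
    constructor
    · rintro ⟨⟨h1, h2, h3⟩, h4⟩
      unfold bt at h4
      refine ⟨h1, h2, ?_, ?_, h3⟩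
      · cases h5 : T w z
        · rw [h5] at h4
          exfalso
          split_ifs at h4 <;> omega
        · rfl
      · cases h5 : T w v
        · rw [h5] at h4
          exfalso
          split_ifs at h4 <;> omega
        · rfl
    · rintro ⟨h1, h2, h3, h4, h5⟩
      refine ⟨⟨h1, h2, h5⟩, ?_⟩
      rw [h3, h4]
      rfl
  have hc0 : c 0 = P := by
    rw [hrev, hc]
    dsimp only
    congr 1
    ext T
    rw [mem_filter, hΩ, mem_Ts, mem_Ts, hmk]
    simp only [mem_insert, forall_eq_or_imp]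
    constructor
    · rintro ⟨⟨h1, h2, h3⟩, h4⟩
      unfold bt at h4
      refine ⟨h1, h2, ?_, ?_, h3⟩
      · rw [h1.2 w z h.wz]
        cases h5 : T w z
        · rfl
        · rw [h5, if_pos rfl] at h4
          omega
      · rw [h1.2 w v h.wv]
        cases h5 : T w v
        · rfl
        · rw [h5, if_pos rfl] at h4
          omega
    · rintro ⟨h1, h2, h3, h4, h5⟩
      refine ⟨⟨h1, h2, h5⟩, ?_⟩
      rw [h1.2 w z h.wz] at h3
      rw [h1.2 w v h.wv] at h4
      have h6 : T w z = false := by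
        cases h7 : T w z
        · rfl
        · rw [h7] at h3
          exact absurd h3 (by decide)
      have h8 : T w v = false := by
        cases h7 : T w v
        · rfl
        · rw [h7] at h4
          exact absurd h4 (by decide)
      rw [h6, h8]
      rfl
  have htot' : Ω.card = c 0 + c 1 + c 2 := by
    have h5 := hsum (R := ℤ) (fun _ => 1)
    rw [Finset.sum_const, nsmul_eq_mul, mul_one, mul_one, mul_one, mul_one] at h5
    exact_mod_cast h5
  have hc1 : c 1 = 2 * Q := by omega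
  rw [hc0, hc1, hc2] at hdisc
  have h6 : (2 * (P : ℝ)) ^ 2 ≤ (2 * (Q : ℝ)) ^ 2 := by
    push_cast at hdisc
    nlinarith
  have h7 : 2 * (P : ℝ) ≤ 2 * (Q : ℝ) :=
    (pow_le_pow_iff_left₀ (by positivity) (by positivity) (by norm_num)).1 h6
  have h8 : (P : ℝ) ≤ (Q : ℝ) := by linarith
  exact_mod_cast h8

/-- the middle coefficients, in terms of the counts -/
theorem WCfg.mid (h : WCfg u w v z W) {K : ℕ} (hK : Fintype.card V = 2 * K + 5) (hK1 : 1 ≤ K)
    {ρ σ : ℝ} (hρ : RB u w v z (S1 u w v z W) ρ) (hσ0 : 0 ≤ σ) (hσ1 : σ < 1)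
    (hσ : 4 * K * σ ≤ 2 * K + 1 - ρ) :
    2 * KL.BN K σ 1 * ((Ts univ (S1 u w v z W)).card : ℝ) ≤
      KL.BN K σ 0 * (((Ts univ (S1 u w v z W)).card : ℝ) +
        (Ts univ (insert (w, u) (insert (w, z) (insert (w, v) (Z1 u v z W))))).card) := by
  have hc := h.cfg.card
  have hC : (C0 u w v z).card = 2 * K + 1 := by omega
  have h1 := h.cfg.middle hC hK1 hρ hσ0 hσ1 hσ
  have h2 : (u, w) ∉ insert (w, z) (insert (w, v) (Z1 u v z W)) := by
    unfold Z1
    simp only [mem_insert, Prod.mk.injEq, not_or, not_and]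
    exact ⟨fun e => absurd e h.uw, fun e => absurd e h.uw, fun _ e => h.wv e,
      fun e => absurd e h.uz, h.w_mem.1⟩
  have h3 : (w, u) ∉ insert (w, z) (insert (w, v) (Z1 u v z W)) := by
    unfold Z1
    simp only [mem_insert, Prod.mk.injEq, not_or, not_and]
    exact ⟨fun _ e => h.uz e, fun _ e => h.uv e, fun e => absurd e.symm h.uw,
      fun e => absurd e h.wz, h.w_mem.2.1⟩
  rw [h.cfg.p0 hC]
  have h4 := Cfg.p2 (S₀ := insert (w, z) (insert (w, v) (Z1 u v z W))) h.cfg h2 h3 hC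
  rw [h4]
  exact h1

/-- **Four missing edges.** -/
theorem four (h : WCfg u w v z {(v, z)}) {K : ℕ} (hK : Fintype.card V = 2 * K + 5)
    (hK1 : 1 ≤ K) {σ : ℝ} (hσ0 : 0 ≤ σ) (hσ1 : σ < 1)
    (hσ : 4 * K * σ ≤ 2 * K + 1 - 1 / (2 * K + 1)) :
    (KL.BN K σ 0 + KL.BN K σ 1) * ((Ts univ (Z2 u w v z {(v, z)})).card : ℝ) ≤
      KL.BN K σ 0 * (Ts univ (Z1 u v z {(v, z)})).card := by
  have hc := h.cfg.card
  have hC : (C0 u w v z).card = 2 * K + 1 := by omega
  have hρ : RB u w v z (S1 u w v z {(v, z)}) (1 / (2 * K + 1)) := by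
    have h1 := h.cfg.rb_all (by omega) (fun x hx p hp => by
      have hx' := (mem_filter.1 hx).2
      unfold S1 Z1 at hp
      simp only [mem_insert, mem_singleton] at hp
      rcases hp with rfl | rfl | rfl | rfl | rfl | rfl
      · exact ⟨Ne.symm hx'.1, Ne.symm hx'.2.1⟩
      · exact ⟨Ne.symm hx'.2.1, Ne.symm hx'.2.2.2⟩
      · exact ⟨Ne.symm hx'.2.1, Ne.symm hx'.2.2.1⟩
      · exact ⟨Ne.symm hx'.1, Ne.symm hx'.2.2.1⟩
      · exact ⟨Ne.symm hx'.2.2.2, Ne.symm hx'.1⟩
      · exact ⟨Ne.symm hx'.2.2.1, Ne.symm hx'.2.2.2⟩)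
    rw [hC] at h1
    push_cast at h1
    exact h1
  have hm := h.mid hK hK1 hρ hσ0 hσ1 hσ
  have h1 := h.cnt1
  have h2 := h.cnt2
  rw [← q_four h] at h1 h2
  rw [h1, h2]
  push_cast
  have hB := BN_pos K hσ0 hσ1 0
  nlinarith [hm]

/-- **Five missing edges.** -/
theorem five {c : V} (hcv : c ≠ v) (hcz : c ≠ z) (h : WCfg u w v z {(v, c), (c, z)}) {K : ℕ}
    (hK : Fintype.card V = 2 * K + 5) (hK1 : 1 ≤ K) {σ : ℝ} (hσ0 : 0 ≤ σ) (hσ1 : σ < 1)
    (hσ : 4 * K * σ ≤ 2 * K + 1 - (1 + 4 / (2 * K))) :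
    4 * KL.BN K σ 1 * ((Ts univ (Z2 u w v z {(v, c), (c, z)})).card : ℝ) ≤
      (KL.BN K σ 0 + KL.BN K σ 1) * (Ts univ (Z1 u v z {(v, c), (c, z)})).card := by
  have hc := h.cfg.card
  have hC : (C0 u w v z).card = 2 * K + 1 := by omega
  have hcu := h.out (v, c) (by simp)
  have hcC : c ∈ C0 u w v z := mem_filter.2 ⟨mem_univ _, hcu.2.2.1, hcu.2.2.2, hcv, hcz⟩
  have hρ : RB u w v z (S1 u w v z {(v, c), (c, z)}) (1 + 4 / (2 * K)) := by
    have h1 := h.cfg.rb_but hcC (by omega) (fun x hx hxc p hp => by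
      have hx' := (mem_filter.1 hx).2
      unfold S1 Z1 at hp
      simp only [mem_insert, mem_singleton] at hp
      rcases hp with rfl | rfl | rfl | rfl | rfl | rfl | rfl
      · exact ⟨Ne.symm hx'.1, Ne.symm hx'.2.1⟩
      · exact ⟨Ne.symm hx'.2.1, Ne.symm hx'.2.2.2⟩
      · exact ⟨Ne.symm hx'.2.1, Ne.symm hx'.2.2.1⟩
      · exact ⟨Ne.symm hx'.1, Ne.symm hx'.2.2.1⟩
      · exact ⟨Ne.symm hx'.2.2.2, Ne.symm hx'.1⟩
      · exact ⟨Ne.symm hx'.2.2.1, Ne.symm hxc⟩
      · exact ⟨Ne.symm hxc, Ne.symm hx'.2.2.2⟩)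
    rw [hC] at h1
    push_cast at h1
    rw [show (2 * (K : ℝ) + 1 - 1) = 2 * K by ring] at h1
    exact h1
  have hm := h.mid hK hK1 hρ hσ0 hσ1 hσ
  have h1 := h.cnt1
  have h2 := h.cnt2
  have h3 := q_five h ⟨K + 2, by omega⟩
  have hB0 := BN_pos K hσ0 hσ1 0
  have hB1 := BN_pos K hσ0 hσ1 1
  have hB := BN_le K hσ0 hσ1
  rw [h1, h2]
  set p0 : ℕ := (Ts univ (S1 u w v z {(v, c), (c, z)})).card with hp0
  set p2 : ℕ :=
    (Ts univ (insert (w, u) (insert (w, z) (insert (w, v) (Z1 u v z {(v, c), (c, z)}))))).card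
    with hp2
  set q : ℕ := (Ts univ (S2 u w v z {(v, c), (c, z)})).card with hq
  have h4 : (p0 : ℝ) + p2 ≤ 2 * q := by exact_mod_cast h3
  push_cast
  nlinarith [mul_nonneg (sub_nonneg.2 hB) (sub_nonneg.2 h4), hm]

end MP_a3e05c_co.SW
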