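import Pool.Agent.Lib.MP_a3e05c_co.NUM.TabA
import Pool.Agent.Lib.MP_a3e05c_co.KL.CliqueUp
import Pool.Agent.Lib.MP_a3e05c_co.SW.Cyc

/-!
# EULER, near-cliques with 3, 4 or 5 missing edges: numerics
-/

open Finset

namespace MP_a3e05c_co.SW

open KL NUM

/-- the upper bound of `log P(K_n)` -/
theorem log_PK_le {d : ℕ} (hde : Even d) (hd : 4 ≤ d) :
    (sumZ (glL d) d : ℝ) ≤ NUM.S * -Real.log (PK (d + 1)) := by
  have h1 := Real.log_le_log (PK_pos hde) (PK_le_prod hde hd)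
  rw [Real.log_prod fun j hj => (CliqueUp_f_pos hd (mem_range.1 hj)).ne'] at h1
  have h2 : ∑ j ∈ range d, Real.log (CliqueUp_f d j) = ∑ j ∈ range d, gf d j := by
    refine sum_congr rfl fun j hj => ?_
    rw [CliqueUp_log_f hd (mem_range.1 hj)]
    unfold gf
    have h3 : bb (d / 2) = NCS.cb (d / 2) := rfl
    rw [h3]
    ring
  rw [h2] at h1
  have hS := S_pos
  calc (sumZ (glL d) d : ℝ) = ∑ j ∈ range d, ((glL d j : ℤ) : ℝ) := by
        rw [sumZ_eq, Int.cast_sum]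
    _ ≤ ∑ j ∈ range d, NUM.S * -gf d j := by
        refine sum_le_sum fun j hj => ?_
        exact glL_le (by omega) (mem_range.1 hj)
    _ = NUM.S * -∑ j ∈ range d, gf d j := by
        rw [← mul_sum, sum_neg_distrib]
    _ ≤ _ := mul_le_mul_of_nonneg_left (neg_le_neg h1) hS.le

theorem fin (hR : RTlow) (hP : RTgen) {n q a b : ℕ} (hn : Odd n) (h7 : 7 ≤ n) (hb : 0 < b)
    (hab : b ≤ a) {P : ℝ} (hPP : P ≤ (a : ℝ) / b * PK n)
    (hchk : (n : ℤ) * lgU a b ≤ q * (sumZ (glL (n - 1)) (n - 1) - n * aU (n - 3))) :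
    P ≤ Real.exp (n * AA (n - 1) + q * (AA (n - 3) - AA (n - 1))) := by
  obtain ⟨k, hk⟩ := hn
  have hd1 : Even (n - 1) := ⟨k, by omega⟩
  have hd3 : Even (n - 3) := ⟨k - 1, by omega⟩
  have hS := S_pos
  have e1 : n - 1 + 1 = n := by omega
  have hK := PK_pos hd1
  rw [e1] at hK
  have h1 := log_PK_le hd1 (by omega)
  rw [e1] at h1
  have h2 := le_aU hR hP hd3 (by omega)
  have h3 := le_lgU hb hab
  have hn0 : (0 : ℝ) < n := by
    have : 0 < n := by omega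
    exact_mod_cast this
  have h4 : (n : ℝ) * AA (n - 1) = Real.log (PK n) := by
    unfold AA
    rw [e1]
    have h5 : (((n - 1 : ℕ) : ℝ) + 1) = n := by
      rw [← Nat.cast_add_one, e1]
    rw [h5]
    field_simp
  have h5 : ((n : ℤ) * lgU a b : ℝ) ≤ q * (sumZ (glL (n - 1)) (n - 1) - n * aU (n - 3)) := by
    exact_mod_cast hchk
  push_cast at h5
  have h6 : (n : ℝ) * (NUM.S * Real.log ((a : ℝ) / b)) ≤ n * lgU a b :=
    mul_le_mul_of_nonneg_left h3 hn0.le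
  have h7 : (sumZ (glL (n - 1)) (n - 1) : ℝ) - n * aU (n - 3) ≤
      NUM.S * -Real.log (PK n) - n * (NUM.S * -AA (n - 3)) :=
    sub_le_sub h1 (mul_le_mul_of_nonneg_left h2 hn0.le)
  have h8 : (q : ℝ) * ((sumZ (glL (n - 1)) (n - 1) : ℝ) - n * aU (n - 3)) ≤
      q * (NUM.S * -Real.log (PK n) - n * (NUM.S * -AA (n - 3))) :=
    mul_le_mul_of_nonneg_left h7 (Nat.cast_nonneg q)
  have h9 : (NUM.S : ℝ) * n * Real.log ((a : ℝ) / b) ≤
      NUM.S * n * (q * (AA (n - 3) - AA (n - 1))) := by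
    have h10 := (h6.trans h5).trans h8
    rw [← h4] at h10
    calc _ = (n : ℝ) * (NUM.S * Real.log ((a : ℝ) / b)) := by ring
      _ ≤ _ := h10
      _ = _ := by ring
  have h10 : Real.log ((a : ℝ) / b) ≤ q * (AA (n - 3) - AA (n - 1)) :=
    le_of_mul_le_mul_left h9 (mul_pos hS hn0)
  have hb' : (0 : ℝ) < b := by exact_mod_cast hb
  have ha' : (0 : ℝ) < a := lt_of_lt_of_le hb' (by exact_mod_cast hab)
  rw [Real.log_le_iff_le_exp (div_pos ha' hb')] at h10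
  rw [Real.exp_add, h4, Real.exp_log hK, mul_comm]
  exact hPP.trans (mul_le_mul_of_nonneg_right h10 hK.le)

/-! ### the constants -/

/-- `σ = 1 / 2` -/
def s4 : ℕ := 500000000000000

/-- `σ = 63 / 128` -/
def s5 : ℕ := 492187500000000

def a4 (n K : ℕ) : ℕ := 64 * bnN s4 K 0 * (n + 1)
def b4 (n K : ℕ) : ℕ := (4 * bnN s4 K 0 + bnN s4 K 1) * (8 * (n - 2))
def a5 (n K : ℕ) : ℕ := 128 * (4 * bnN s5 K 0 + bnN s5 K 1) * bnN s4 K 0 * (n + 1)
def b5 (n K : ℕ) : ℕ := 4 * bnN s5 K 1 * (4 * bnN s4 K 0 + bnN s4 K 1) * (8 * (n - 2))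

def chk (n q a b : ℕ) : Bool :=
  decide (0 < b ∧ b ≤ a ∧
    (n : ℤ) * lgU a b ≤ q * (sumZ (glL (n - 1)) (n - 1) - n * aU (n - 3)))

theorem chk15 : chk 15 3 16 13 = true := by decide +kernel
theorem chk17 : chk 17 3 18 15 = true := by decide +kernel
theorem chk19 : chk 19 3 20 17 = true := by decide +kernel
theorem chk21 : chk 21 3 22 19 = true := by decide +kernel
theorem chk19_4 : chk 19 4 (a4 19 7) (b4 19 7) = true := by decide +kernel
theorem chk21_4 : chk 21 4 (a4 21 8) (b4 21 8) = true := by decide +kernel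
theorem chk21_5 : chk 21 5 (a5 21 8) (b5 21 8) = true := by decide +kernel

theorem fin' (hR : RTlow) (hP : RTgen) {n q a b : ℕ} (hn : Odd n) (h7 : 7 ≤ n)
    (hc : chk n q a b = true) {P : ℝ} (hPP : (b : ℝ) * P ≤ a * PK n) :
    P ≤ Real.exp (n * AA (n - 1) + q * (AA (n - 3) - AA (n - 1))) := by
  obtain ⟨h1, h2, h3⟩ := of_decide_eq_true hc
  refine fin hR hP hn h7 h1 h2 ?_ h3
  have h4 : (0 : ℝ) < b := by exact_mod_cast h1
  rw [div_mul_eq_mul_div, le_div_iff₀ h4, mul_comm]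
  exact hPP

theorem s4_le : s4 ≤ NUM.S := by decide
theorem s5_le : s5 ≤ NUM.S := by decide

theorem s4_val : ((s4 : ℕ) : ℝ) / NUM.S = 1 / 2 := by norm_num [s4, NUM.S]
theorem s5_val : ((s5 : ℕ) : ℝ) / NUM.S = 63 / 128 := by norm_num [s5, NUM.S]

theorem bnD_succ (K : ℕ) : bnD K 1 = 4 * bnD K 0 := by
  unfold bnD
  ring

theorem BN0 {s : ℕ} (hs : s ≤ NUM.S) (K : ℕ) :
    BN K ((s : ℝ) / NUM.S) 0 * bnD K 1 = 4 * bnN s K 0 := by
  have h := bnD_pos K 0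
  have h' : (bnD K 0 : ℝ) ≠ 0 := by exact_mod_cast h.ne'
  rw [BN_eq hs, bnD_succ]
  push_cast
  field_simp

theorem BN1 {s : ℕ} (hs : s ≤ NUM.S) (K : ℕ) :
    BN K ((s : ℝ) / NUM.S) 1 * bnD K 1 = bnN s K 1 := by
  have h := bnD_pos K 1
  have h' : (bnD K 1 : ℝ) ≠ 0 := by exact_mod_cast h.ne'
  rw [BN_eq hs]
  field_simp

end MP_a3e05c_co.SW
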