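import Pool.Agent.Lib.MP_a3e05c_co.SW.Class
import Pool.Agent.Lib.MP_a3e05c_co.SW.Num

/-!
# EULER, near-cliques with 3, 4 or 5 missing edges: the final statements
-/

open Finset

namespace MP_a3e05c_co.SW

open KL NUM NC

variable {V E : Type} [Fintype V] [DecidableEq V] [Fintype E] [DecidableEq E]

theorem PA_Ts {hd : E → Bool → V} {Z : Finset (V × V)} (hs : Simple hd) (hm : Miss hd Z) {q : ℕ}
    (hq : (KE V \ es hd).card = q) :
    PA hd univ = 2 ^ q * ((Ts univ Z).card : ℝ) /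
      2 ^ (Fintype.card V * (Fintype.card V - 1) / 2) := by
  have h1 := card_sdiff_add_card_eq_card (es_sub hs)
  rw [hq, card_es hs, card_KE] at h1
  unfold PA
  rw [card_Om hs hm, ← h1, pow_add]
  have h2 : (2 : ℝ) ^ q ≠ 0 := by positivity
  field_simp

theorem PK_Ts [Nonempty V] : PK (Fintype.card V) = ((Ts (univ : Finset V) ∅).card : ℝ) /
    2 ^ (Fintype.card V * (Fintype.card V - 1) / 2) := by
  have h1 : KE V \ es (hdV V) = ∅ := by rw [es_hdV, Finset.sdiff_self]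
  have hm : Miss (hdV V) ∅ := miss_of (by rw [h1]; simp) (by simp) (by simp) bal_empty
  rw [← PA_hdV, PA_Ts (q := 0) hdV_simple hm (by rw [h1, card_empty])]
  simp

/-! ### degrees -/

theorem two_tri {a b c : V} (h1 : a ≠ b) (h2 : a ≠ c) (h3 : b ≠ c) (v : V) :
    fd ({s(a, b), s(b, c), s(c, a)} : Finset (Sym2 V)) v = 0 ∨
      fd ({s(a, b), s(b, c), s(c, a)} : Finset (Sym2 V)) v = 2 := by
  have h4 : ({s(a, b), s(b, c), s(c, a)} : Finset (Sym2 V)) =
      insert s(a, b) (insert s(b, c) (insert s(c, a) ∅)) := by simp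
  rw [h4, fd_ins h1, fd_ins h3, fd_ins (Ne.symm h2), fd_empty]
  · by_cases e1 : v = a <;> by_cases e2 : v = b <;> by_cases e3 : v = c <;> simp_all
  · simp
  · rw [insert_empty_eq, mem_singleton, Sym2.eq_iff]
    tauto
  · rw [insert_empty_eq, mem_insert, mem_singleton, Sym2.eq_iff, Sym2.eq_iff]
    tauto

theorem two_quad {a b c d : V} (h1 : a ≠ b) (h2 : a ≠ c) (h3 : a ≠ d) (h4 : b ≠ c) (h5 : b ≠ d)
    (h6 : c ≠ d) (v : V) :
    fd ({s(a, b), s(b, c), s(c, d), s(d, a)} : Finset (Sym2 V)) v = 0 ∨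
      fd ({s(a, b), s(b, c), s(c, d), s(d, a)} : Finset (Sym2 V)) v = 2 := by
  have h7 : ({s(a, b), s(b, c), s(c, d), s(d, a)} : Finset (Sym2 V)) =
      insert s(a, b) (insert s(b, c) (insert s(c, d) (insert s(d, a) ∅))) := by simp
  rw [h7, fd_ins h1, fd_ins h4, fd_ins h6, fd_ins (Ne.symm h3), fd_empty]
  · by_cases e1 : v = a <;> by_cases e2 : v = b <;> by_cases e3 : v = c <;>
      by_cases e4 : v = d <;> simp_all
  · simp
  · rw [insert_empty_eq, mem_singleton, Sym2.eq_iff]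
    tauto
  · rw [insert_empty_eq, mem_insert, mem_singleton, Sym2.eq_iff, Sym2.eq_iff]
    tauto
  · rw [insert_empty_eq, mem_insert, mem_insert, mem_singleton, Sym2.eq_iff, Sym2.eq_iff,
      Sym2.eq_iff]
    tauto

theorem two_pent {a b c d e : V} (h1 : a ≠ b) (h2 : a ≠ c) (h3 : a ≠ d) (h4 : a ≠ e)
    (h5 : b ≠ c) (h6 : b ≠ d) (h7 : b ≠ e) (h8 : c ≠ d) (h9 : c ≠ e) (h10 : d ≠ e) (v : V) :
    fd ({s(a, b), s(b, c), s(c, d), s(d, e), s(e, a)} : Finset (Sym2 V)) v = 0 ∨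
      fd ({s(a, b), s(b, c), s(c, d), s(d, e), s(e, a)} : Finset (Sym2 V)) v = 2 := by
  have h11 : ({s(a, b), s(b, c), s(c, d), s(d, e), s(e, a)} : Finset (Sym2 V)) =
      insert s(a, b) (insert s(b, c) (insert s(c, d) (insert s(d, e) (insert s(e, a) ∅)))) := by
    simp
  rw [h11, fd_ins h1, fd_ins h5, fd_ins h8, fd_ins h10, fd_ins (Ne.symm h4), fd_empty]
  · by_cases e1 : v = a
    · subst e1
      simp [h1, h2, h3, h4]
    · by_cases e2 : v = b
      · subst e2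
        simp [Ne.symm h1, h5, h6, h7]
      · by_cases e3 : v = c
        · subst e3
          simp [Ne.symm h2, Ne.symm h5, h8, h9]
        · by_cases e4 : v = d
          · subst e4
            simp [Ne.symm h3, Ne.symm h6, Ne.symm h8, h10]
          · by_cases e5 : v = e
            · subst e5
              simp [Ne.symm h4, Ne.symm h7, Ne.symm h9, Ne.symm h10]
            · simp [e1, e2, e3, e4, e5]
  · simp
  · rw [insert_empty_eq, mem_singleton, Sym2.eq_iff]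
    rintro (h | h)
    · exact h10 h.1
    · exact h3 h.1.symm
  · rw [insert_empty_eq, mem_insert, mem_singleton, Sym2.eq_iff, Sym2.eq_iff]
    rintro ((h | h) | (h | h))
    · exact h8 h.1
    · exact h9 h.1
    · exact h9 h.1
    · exact h2 h.1.symm
  · rw [insert_empty_eq, mem_insert, mem_insert, mem_singleton, Sym2.eq_iff, Sym2.eq_iff,
      Sym2.eq_iff]
    rintro ((h | h) | (h | h) | (h | h))
    · exact h5 h.1
    · exact h6 h.1
    · exact h6 h.1
    · exact h7 h.1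
    · exact h7 h.1
    · exact h1 h.1.symm
  · rw [insert_empty_eq, mem_insert, mem_insert, mem_insert, mem_singleton, Sym2.eq_iff,
      Sym2.eq_iff, Sym2.eq_iff, Sym2.eq_iff]
    rintro ((h | h) | (h | h) | (h | h) | (h | h))
    · exact h1 h.1
    · exact h2 h.1
    · exact h2 h.1
    · exact h3 h.1
    · exact h3 h.1
    · exact h4 h.1
    · exact h4 h.1
    · exact h7 h.2

theorem deg_sum {hd : E → Bool → V} (hs : Simple hd) {n q : ℕ} (hcard : Fintype.card V = n)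
    (hq : (KE V \ es hd).card = q)
    (h2 : ∀ v, fd (KE V \ es hd) v = 0 ∨ fd (KE V \ es hd) v = 2) :
    ∑ v, AA (deg hd v) = n * AA (n - 1) + q * (AA (n - 3) - AA (n - 1)) := by
  have h3 : ∀ v, AA (deg hd v) =
      AA (n - 1) + (fd (KE V \ es hd) v : ℝ) * ((AA (n - 3) - AA (n - 1)) / 2) := by
    intro v
    have h4 := fd_sdiff (es_sub hs) v
    rw [fd_es hs, hcard] at h4
    rcases h2 v with h5 | h5
    · rw [h5] at h4 ⊢
      have h6 : deg hd v = n - 1 := by omega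
      rw [h6]
      push_cast
      ring
    · rw [h5] at h4 ⊢
      have h6 : deg hd v = n - 3 := by omega
      rw [h6]
      push_cast
      ring
  rw [sum_congr rfl fun v _ => h3 v, sum_add_distrib, sum_const, card_univ, hcard, nsmul_eq_mul,
    ← sum_mul, ← Nat.cast_sum, sum_fd sdiff_subset, hq]
  push_cast
  ring

/-! ### the bounds -/

theorem ev_F {hd : E → Bool → V} (hs : Simple hd) (hev : ∀ v, Even (deg hd v))
    (hodd : Odd (Fintype.card V)) (v : V) : Even (fd (KE V \ es hd) v) := by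
  have h4 := fd_sdiff (es_sub hs) v
  rw [fd_es hs] at h4
  obtain ⟨k, hk⟩ := hodd
  obtain ⟨l, hl⟩ := hev v
  exact ⟨k - l, by omega⟩

/-- **Three missing edges**: exact value. -/
theorem sw3 {hd : E → Bool → V} (hs : Simple hd) (hev : ∀ v, Even (deg hd v)) {n : ℕ}
    (hcard : Fintype.card V = n) (hodd : Odd n) (h5 : 5 ≤ n) (hq : (KE V \ es hd).card = 3) :
    ((n - 2 : ℕ) : ℝ) * PA hd univ = ((n + 1 : ℕ) : ℝ) * PK n ∧
      ∑ v, AA (deg hd v) = n * AA (n - 1) + (3 : ℕ) * (AA (n - 3) - AA (n - 1)) := by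
  subst hcard
  have : Nonempty V := Fintype.card_pos_iff.1 (by omega)
  obtain ⟨a, b, c, h1, h2, h3, h4⟩ := class3 sdiff_subset (ev_F hs hev hodd) hq
  refine ⟨?_, deg_sum hs rfl hq (by rw [h4]; exact two_tri h1 h2 h3)⟩
  have hm : Miss hd (T3 a b c) := by
    refine miss_of ?_ ?_ ?_ ?_
    · rw [h4]
      unfold T3
      simp only [image_insert, image_singleton]
    · intro x y hxy
      unfold T3 at hxy
      simp only [mem_insert, mem_singleton, Prod.mk.injEq] at hxy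
      rcases hxy with ⟨rfl, rfl⟩ | ⟨rfl, rfl⟩ | ⟨rfl, rfl⟩
      · exact h1
      · exact h3
      · exact Ne.symm h2
    · intro x y hxy
      unfold T3 at hxy ⊢
      simp only [mem_insert, mem_singleton, Prod.mk.injEq] at hxy ⊢
      rcases hxy with ⟨rfl, rfl⟩ | ⟨rfl, rfl⟩ | ⟨rfl, rfl⟩ <;> tauto
    · rw [← Z1_eq_T3]
      exact bal3 h1 h2 h3
  have h6 := three h1 h2 h3
  rw [PA_Ts hs hm hq, PK_Ts]
  have h7 : (8 * ((Fintype.card V - 2 : ℕ) : ℝ) * (Ts univ (T3 a b c)).card) =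
      ((Fintype.card V + 1 : ℕ) : ℝ) * (Ts (univ : Finset V) ∅).card := by exact_mod_cast h6
  have h8 : (2 : ℝ) ^ (Fintype.card V * (Fintype.card V - 1) / 2) ≠ 0 := by positivity
  rw [mul_div_assoc', mul_div_assoc', ← h7]
  congr 1
  ring

/-- the relation for four missing edges -/
theorem rel4 {u w v z : V} (h1 : u ≠ w) (h2 : u ≠ v) (h3 : u ≠ z) (h4 : w ≠ v) (h5 : w ≠ z)
    (h6 : v ≠ z) {K : ℕ} (hK : Fintype.card V = 2 * K + 5) (hK2 : 2 ≤ K) :
    ((4 * bnN s4 K 0 + bnN s4 K 1 : ℕ) : ℝ) * (Ts univ (Z2 u w v z {(v, z)})).card ≤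
      ((4 * bnN s4 K 0 : ℕ) : ℝ) * (Ts univ (Z1 u v z {(v, z)})).card := by
  have hK' : (2 : ℝ) ≤ K := by exact_mod_cast hK2
  have h7 := four (wcfg4 h1 h2 h3 h4 h5 h6) hK (by omega) (σ := (s4 : ℝ) / NUM.S)
    (by rw [s4_val]; norm_num) (by rw [s4_val]; norm_num) (by
      rw [s4_val]
      have h8 : 1 / (2 * (K : ℝ) + 1) ≤ 1 := by
        rw [div_le_one (by linarith)]
        linarith
      linarith)
  have h8 : (0 : ℝ) < bnD K 1 := by exact_mod_cast bnD_pos K 1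
  have h9 := mul_le_mul_of_nonneg_right h7 h8.le
  have e0 := BN0 s4_le K
  have e1 := BN1 s4_le K
  push_cast
  calc _ = ((BN K ((s4 : ℝ) / NUM.S) 0 * bnD K 1 + BN K ((s4 : ℝ) / NUM.S) 1 * bnD K 1) *
        ((Ts univ (Z2 u w v z {(v, z)})).card : ℝ)) := by rw [e0, e1]
    _ = (BN K ((s4 : ℝ) / NUM.S) 0 + BN K ((s4 : ℝ) / NUM.S) 1) *
        ((Ts univ (Z2 u w v z {(v, z)})).card : ℝ) * bnD K 1 := by ring
    _ ≤ _ := h9
    _ = (BN K ((s4 : ℝ) / NUM.S) 0 * bnD K 1) * (Ts univ (Z1 u v z {(v, z)})).card := by ring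
    _ = _ := by rw [e0]

/-- the relation for five missing edges -/
theorem rel5 {u w v c z : V} (h1 : u ≠ w) (h2 : u ≠ v) (h3 : u ≠ z) (h4 : w ≠ v) (h5 : w ≠ z)
    (h6 : v ≠ z) (h7 : c ≠ u) (h8 : c ≠ w) (h9 : c ≠ v) (h10 : c ≠ z)
    (hK : Fintype.card V = 21) :
    ((4 * bnN s5 8 1 : ℕ) : ℝ) * (Ts univ (Z2 u w v z {(v, c), (c, z)})).card ≤
      ((4 * bnN s5 8 0 + bnN s5 8 1 : ℕ) : ℝ) * (Ts univ (Z1 u v z {(v, c), (c, z)})).card := by
  have h11 := five h9 h10 (wcfg5 h1 h2 h3 h4 h5 h6 h7 h8 h9 h10) (K := 8) (by omega) (by omega)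
    (σ := (s5 : ℝ) / NUM.S) (by rw [s5_val]; norm_num) (by rw [s5_val]; norm_num) (by
      rw [s5_val]
      norm_num)
  have h12 : (0 : ℝ) < bnD 8 1 := by exact_mod_cast bnD_pos 8 1
  have h13 := mul_le_mul_of_nonneg_right h11 h12.le
  have e0 := BN0 s5_le 8
  have e1 := BN1 s5_le 8
  push_cast
  calc _ = (4 * (BN 8 ((s5 : ℝ) / NUM.S) 1 * bnD 8 1)) *
        ((Ts univ (Z2 u w v z {(v, c), (c, z)})).card : ℝ) := by rw [e1]
    _ = 4 * BN 8 ((s5 : ℝ) / NUM.S) 1 *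
        ((Ts univ (Z2 u w v z {(v, c), (c, z)})).card : ℝ) * bnD 8 1 := by ring
    _ ≤ _ := h13
    _ = (BN 8 ((s5 : ℝ) / NUM.S) 0 * bnD 8 1 + BN 8 ((s5 : ℝ) / NUM.S) 1 * bnD 8 1) *
        (Ts univ (Z1 u v z {(v, c), (c, z)})).card := by ring
    _ = _ := by rw [e0, e1]

theorem miss4 {hd : E → Bool → V} {a b c d : V} (h1 : a ≠ b) (h2 : a ≠ c) (h3 : a ≠ d)
    (h4 : b ≠ c) (h5 : b ≠ d) (h6 : c ≠ d)
    (hF : KE V \ es hd = {s(a, b), s(b, c), s(c, d), s(d, a)}) : Miss hd (Z2 a b c d {(c, d)}) := by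
  refine miss_of ?_ ?_ ?_ (bal4 h1 h2 h3 h4 h5 h6)
  · rw [hF]
    unfold Z2
    simp only [image_insert, image_singleton]
    ext x
    simp only [mem_insert, mem_singleton]
    tauto
  · intro x y hxy
    unfold Z2 at hxy
    simp only [mem_insert, mem_singleton, Prod.mk.injEq] at hxy
    rcases hxy with ⟨rfl, rfl⟩ | ⟨rfl, rfl⟩ | ⟨rfl, rfl⟩ | ⟨rfl, rfl⟩
    · exact h1
    · exact h4
    · exact Ne.symm h3
    · exact h6
  · intro x y hxy
    unfold Z2 at hxy ⊢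
    simp only [mem_insert, mem_singleton, Prod.mk.injEq, not_or, not_and] at hxy ⊢
    rcases hxy with ⟨rfl, rfl⟩ | ⟨rfl, rfl⟩ | ⟨rfl, rfl⟩ | ⟨rfl, rfl⟩
    · exact ⟨fun e => absurd e.symm h1, fun _ => h2, fun e => absurd e h5,
        fun e => absurd e h4⟩
    · exact ⟨fun e => absurd e.symm h2, fun e => absurd e.symm h4, fun e => absurd e h6,
        fun _ => h5⟩
    · exact ⟨fun _ e => h5 e.symm, fun e => absurd e h1, fun e => absurd e h3,
        fun e => absurd e h2⟩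
    · exact ⟨fun e => absurd e.symm h3, fun e => absurd e.symm h5, fun _ e => h2 e.symm,
        fun e => absurd e.symm h6⟩

theorem sw4 {hd : E → Bool → V} (hs : Simple hd) (hev : ∀ v, Even (deg hd v)) {n K : ℕ}
    (hcard : Fintype.card V = n) (hn : n = 2 * K + 5) (hK2 : 2 ≤ K)
    (hq : (KE V \ es hd).card = 4) :
    ((b4 n K : ℕ) : ℝ) * PA hd univ ≤ ((a4 n K : ℕ) : ℝ) * PK n ∧
      ∑ v, AA (deg hd v) = n * AA (n - 1) + (4 : ℕ) * (AA (n - 3) - AA (n - 1)) := by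
  subst hcard
  have hodd : Odd (Fintype.card V) := ⟨K + 2, by omega⟩
  have : Nonempty V := Fintype.card_pos_iff.1 (by omega)
  obtain ⟨a, b, c, d, h1, h2, h3, h4, h5, h6, h7⟩ := class4 sdiff_subset (ev_F hs hev hodd) hq
  refine ⟨?_, deg_sum hs rfl hq (by rw [h7]; exact two_quad h1 h2 h3 h4 h5 h6)⟩
  have hm := miss4 h1 h2 h3 h4 h5 h6 h7
  have r4 := rel4 h1 h2 h3 h4 h5 h6 hn hK2
  have r3 := three (V := V) h2 h3 h6
  rw [Z1_eq_T3] at r4
  rw [PA_Ts hs hm hq, PK_Ts]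
  have r3' : (8 * ((Fintype.card V - 2 : ℕ) : ℝ) * (Ts univ (T3 a c d)).card) =
      ((Fintype.card V + 1 : ℕ) : ℝ) * (Ts (univ : Finset V) ∅).card := by exact_mod_cast r3
  have h8 : (0 : ℝ) < (2 : ℝ) ^ (Fintype.card V * (Fintype.card V - 1) / 2) := by positivity
  rw [mul_div_assoc', mul_div_assoc']
  refine div_le_div_of_nonneg_right ?_ h8.le
  have h9 : (0 : ℝ) ≤ 8 * ((Fintype.card V - 2 : ℕ) : ℝ) * 16 := by positivity
  have h10 := mul_le_mul_of_nonneg_left r4 h9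
  unfold b4 a4
  set N0 := bnN s4 K 0
  set N1 := bnN s4 K 1
  rw [Nat.cast_mul, Nat.cast_mul 8, Nat.cast_mul, Nat.cast_mul]
  calc _ = 8 * ((Fintype.card V - 2 : ℕ) : ℝ) * 16 * (((4 * N0 + N1 : ℕ) : ℝ) *
        (Ts univ (Z2 a b c d {(c, d)})).card) := by push_cast; ring
    _ ≤ _ := h10
    _ = 64 * (N0 : ℝ) * (8 * ((Fintype.card V - 2 : ℕ) : ℝ) * (Ts univ (T3 a c d)).card) := by
        push_cast; ring
    _ = _ := by rw [r3']; push_cast; ring

theorem miss5 {hd : E → Bool → V} {a b c d e : V} (h1 : a ≠ b) (h2 : a ≠ c) (h3 : a ≠ d)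
    (h4 : a ≠ e) (h5 : b ≠ c) (h6 : b ≠ d) (h7 : b ≠ e) (h8 : c ≠ d) (h9 : c ≠ e) (h10 : d ≠ e)
    (hF : KE V \ es hd = {s(a, b), s(b, c), s(c, d), s(d, e), s(e, a)}) :
    Miss hd (Z2 a b c e {(c, d), (d, e)}) := by
  refine miss_of ?_ ?_ ?_ (bal5 h1 h2 h4 h5 h7 h9 (Ne.symm h3) (Ne.symm h6) (Ne.symm h8) h10)
  · rw [hF]
    unfold Z2
    simp only [image_insert, image_singleton]
    ext x
    simp only [mem_insert, mem_singleton]
    tauto
  · intro x y hxy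
    unfold Z2 at hxy
    simp only [mem_insert, mem_singleton, Prod.mk.injEq] at hxy
    rcases hxy with ⟨rfl, rfl⟩ | ⟨rfl, rfl⟩ | ⟨rfl, rfl⟩ | ⟨rfl, rfl⟩ | ⟨rfl, rfl⟩
    · exact h1
    · exact h5
    · exact Ne.symm h4
    · exact h8
    · exact h10
  · intro x y hxy
    unfold Z2 at hxy ⊢
    simp only [mem_insert, mem_singleton, Prod.mk.injEq, not_or, not_and] at hxy ⊢
    rcases hxy with ⟨rfl, rfl⟩ | ⟨rfl, rfl⟩ | ⟨rfl, rfl⟩ | ⟨rfl, rfl⟩ | ⟨rfl, rfl⟩
    · exact ⟨fun e => absurd e.symm h1, fun _ => h2, fun e => absurd e h7,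
        fun e => absurd e h5, fun e => absurd e h6⟩
    · exact ⟨fun e => absurd e.symm h2, fun e => absurd e.symm h5, fun e => absurd e h9,
        fun _ => h6, fun e => absurd e h8⟩
    · exact ⟨fun _ e => h7 e.symm, fun e => absurd e h1, fun e => absurd e h4,
        fun e => absurd e h2, fun e => absurd e h3⟩
    · exact ⟨fun e => absurd e.symm h3, fun e => absurd e.symm h6, fun e => absurd e h10,
        fun e => absurd e.symm h8, fun _ => h9⟩
    · exact ⟨fun e => absurd e.symm h4, fun e => absurd e.symm h7, fun _ e => h3 e.symm,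
        fun e => absurd e.symm h9, fun e => absurd e.symm h10⟩

theorem sw5 {hd : E → Bool → V} (hs : Simple hd) (hev : ∀ v, Even (deg hd v))
    (hcard : Fintype.card V = 21) (hq : (KE V \ es hd).card = 5) :
    ((b5 21 8 : ℕ) : ℝ) * PA hd univ ≤ ((a5 21 8 : ℕ) : ℝ) * PK 21 ∧
      ∑ v, AA (deg hd v) = (21 : ℕ) * AA (21 - 1) + (5 : ℕ) * (AA (21 - 3) - AA (21 - 1)) := by
  have hodd : Odd (Fintype.card V) := ⟨10, by omega⟩
  have : Nonempty V := Fintype.card_pos_iff.1 (by omega)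
  obtain ⟨a, b, c, d, e, h1, h2, h3, h4, h5, h6, h7, h8, h9, h10, h11⟩ :=
    class5 sdiff_subset (ev_F hs hev hodd) hq
  refine ⟨?_, deg_sum hs hcard hq (by rw [h11]; exact two_pent h1 h2 h3 h4 h5 h6 h7 h8 h9 h10)⟩
  have hm := miss5 h1 h2 h3 h4 h5 h6 h7 h8 h9 h10 h11
  have r5 := rel5 h1 h2 h4 h5 h7 h9 (Ne.symm h3) (Ne.symm h6) (Ne.symm h8) h10 hcard
  have r4 := rel4 (K := 8) h2 h3 h4 h8 h9 h10 (by omega) (by omega)
  have r3 := three (V := V) h3 h4 h10
  rw [Z1_eq_T3] at r4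
  rw [Z1_eq_Z2] at r5
  have hPK : PK 21 = ((Ts (univ : Finset V) ∅).card : ℝ) /
      2 ^ (Fintype.card V * (Fintype.card V - 1) / 2) := by
    rw [← PK_Ts, hcard]
  rw [PA_Ts hs hm hq, hPK]
  rw [hcard] at r3
  have r3' : (8 * 19 * ((Ts univ (T3 a d e)).card : ℝ)) =
      22 * (Ts (univ : Finset V) ∅).card := by exact_mod_cast r3
  have h12 : (0 : ℝ) < (2 : ℝ) ^ (Fintype.card V * (Fintype.card V - 1) / 2) := by positivity
  rw [mul_div_assoc', mul_div_assoc']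
  refine div_le_div_of_nonneg_right ?_ h12.le
  unfold b5 a5
  generalize bnN s4 8 0 = N0 at r4 ⊢
  generalize bnN s4 8 1 = N1 at r4 ⊢
  generalize bnN s5 8 0 = M0 at r5 ⊢
  generalize bnN s5 8 1 = M1 at r5 ⊢
  have h13 : (0 : ℝ) ≤ 32 * (4 * N0 + N1) * (8 * 19) := by
    exact_mod_cast Nat.zero_le (32 * (4 * N0 + N1) * (8 * 19))
  have h14 := mul_le_mul_of_nonneg_left r5 h13
  have h15 : (0 : ℝ) ≤ 32 * (8 * 19) * (4 * M0 + M1) := by
    exact_mod_cast Nat.zero_le (32 * (8 * 19) * (4 * M0 + M1))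
  have h16 := mul_le_mul_of_nonneg_left r4 h15
  push_cast at h14 h16 ⊢
  have h17 : ((128 : ℝ) * (4 * M0 + M1) * N0) * (8 * 19 * ((Ts univ (T3 a d e)).card : ℝ)) =
      ((128 : ℝ) * (4 * M0 + M1) * N0) * (22 * (Ts (univ : Finset V) ∅).card) := by rw [r3']
  calc _ = 32 * (4 * (N0 : ℝ) + N1) * (8 * 19) *
        (4 * M1 * ((Ts univ (Z2 a b c e {(c, d), (d, e)})).card : ℝ)) := by norm_num; ring
    _ ≤ _ := h14
    _ = 32 * (8 * 19) * (4 * (M0 : ℝ) + M1) *
        ((4 * N0 + N1) * (Ts univ (Z2 a c d e {(d, e)})).card) := by ring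
    _ ≤ _ := h16
    _ = ((128 : ℝ) * (4 * M0 + M1) * N0) * (8 * 19 * ((Ts univ (T3 a d e)).card : ℝ)) := by ring
    _ = _ := h17
    _ = _ := by norm_num; ring

/-- the pairs (number of vertices, number of missing edges) treated by tournaments -/
def SWQ (n q : ℕ) : Prop :=
  (q = 3 ∧ (n = 15 ∨ n = 17 ∨ n = 19 ∨ n = 21)) ∨ (q = 4 ∧ (n = 19 ∨ n = 21)) ∨ (q = 5 ∧ n = 21)

theorem card_F {hd : E → Bool → V} (hs : Simple hd) {n q : ℕ} (hcard : Fintype.card V = n)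
    (hsum : ∑ v, (n - 1 - deg hd v) = 2 * q) : (KE V \ es hd).card = q := by
  have h1 : ∑ v, fd (KE V \ es hd) v = 2 * q := by
    rw [← hsum]
    refine sum_congr rfl fun v _ => ?_
    have h4 := fd_sdiff (es_sub hs) v
    rw [fd_es hs, hcard] at h4
    omega
  rw [sum_fd sdiff_subset] at h1
  omega

/-- **Near-cliques with few missing edges.** -/
theorem sw (hR : RTlow) (hP : RTgen) {hd : E → Bool → V} (hs : Simple hd)
    (hev : ∀ v, Even (deg hd v)) {n q : ℕ} (hcard : Fintype.card V = n)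
    (hsum : ∑ v, (n - 1 - deg hd v) = 2 * q) (hq : SWQ n q) :
    PA hd univ ≤ Real.exp (∑ v, AA (deg hd v)) := by
  have hF := card_F hs hcard hsum
  rcases hq with ⟨rfl, h⟩ | ⟨rfl, h⟩ | ⟨rfl, h⟩
  · have hodd : Odd n := by rcases h with rfl | rfl | rfl | rfl <;> decide
    obtain ⟨h1, h2⟩ := sw3 hs hev hcard hodd (by omega) hF
    rw [h2]
    rcases h with rfl | rfl | rfl | rfl
    · refine fin' hR hP hodd (by omega) chk15 ?_
      exact h1.le
    · refine fin' hR hP hodd (by omega) chk17 ?_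
      exact h1.le
    · refine fin' hR hP hodd (by omega) chk19 ?_
      exact h1.le
    · refine fin' hR hP hodd (by omega) chk21 ?_
      exact h1.le
  · rcases h with rfl | rfl
    · obtain ⟨h1, h2⟩ := sw4 hs hev hcard (K := 7) (by omega) (by omega) hF
      rw [h2]
      exact fin' hR hP (by decide) (by omega) chk19_4 h1
    · obtain ⟨h1, h2⟩ := sw4 hs hev hcard (K := 8) (by omega) (by omega) hF
      rw [h2]
      exact fin' hR hP (by decide) (by omega) chk21_4 h1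
  · subst h
    obtain ⟨h1, h2⟩ := sw5 hs hev hcard hF
    rw [h2]
    exact fin' hR hP (by decide) (by omega) chk21_5 h1

/-- **Closed blocks which are near-cliques with few missing edges.** -/
theorem closed_sw (hR : RTlow) (hP : RTgen) {hd : E → Bool → V} (hs : Simple hd)
    (hev : ∀ v, Even (deg hd v)) {C : Finset V} (hC : Closed hd C) {n q : ℕ} (hn : C.card = n)
    (hsum : ∑ v ∈ C, (n - 1 - deg hd v) = 2 * q) (hq : SWQ n q) :
    PA hd C ≤ Real.exp (∑ v ∈ C, AA (deg hd v)) := by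
  rw [PA_restrict hs hC]
  have h1 : ∀ f : ℕ → ℝ, ∑ v : {v // v ∈ C}, f (deg (hdR hd C) v) = ∑ v ∈ C, f (deg hd v) := by
    intro f
    rw [← sum_coe_sort C fun v => f (deg hd v)]
    exact sum_congr rfl fun v _ => by rw [deg_hdR hs hC]
  have h2 : ∑ v : {v // v ∈ C}, (n - 1 - deg (hdR hd C) v) = ∑ v ∈ C, (n - 1 - deg hd v) := by
    rw [← sum_coe_sort C fun v => n - 1 - deg hd v]
    exact sum_congr rfl fun v _ => by rw [deg_hdR hs hC]
  rw [← h1]
  refine sw hR hP (simple_hdR hs C) (fun v => ?_) (n := n) (q := q) ?_ ?_ hq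
  · rw [deg_hdR hs hC]
    exact hev _
  · rw [Fintype.card_coe]
    exact hn
  · rw [h2]
    exact hsum

end MP_a3e05c_co.SW
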