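import Pool.Agent.Lib.MP_a3e05c_co.C7.Merge
import Pool.Agent.Lib.MP_a3e05c_co.SW.Final

/-!
# EULER, case C7: the hypotheses of `C7.PA_closed` supplied by the block SW
-/

open Finset

namespace MP_a3e05c_co.SW

open KL NUM NC C7

variable {V E : Type} [Fintype V] [DecidableEq V] [Fintype E] [DecidableEq E]

theorem card_missing {hd : E → Bool → V} (hs : Simple hd) {n q : ℕ} (hcard : Fintype.card V = n)
    (hE : Fintype.card E + q = n * (n - 1) / 2) : (KE V \ es hd).card = q := by
  have h1 := card_sdiff_add_card_eq_card (es_sub hs)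
  rw [card_es hs, card_KE, hcard] at h1
  omega

theorem sum_missing {hd : E → Bool → V} (hs : Simple hd) {n q : ℕ} (hcard : Fintype.card V = n)
    (hF : (KE V \ es hd).card = q) : ∑ v, (n - 1 - deg hd v) = 2 * q := by
  rw [← hF, ← sum_fd sdiff_subset]
  refine sum_congr rfl fun v _ => ?_
  have h4 := fd_sdiff (es_sub hs) v
  rw [fd_es hs, hcard] at h4
  omega

/-- the exact value for three missing edges, for all odd `n ≥ 5` -/
theorem tri {n : ℕ} (hodd : Odd n) (h5 : 5 ≤ n) : Tri n := by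
  intro V E _ _ _ _ hd hs hev hcard hE
  have h1 := (sw3 hs hev hcard hodd h5 (card_missing hs hcard hE)).1
  have hn : (5 : ℝ) ≤ n := by exact_mod_cast h5
  rw [Nat.cast_sub (by omega : 2 ≤ n)] at h1
  push_cast at h1
  rw [div_mul_eq_mul_div, le_div_iff₀ (by linarith), mul_comm]
  exact h1.le

theorem whole (hR : RTlow) (hP : RTgen) {n q : ℕ} (h : SWQ n q) : Whole n q := by
  intro V E _ _ _ _ hd hs hev hcard hE
  exact sw hR hP hs hev hcard (sum_missing hs hcard (card_missing hs hcard hE)) h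

/-- the hypothesis `hT` of `C7.PA_closed` -/
theorem hT : ∀ n, n = 15 ∨ n = 17 ∨ n = 19 ∨ n = 21 → Tri n := by
  rintro n (rfl | rfl | rfl | rfl) <;> exact tri (by decide) (by norm_num)

/-- the hypothesis `h4` of `C7.PA_closed` -/
theorem h4 (hR : RTlow) (hP : RTgen) : ∀ n, n = 19 ∨ n = 21 → Whole n 4 := fun _ h =>
  whole hR hP (Or.inr (Or.inl ⟨rfl, h⟩))

/-- the hypothesis `h5` of `C7.PA_closed` -/
theorem h5 (hR : RTlow) (hP : RTgen) : Whole 21 5 := whole hR hP (Or.inr (Or.inr ⟨rfl, rfl⟩))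

end MP_a3e05c_co.SW
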