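import Pool.Agent.Lib.MP_a3e05c_co.KL.AmGm

/-!
# EULER, near-cliques with 3, 4 or 5 missing edges: the ratio of two coefficients
-/

open Finset

namespace MP_a3e05c_co.SW

open KL

private theorem tangent {s σ a : ℝ} (hs1 : s ≤ 1) (hσ1 : σ < 1) (ha0 : 0 ≤ a)
    (ha1 : a < 1) :
    σ / (1 - σ * a) + (s - σ) / (1 - σ * a) ^ 2 ≤ s / (1 - s * a) := by
  have h1 : 0 < 1 - σ * a := by nlinarith
  have h2 : 0 < 1 - s * a := by nlinarith
  have h3 : s / (1 - s * a) - (σ / (1 - σ * a) + (s - σ) / (1 - σ * a) ^ 2) =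
      a * (s - σ) ^ 2 / ((1 - s * a) * (1 - σ * a) ^ 2) := by
    have h1' := h1.ne'
    have h2' := h2.ne'
    rw [div_add_div _ _ h1' (pow_ne_zero 2 h1'), div_sub_div _ _ h2'
      (mul_ne_zero h1' (pow_ne_zero 2 h1')), div_eq_div_iff
      (mul_ne_zero h2' (mul_ne_zero h1' (pow_ne_zero 2 h1')))
      (mul_ne_zero h2' (pow_ne_zero 2 h1'))]
    ring
  have h4 : 0 ≤ a * (s - σ) ^ 2 / ((1 - s * a) * (1 - σ * a) ^ 2) := by positivity
  linarith

/-- `∏ (1 - s_i c) / (1 - σ c)^K` is decreasing in `c` -/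
private theorem mono {K : ℕ} (s : Fin K → ℝ) (hs : ∀ i, 0 ≤ s i ∧ s i ≤ 1) {σ : ℝ} (hσ0 : 0 ≤ σ)
    (hσ1 : σ < 1) (hσ : K * σ ≤ ∑ i, s i) {a b : ℝ} (ha0 : 0 ≤ a) (hab : a ≤ b) (hb1 : b ≤ 1) :
    (∏ i, (1 - s i * b)) * (1 - σ * a) ^ K ≤ (∏ i, (1 - s i * a)) * (1 - σ * b) ^ K := by
  rcases eq_or_lt_of_le (hab.trans hb1) with ha1 | ha1
  · have h1 : b = a := le_antisymm (hb1.trans ha1.ge) hab
    rw [h1]
  rcases Nat.eq_zero_or_pos K with rfl | hK
  · simp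
  have hK' : (0 : ℝ) < K := by exact_mod_cast hK
  have h1 : 0 < 1 - σ * a := by nlinarith
  have h2 : ∀ i, 0 < 1 - s i * a := fun i => by nlinarith [(hs i).1, (hs i).2]
  have h3 : ∀ i, 0 ≤ 1 - s i * b := fun i => by nlinarith [(hs i).1, (hs i).2]
  set t : Fin K → ℝ := fun i => s i / (1 - s i * a) * (b - a) with ht
  have h4 : ∀ i, 1 - s i * b = (1 - s i * a) * (1 - t i) := by
    intro i
    have := (h2 i).ne'
    rw [ht]
    field_simp
    ring
  have h5 : ∀ i, 0 ≤ 1 - t i := by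
    intro i
    have h6 := h3 i
    rw [h4 i] at h6
    exact nonneg_of_mul_nonneg_right h6 (h2 i)
  have h6 : K * (σ / (1 - σ * a) * (b - a)) ≤ ∑ i, t i := by
    have h7 : ∑ i, (σ / (1 - σ * a) + (s i - σ) / (1 - σ * a) ^ 2) * (b - a) ≤ ∑ i, t i := by
      refine Finset.sum_le_sum fun i _ => ?_
      exact mul_le_mul_of_nonneg_right (tangent (hs i).2 hσ1 ha0 ha1) (by linarith)
    refine le_trans ?_ h7
    have h9 : ∑ i, (σ / (1 - σ * a) + (s i - σ) / (1 - σ * a) ^ 2) =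
        K * (σ / (1 - σ * a)) + (∑ i, s i - K * σ) / (1 - σ * a) ^ 2 := by
      rw [Finset.sum_add_distrib, Finset.sum_const, ← Finset.sum_div, Finset.sum_sub_distrib,
        Finset.sum_const, Finset.card_univ, Fintype.card_fin, nsmul_eq_mul, nsmul_eq_mul]
    rw [← Finset.sum_mul, h9, ← mul_assoc]
    refine mul_le_mul_of_nonneg_right ?_ (by linarith)
    have h8 : 0 ≤ (∑ i, s i - K * σ) / (1 - σ * a) ^ 2 := by
      have : 0 ≤ ∑ i, s i - K * σ := by linarith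
      positivity
    linarith
  -- AM-GM
  have h7 : ∏ i, (1 - t i) ≤ (1 - σ / (1 - σ * a) * (b - a)) ^ K := by
    have h8 := Real.geom_mean_le_arith_mean_weighted univ (fun _ : Fin K => ((K : ℝ))⁻¹)
      (fun i => 1 - t i) (fun _ _ => by positivity)
      (by rw [Finset.sum_const, Finset.card_univ, Fintype.card_fin, nsmul_eq_mul,
        mul_inv_cancel₀ hK'.ne']) (fun i _ => h5 i)
    have h9 : ∏ i, (1 - t i) = (∏ i, (1 - t i) ^ ((K : ℝ))⁻¹) ^ K := by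
      rw [← Finset.prod_pow]
      refine Finset.prod_congr rfl fun i _ => ?_
      rw [Real.rpow_inv_natCast_pow (h5 i) hK.ne']
    have h10 : ∑ i, ((K : ℝ))⁻¹ * (1 - t i) ≤ 1 - σ / (1 - σ * a) * (b - a) := by
      rw [← Finset.mul_sum, Finset.sum_sub_distrib, Finset.sum_const,
        Finset.card_univ, Fintype.card_fin, nsmul_eq_mul, mul_one, inv_mul_le_iff₀ hK']
      nlinarith [h6]
    rw [h9]
    refine pow_le_pow_left₀ (Finset.prod_nonneg fun i _ => Real.rpow_nonneg (h5 i) _) ?_ K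
    exact h8.trans h10
  have h8 : 1 - σ * b = (1 - σ * a) * (1 - σ / (1 - σ * a) * (b - a)) := by
    field_simp
    ring
  rw [Finset.prod_congr rfl fun i _ => h4 i, Finset.prod_mul_distrib, h8, mul_pow]
  have h9 : 0 ≤ ∏ i, (1 - s i * a) := Finset.prod_nonneg fun i _ => (h2 i).le
  calc (∏ i, (1 - s i * a)) * (∏ i, (1 - t i)) * (1 - σ * a) ^ K
      ≤ (∏ i, (1 - s i * a)) * (1 - σ / (1 - σ * a) * (b - a)) ^ K * (1 - σ * a) ^ K :=
        mul_le_mul_of_nonneg_right (mul_le_mul_of_nonneg_left h7 h9) (pow_nonneg h1.le K)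
    _ = _ := by ring

private theorem cont1 (n : ℕ) : Continuous fun x : ℝ => Real.sin x ^ (2 * n) :=
  Real.continuous_sin.pow _

private theorem cont2 {K : ℕ} (s : Fin K → ℝ) :
    Continuous fun x : ℝ => ∏ i, (1 - s i * Real.cos x ^ 2) :=
  continuous_finsetProd _ fun _ _ =>
    continuous_const.sub (continuous_const.mul (Real.continuous_cos.pow 2))

private theorem cont3 (K : ℕ) (σ : ℝ) : Continuous fun x : ℝ => (1 - σ * Real.cos x ^ 2) ^ K :=
  (continuous_const.sub (continuous_const.mul (Real.continuous_cos.pow 2))).pow K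

theorem bb_pos (n : ℕ) : 0 < bb n := by
  unfold bb
  have := Nat.centralBinom_pos n
  positivity

theorem BN_pos (K : ℕ) {σ : ℝ} (hσ0 : 0 ≤ σ) (hσ1 : σ < 1) (n : ℕ) : 0 < BN K σ n := by
  unfold BN
  refine Finset.sum_pos' (fun m _ => ?_) ⟨0, ?_, ?_⟩
  · have := bb_pos (n + m)
    have h1 : 0 < 1 - σ := by linarith
    positivity
  · simp
  · have := bb_pos (n + 0)
    have h1 : 0 < 1 - σ := by linarith
    rw [pow_zero, mul_one]
    have h2 := Nat.choose_pos (Nat.zero_le K)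
    have h3 : (0 : ℝ) < (K.choose 0 : ℝ) := by exact_mod_cast h2
    positivity

theorem BN_le (K : ℕ) {σ : ℝ} (hσ0 : 0 ≤ σ) (hσ1 : σ < 1) : BN K σ 1 ≤ BN K σ 0 := by
  rw [bn_eq_integral, bn_eq_integral]
  refine mul_le_mul_of_nonneg_left ?_ (by positivity)
  refine intervalIntegral.integral_mono_on Real.pi_pos.le ?_ ?_ fun x _ => ?_
  · exact ((cont1 1).mul (cont3 K σ)).intervalIntegrable _ _
  · exact ((cont1 0).mul (cont3 K σ)).intervalIntegrable _ _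
  · have h1 : 0 ≤ (1 - σ * Real.cos x ^ 2) ^ K := by
      refine pow_nonneg ?_ K
      have h2 := Real.cos_sq_le_one x
      nlinarith [sq_nonneg (Real.cos x)]
    refine mul_le_mul_of_nonneg_right ?_ h1
    rw [mul_one, mul_zero, pow_zero]
    exact Real.sin_sq_le_one x

/-- **The ratio.**  Among all parameters with the same sum the equal ones have the smallest ratio,
which is increasing in the sum. -/
theorem pb_ratio {K : ℕ} (s : Fin K → ℝ) (hs : ∀ i, 0 ≤ s i ∧ s i ≤ 1) {σ : ℝ} (hσ0 : 0 ≤ σ)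
    (hσ1 : σ < 1) (hσ : K * σ ≤ ∑ i, s i) :
    BN K σ 1 * PB s 0 ≤ PB s 1 * BN K σ 0 := by
  have hB0 := BN_pos K hσ0 hσ1 0
  have hB1 := BN_pos K hσ0 hσ1 1
  set ρ : ℝ := BN K σ 1 / BN K σ 0 with hρ
  have hρ0 : 0 < ρ := div_pos hB1 hB0
  have hρ1 : ρ ≤ 1 := by
    rw [hρ, div_le_one hB0]
    exact BN_le K hσ0 hσ1
  set c₀ : ℝ := 1 - ρ with hc₀
  have hc0 : 0 ≤ c₀ := by linarith
  have hc1 : c₀ < 1 := by linarith
  set W : ℝ → ℝ := fun c => ∏ i, (1 - s i * c) with hW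
  set W₀ : ℝ → ℝ := fun c => (1 - σ * c) ^ K with hW₀
  have hW₀pos : 0 < W₀ c₀ := by
    have : 0 < 1 - σ * c₀ := by nlinarith
    exact pow_pos this K
  have hpt : ∀ c : ℝ, 0 ≤ c → c ≤ 1 → 0 ≤ (W c * W₀ c₀ - W c₀ * W₀ c) * (c₀ - c) := by
    intro c h0 h1
    rcases le_total c c₀ with h | h
    · have h2 := mono s hs hσ0 hσ1 hσ h0 h hc1.le
      refine mul_nonneg ?_ (by linarith)
      show 0 ≤ W c * W₀ c₀ - W c₀ * W₀ c
      have h3 : W c₀ * W₀ c ≤ W c * W₀ c₀ := h2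
      linarith
    · have h2 := mono s hs hσ0 hσ1 hσ hc0 h h1
      have h3 : W c * W₀ c₀ ≤ W c₀ * W₀ c := h2
      exact mul_nonneg_of_nonpos_of_nonpos (by linarith) (by linarith)
  have hint : 0 ≤ ∫ x in (0 : ℝ)..Real.pi,
      (W (Real.cos x ^ 2) * W₀ c₀ - W c₀ * W₀ (Real.cos x ^ 2)) * (c₀ - Real.cos x ^ 2) :=
    intervalIntegral.integral_nonneg Real.pi_pos.le fun x _ =>
      hpt _ (sq_nonneg _) (Real.cos_sq_le_one x)
  have hexp : ∀ x : ℝ,
      (W (Real.cos x ^ 2) * W₀ c₀ - W c₀ * W₀ (Real.cos x ^ 2)) * (c₀ - Real.cos x ^ 2) =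
      (W₀ c₀ * (Real.sin x ^ (2 * 1) * ∏ i, (1 - s i * Real.cos x ^ 2)) -
        W₀ c₀ * ρ * (Real.sin x ^ (2 * 0) * ∏ i, (1 - s i * Real.cos x ^ 2))) -
      (W c₀ * (Real.sin x ^ (2 * 1) * (1 - σ * Real.cos x ^ 2) ^ K) -
        W c₀ * ρ * (Real.sin x ^ (2 * 0) * (1 - σ * Real.cos x ^ 2) ^ K)) := by
    intro x
    have h1 : c₀ - Real.cos x ^ 2 = Real.sin x ^ 2 - ρ := by
      rw [hc₀, Real.sin_sq x]
      ring
    rw [h1, mul_one, mul_zero, pow_zero]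
    show (W (Real.cos x ^ 2) * W₀ c₀ - W c₀ * W₀ (Real.cos x ^ 2)) * (Real.sin x ^ 2 - ρ) =
      (W₀ c₀ * (Real.sin x ^ 2 * W (Real.cos x ^ 2)) - W₀ c₀ * ρ * (1 * W (Real.cos x ^ 2))) -
      (W c₀ * (Real.sin x ^ 2 * W₀ (Real.cos x ^ 2)) - W c₀ * ρ * (1 * W₀ (Real.cos x ^ 2)))
    ring
  rw [intervalIntegral.integral_congr fun x _ => hexp x] at hint
  have i1 : IntervalIntegrable (fun x : ℝ => Real.sin x ^ (2 * 1) *
      ∏ i, (1 - s i * Real.cos x ^ 2)) MeasureTheory.volume 0 Real.pi :=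
    ((cont1 1).mul (cont2 s)).intervalIntegrable _ _
  have i2 : IntervalIntegrable (fun x : ℝ => Real.sin x ^ (2 * 0) *
      ∏ i, (1 - s i * Real.cos x ^ 2)) MeasureTheory.volume 0 Real.pi :=
    ((cont1 0).mul (cont2 s)).intervalIntegrable _ _
  have i3 : IntervalIntegrable (fun x : ℝ => Real.sin x ^ (2 * 1) *
      (1 - σ * Real.cos x ^ 2) ^ K) MeasureTheory.volume 0 Real.pi :=
    ((cont1 1).mul (cont3 K σ)).intervalIntegrable _ _
  have i4 : IntervalIntegrable (fun x : ℝ => Real.sin x ^ (2 * 0) *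
      (1 - σ * Real.cos x ^ 2) ^ K) MeasureTheory.volume 0 Real.pi :=
    ((cont1 0).mul (cont3 K σ)).intervalIntegrable _ _
  rw [intervalIntegral.integral_sub ((i1.const_mul _).sub (i2.const_mul _))
      ((i3.const_mul _).sub (i4.const_mul _)),
    intervalIntegral.integral_sub (i1.const_mul _) (i2.const_mul _),
    intervalIntegral.integral_sub (i3.const_mul _) (i4.const_mul _),
    intervalIntegral.integral_const_mul, intervalIntegral.integral_const_mul,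
    intervalIntegral.integral_const_mul, intervalIntegral.integral_const_mul] at hint
  have e1 : ∫ x in (0 : ℝ)..Real.pi, Real.sin x ^ (2 * 1) * ∏ i, (1 - s i * Real.cos x ^ 2) =
      Real.pi * PB s 1 := by
    rw [pb_eq_integral]
    field_simp
  have e2 : ∫ x in (0 : ℝ)..Real.pi, Real.sin x ^ (2 * 0) * ∏ i, (1 - s i * Real.cos x ^ 2) =
      Real.pi * PB s 0 := by
    rw [pb_eq_integral]
    field_simp
  have e3 : ∫ x in (0 : ℝ)..Real.pi, Real.sin x ^ (2 * 1) * (1 - σ * Real.cos x ^ 2) ^ K =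
      Real.pi * BN K σ 1 := by
    rw [bn_eq_integral]
    field_simp
  have e4 : ∫ x in (0 : ℝ)..Real.pi, Real.sin x ^ (2 * 0) * (1 - σ * Real.cos x ^ 2) ^ K =
      Real.pi * BN K σ 0 := by
    rw [bn_eq_integral]
    field_simp
  rw [e1, e2, e3, e4] at hint
  have h5 : ρ * BN K σ 0 = BN K σ 1 := by
    rw [hρ, div_mul_cancel₀ _ hB0.ne']
  have h6 : W c₀ * (Real.pi * BN K σ 1) - W c₀ * ρ * (Real.pi * BN K σ 0) = 0 := by
    rw [← h5]
    ring
  rw [h6, sub_zero] at hint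
  have h7 : 0 ≤ (W₀ c₀ * Real.pi) * (PB s 1 - ρ * PB s 0) := by
    have : (W₀ c₀ * Real.pi) * (PB s 1 - ρ * PB s 0) =
      W₀ c₀ * (Real.pi * PB s 1) - W₀ c₀ * ρ * (Real.pi * PB s 0) := by ring
    rw [this]
    exact hint
  have h8 : 0 ≤ PB s 1 - ρ * PB s 0 :=
    nonneg_of_mul_nonneg_right h7 (mul_pos hW₀pos Real.pi_pos)
  calc BN K σ 1 * PB s 0 = (ρ * PB s 0) * BN K σ 0 := by
        rw [← h5]
        ring
    _ ≤ PB s 1 * BN K σ 0 := mul_le_mul_of_nonneg_right (by linarith) hB0.le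

end MP_a3e05c_co.SW
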