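import Pool.Agent.Lib.MP_a3e05c_co.SW.Moment
import Pool.Agent.Lib.MP_a3e05c_co.SW.Ratio

/-!
# EULER, near-cliques with 3, 4 or 5 missing edges: the bound for the two middle coefficients
-/

open Finset Polynomial

namespace MP_a3e05c_co.SW

variable {V : Type} [Fintype V] [DecidableEq V] {u w v z : V} {S : Finset (V × V)}

/-- the number of tournaments with `j` arcs from `u` to the common neighbours -/
def cj (u w v z : V) (S : Finset (V × V)) (j : ℕ) : ℕ :=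
  ((Ts (A0 u w) S).filter fun T => jj (C0 u w v z) T u = j).card

theorem Cfg.sum_sn (h : Cfg u w v z S) :
    ∑ x ∈ C0 u w v z, ∑ T ∈ Ts (A0 u w) S, sn (T u x) = -((Ts (A0 u w) S).card : ℝ) := by
  rw [Finset.sum_comm]
  have h1 : ∑ T ∈ Ts (A0 u w) S, ∑ x ∈ C0 u w v z, sn (T w x) =
      ∑ T ∈ Ts (A0 u w) S, ∑ x ∈ C0 u w v z, sn (T u x) := by
    rw [← h.sum_ex (Finset.Subset.refl _) (fun T => ∑ x ∈ C0 u w v z, sn (T w x))]
    refine Finset.sum_congr rfl fun T _ => Finset.sum_congr rfl fun x hx => ?_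
    rw [ex_right (notMem_C0w (Finset.Subset.refl _)) T hx]
  have h2 : ∑ T ∈ Ts (A0 u w) S, (∑ x ∈ C0 u w v z, sn (T u x) + ∑ x ∈ C0 u w v z, sn (T w x)) =
      ∑ _T ∈ Ts (A0 u w) S, (-2 : ℝ) := by
    refine Finset.sum_congr rfl fun T hT => ?_
    have h3 := h.jj_add hT
    have h4 : (jj (C0 u w v z) T u : ℝ) + jj (C0 u w v z) T w + 1 = (C0 u w v z).card := by
      exact_mod_cast h3
    rw [SW.sum_sn, SW.sum_sn]
    linarith
  rw [Finset.sum_add_distrib, h1, Finset.sum_const, nsmul_eq_mul] at h2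
  linarith

theorem Cfg.sn_le (x : V) : (∑ T ∈ Ts (A0 u w) S, sn (T u x)) ^ 2 ≤
    ((Ts (A0 u w) S).card : ℝ) ^ 2 := by
  have h0 : |((Ts (A0 u w) S).card : ℝ)| = ((Ts (A0 u w) S).card : ℝ) :=
    abs_of_nonneg (Nat.cast_nonneg _)
  rw [sq_le_sq, h0]
  refine (Finset.abs_sum_le_sum_abs _ _).trans ?_
  have h1 : ∀ T ∈ Ts (A0 u w) S, |sn (T u x)| = 1 := by
    intro T _
    cases T u x <;> norm_num [sn]
  rw [Finset.sum_congr rfl h1, Finset.sum_const, nsmul_eq_mul, mul_one]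

/-- `R ≤ ρ N` -/
def RB (u w v z : V) (S : Finset (V × V)) (ρ : ℝ) : Prop :=
  ∑ x ∈ C0 u w v z, ∑ T ∈ Ts (A0 u w) S, sn (T u x) * sn (T w x) ≤
    ρ * (Ts (A0 u w) S).card

theorem Cfg.rb_of (h : Cfg u w v z S) {ρ : ℝ}
    (hρ : ∑ x ∈ C0 u w v z, (∑ T ∈ Ts (A0 u w) S, sn (T u x)) ^ 2 ≤
      ρ * ((Ts (A0 u w) S).card : ℝ) ^ 2) : RB u w v z S ρ := by
  unfold RB
  rcases (Ts (A0 u w) S).eq_empty_or_nonempty with h0 | hne
  · rw [h0]
    simp
  have hN : (0 : ℝ) < (Ts (A0 u w) S).card := by exact_mod_cast hne.card_pos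
  have h1 : ((Ts (A0 u w) S).card : ℝ) *
      ∑ x ∈ C0 u w v z, ∑ T ∈ Ts (A0 u w) S, sn (T u x) * sn (T w x) ≤
      ρ * ((Ts (A0 u w) S).card : ℝ) ^ 2 := by
    rw [Finset.mul_sum]
    exact (Finset.sum_le_sum fun x hx => h.pair hx).trans hρ
  have h2 : ((Ts (A0 u w) S).card : ℝ) *
      ∑ x ∈ C0 u w v z, ∑ T ∈ Ts (A0 u w) S, sn (T u x) * sn (T w x) ≤
      ((Ts (A0 u w) S).card : ℝ) * (ρ * (Ts (A0 u w) S).card) := by
    refine h1.trans (le_of_eq ?_)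
    ring
  exact le_of_mul_le_mul_left h2 hN

/-- twins have the same mean -/
theorem Cfg.twin (_ : Cfg u w v z S) {x y : V} (hx : x ∈ C0 u w v z) (hy : y ∈ C0 u w v z)
    (hxS : ∀ p ∈ S, p.1 ≠ x ∧ p.2 ≠ x) (hyS : ∀ p ∈ S, p.1 ≠ y ∧ p.2 ≠ y) :
    ∑ T ∈ Ts (A0 u w) S, sn (T u x) = ∑ T ∈ Ts (A0 u w) S, sn (T u y) := by
  have hx' := (mem_filter.1 hx).2
  have hy' := (mem_filter.1 hy).2
  have hmem : ∀ T ∈ Ts (A0 u w) S,
      (fun a b => T (Equiv.swap x y a) (Equiv.swap x y b)) ∈ Ts (A0 u w) S := by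
    intro T hT
    refine Ts_perm_mem (Equiv.swap x y) ?_ ?_ hT
    · intro a ha
      by_cases h1 : a = x
      · rw [h1, Equiv.swap_apply_left]
        unfold A0
        rw [mem_filter]
        exact ⟨mem_univ _, hy'.1, hy'.2.1⟩
      · by_cases h2 : a = y
        · rw [h2, Equiv.swap_apply_right]
          unfold A0
          rw [mem_filter]
          exact ⟨mem_univ _, hx'.1, hx'.2.1⟩
        · rw [Equiv.swap_apply_of_ne_of_ne h1 h2]
          exact ha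
    · intro p hp
      rw [Equiv.swap_apply_of_ne_of_ne (hxS p hp).1 (hyS p hp).1,
        Equiv.swap_apply_of_ne_of_ne (hxS p hp).2 (hyS p hp).2]
      exact hp
  have hinv : ∀ T : V → V → Bool,
      (fun a b => (fun a b => T (Equiv.swap x y a) (Equiv.swap x y b)) (Equiv.swap x y a)
        (Equiv.swap x y b)) = T := by
    intro T
    funext a b
    simp
  refine Finset.sum_nbij' (fun T a b => T (Equiv.swap x y a) (Equiv.swap x y b))
    (fun T a b => T (Equiv.swap x y a) (Equiv.swap x y b)) hmem hmem (fun T _ => hinv T)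
    (fun T _ => hinv T) ?_
  intro T _
  dsimp only
  rw [Equiv.swap_apply_right, Equiv.swap_apply_of_ne_of_ne (Ne.symm hx'.1) (Ne.symm hy'.1)]

/-- all common neighbours are twins -/
theorem Cfg.rb_all (h : Cfg u w v z S) (hpos : 0 < (C0 u w v z).card)
    (hS : ∀ x ∈ C0 u w v z, ∀ p ∈ S, p.1 ≠ x ∧ p.2 ≠ x) :
    RB u w v z S (1 / (C0 u w v z).card) := by
  refine h.rb_of ?_
  obtain ⟨y, hy⟩ := Finset.card_pos.1 hpos
  have hm : (0 : ℝ) < (C0 u w v z).card := by exact_mod_cast hpos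
  have h1 : ∀ x ∈ C0 u w v z, ∑ T ∈ Ts (A0 u w) S, sn (T u x) =
      ∑ T ∈ Ts (A0 u w) S, sn (T u y) := fun x hx => h.twin hx hy (hS x hx) (hS y hy)
  have h2 := h.sum_sn
  rw [Finset.sum_congr rfl h1, Finset.sum_const, nsmul_eq_mul] at h2
  have h3 : ∀ x ∈ C0 u w v z, (∑ T ∈ Ts (A0 u w) S, sn (T u x)) ^ 2 =
      (∑ T ∈ Ts (A0 u w) S, sn (T u y)) ^ 2 := fun x hx => by rw [h1 x hx]
  rw [Finset.sum_congr rfl h3, Finset.sum_const, nsmul_eq_mul]
  have h4 : ∑ T ∈ Ts (A0 u w) S, sn (T u y) =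
      -((Ts (A0 u w) S).card : ℝ) / (C0 u w v z).card := by
    rw [eq_div_iff hm.ne', mul_comm]
    exact h2
  rw [h4]
  refine le_of_eq ?_
  field_simp

/-- all common neighbours but `c` are twins -/
theorem Cfg.rb_but (h : Cfg u w v z S) {c : V} (hc : c ∈ C0 u w v z)
    (hpos : 1 < (C0 u w v z).card)
    (hS : ∀ x ∈ C0 u w v z, x ≠ c → ∀ p ∈ S, p.1 ≠ x ∧ p.2 ≠ x) :
    RB u w v z S (1 + 4 / ((C0 u w v z).card - 1)) := by
  refine h.rb_of ?_
  have hcard := Finset.card_erase_of_mem hc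
  have hpos' : 0 < ((C0 u w v z).erase c).card := by omega
  obtain ⟨y, hy⟩ := Finset.card_pos.1 hpos'
  have hy' := mem_erase.1 hy
  have hm : (0 : ℝ) < (C0 u w v z).card - 1 := by
    have : (1 : ℝ) < (C0 u w v z).card := by exact_mod_cast hpos
    linarith
  have hm' : (((C0 u w v z).erase c).card : ℝ) = (C0 u w v z).card - 1 := by
    rw [hcard, Nat.cast_sub hpos.le]
    norm_num
  have h1 : ∀ x ∈ (C0 u w v z).erase c, ∑ T ∈ Ts (A0 u w) S, sn (T u x) =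
      ∑ T ∈ Ts (A0 u w) S, sn (T u y) := fun x hx => by
    have hx' := mem_erase.1 hx
    exact h.twin hx'.2 hy'.2 (hS x hx'.2 hx'.1) (hS y hy'.2 hy'.1)
  have h2 := h.sum_sn
  rw [← Finset.add_sum_erase _ _ hc, Finset.sum_congr rfl h1, Finset.sum_const, nsmul_eq_mul,
    hm'] at h2
  have h3 : ∀ x ∈ (C0 u w v z).erase c, (∑ T ∈ Ts (A0 u w) S, sn (T u x)) ^ 2 =
      (∑ T ∈ Ts (A0 u w) S, sn (T u y)) ^ 2 := fun x hx => by rw [h1 x hx]
  rw [← Finset.add_sum_erase _ _ hc, Finset.sum_congr rfl h3, Finset.sum_const, nsmul_eq_mul, hm']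
  have h5 := Cfg.sn_le (u := u) (w := w) (S := S) c
  set N : ℝ := ((Ts (A0 u w) S).card : ℝ) with hN
  set b : ℝ := ∑ T ∈ Ts (A0 u w) S, sn (T u c) with hb
  set a : ℝ := ∑ T ∈ Ts (A0 u w) S, sn (T u y) with ha
  set m : ℝ := ((C0 u w v z).card : ℝ) with hmm
  have hN0 : 0 ≤ N := Nat.cast_nonneg _
  have h6 : a = -(N + b) / (m - 1) := by
    rw [eq_div_iff hm.ne']
    linarith
  have h7 : (N + b) ^ 2 ≤ 4 * N ^ 2 := by
    have h8 : |b| ≤ N := by
      rw [← abs_of_nonneg hN0]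
      exact sq_le_sq.1 h5
    have h9 := abs_le.1 h8
    nlinarith
  have h8 : (m - 1) * a ^ 2 = (N + b) ^ 2 / (m - 1) := by
    rw [h6]
    field_simp
  have h9 : (N + b) ^ 2 / (m - 1) ≤ 4 * N ^ 2 / (m - 1) :=
    div_le_div_of_nonneg_right h7 hm.le
  have h10 : (1 + 4 / (m - 1)) * N ^ 2 = N ^ 2 + 4 * N ^ 2 / (m - 1) := by ring
  rw [h8, h10]
  linarith

/-- **The two middle coefficients.** -/
theorem Cfg.middle (h : Cfg u w v z S) {K : ℕ} (hK : (C0 u w v z).card = 2 * K + 1)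
    (hK1 : 1 ≤ K) {ρ σ : ℝ} (hρ : RB u w v z S ρ) (hσ0 : 0 ≤ σ) (hσ1 : σ < 1)
    (hσ : 4 * K * σ ≤ 2 * K + 1 - ρ) :
    2 * KL.BN K σ 1 * (cj u w v z S K : ℝ) ≤
      KL.BN K σ 0 * ((cj u w v z S K : ℝ) + cj u w v z S (K + 1)) := by
  rcases (Ts (A0 u w) S).eq_empty_or_nonempty with h0 | hne
  · unfold cj
    rw [h0]
    simp
  have hN : (0 : ℝ) < (Ts (A0 u w) S).card := by exact_mod_cast hne.card_pos
  obtain ⟨s, hs⟩ := h.fp_factor hne
  have hk : (C0 u w v z).card - 1 = 2 * K := by omega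
  have hpal := h.fp_palin (j := K - 1) (by omega)
  have hsec := h.second
  rw [hk] at hsec hpal
  have hkk : ((C0 u w v z).card - 1) / 2 = K := by omega
  have hc0 := fp_coeff (u := u) (w := w) (v := v) (z := z) (S := S) K
  have hc1 := fp_coeff (u := u) (w := w) (v := v) (z := z) (S := S) (K + 1)
  have hev := fp_eval (u := u) (w := w) (v := v) (z := z) (S := S)
  set f := fp u w v z S with hf
  -- transport the factorisation to `2 * K`
  have hfac : ∃ s' : Fin ((2 * K) / 2) → ℝ, KL.Factor (2 * K) f s' := by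
    rw [← hk]
    exact ⟨s, hs⟩
  obtain ⟨s', hs'⟩ := hfac
  have h1 := KL.coeff_factor (M := 0) (by simp) hs'
  have h2 := KL.coeff_factor (M := 2) (by simp [Nat.even_add]) hs'
  have h3 := KL.second_moment hs'
  have e1 : 2 * K % 2 = 0 := by omega
  have e2 : (2 * K + 0) / 2 = K := by omega
  have e3 : (2 * K + 2) / 2 = K + 1 := by omega
  rw [e1, e2, pow_zero, mul_one] at h1
  rw [e1, e3] at h2
  rw [e1] at h3
  have h4 : (f * (C (1 / 2) * (1 + X)) ^ 2).coeff (K + 1) = (f.coeff K + f.coeff (K + 1)) / 2 := by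
    have h5 : f * (C (1 / 2) * (1 + X)) ^ 2 =
        C (1 / 4) * f + C (1 / 2) * (f * X) + C (1 / 4) * (f * X * X) := by
      have h6 : (C (1 / 2) : ℝ[X]) ^ 2 = C (1 / 4) := by
        rw [← C_pow]
        norm_num
      have h7 : (C (1 / 4) : ℝ[X]) * 2 = C (1 / 2) := by
        have h8 : (2 : ℝ[X]) = C 2 := rfl
        rw [h8, ← C_mul]
        norm_num
      rw [mul_pow, h6, ← h7]
      ring
    obtain ⟨K', rfl⟩ : ∃ K', K = K' + 1 := ⟨K - 1, by omega⟩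
    rw [h5, coeff_add, coeff_add, coeff_C_mul, coeff_C_mul, coeff_C_mul, coeff_mul_X,
      coeff_mul_X, coeff_mul_X]
    have h6 : f.coeff K' = f.coeff (K' + 1 + 1) := by
      have h7 : 2 * (K' + 1) - (K' + 1 - 1) = K' + 1 + 1 := by omega
      rw [h7] at hpal
      exact hpal
    rw [h6]
    ring
  rw [h4] at h2
  have h5 : f.sum (fun j a => a * (2 * (j : ℝ) - ((2 * K : ℕ) : ℝ)) ^ 2) =
      ∑ T ∈ Ts (A0 u w) S, (2 * (jj (C0 u w v z) T u : ℝ) - ((2 * K : ℕ) : ℝ)) ^ 2 := by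
    have h6 : ∀ p : ℝ[X], p.sum (fun j a => a * (2 * (j : ℝ) - ((2 * K : ℕ) : ℝ)) ^ 2) =
        Polynomial.lsum (fun j : ℕ =>
          LinearMap.mulRight ℝ ((2 * (j : ℝ) - ((2 * K : ℕ) : ℝ)) ^ 2)) p := fun p => rfl
    rw [h6, hf]
    unfold fp
    rw [map_sum]
    refine Finset.sum_congr rfl fun T _ => ?_
    rw [← h6, ← monomial_one_right_eq_X_pow,
      sum_monomial_index (n := jj (C0 u w v z) T u) (1 : ℝ)
        (fun (j : ℕ) (a : ℝ) => a * (2 * (j : ℝ) - ((2 * K : ℕ) : ℝ)) ^ 2) (zero_mul _), one_mul]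
  rw [← h5, h3, hev] at hsec
  have h6 : (K : ℝ) * σ ≤ ∑ i, s' i := by
    unfold RB at hρ
    have hcardR : ((C0 u w v z).card : ℝ) = 2 * K + 1 := by
      rw [hK]
      push_cast
      ring
    rw [hcardR] at hsec
    have h7 : 2 * (((Ts (A0 u w) S).card : ℝ) * (2 * ∑ i, s' i + ((0 : ℕ) : ℝ))) ≥
        (2 * K + 1) * (Ts (A0 u w) S).card - ρ * (Ts (A0 u w) S).card := by
      rw [hsec]
      linarith
    have h8 : (4 * K * σ) * ((Ts (A0 u w) S).card : ℝ) ≤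
        (4 * ∑ i, s' i) * ((Ts (A0 u w) S).card : ℝ) := by
      have h9 := mul_le_mul_of_nonneg_right hσ hN.le
      push_cast at h7
      nlinarith
    have h9 := le_of_mul_le_mul_right h8 hN
    linarith
  have hK2 : ((2 * K / 2 : ℕ) : ℝ) = K := by
    rw [show 2 * K / 2 = K by omega]
  have h7 : KL.BN (2 * K / 2) σ 1 * KL.PB s' 0 ≤ KL.PB s' 1 * KL.BN (2 * K / 2) σ 0 :=
    pb_ratio s' hs'.1 hσ0 hσ1 (by rw [hK2]; exact h6)
  have hBN : ∀ n, KL.BN (2 * K / 2) σ n = KL.BN K σ n := fun n => by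
    rw [show 2 * K / 2 = K by omega]
  rw [hBN, hBN] at h7
  have e4 : (0 + 0) / 2 = 0 := by norm_num
  have e5 : (2 + 0) / 2 = 1 := by norm_num
  rw [e4, hev] at h1
  rw [e5, hev] at h2
  have hcj0 : (cj u w v z S K : ℝ) = (Ts (A0 u w) S).card * KL.PB s' 0 := by
    rw [← h1, hc0]
    rfl
  have hcj1 : (cj u w v z S K : ℝ) + cj u w v z S (K + 1) =
      2 * ((Ts (A0 u w) S).card * KL.PB s' 1) := by
    rw [← h2, hc0, hc1]
    unfold cj
    ring
  rw [hcj1, hcj0]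
  calc 2 * KL.BN K σ 1 * ((Ts (A0 u w) S).card * KL.PB s' 0)
      = (2 * (Ts (A0 u w) S).card) * (KL.BN K σ 1 * KL.PB s' 0) := by ring
    _ ≤ (2 * (Ts (A0 u w) S).card) * (KL.PB s' 1 * KL.BN K σ 0) :=
        mul_le_mul_of_nonneg_left h7 (mul_nonneg zero_le_two hN.le)
    _ = _ := by ring

end MP_a3e05c_co.SW
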