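import Pool.Agent.Lib.MP_a3e05c_co.SW.Cyc
import Pool.Agent.Lib.MP_a3e05c_co.KL.Root

/-!
# EULER, near-cliques with 3, 4 or 5 missing edges: from graphs to tournaments
-/

open Finset

namespace MP_a3e05c_co.SW

open KL

variable {V E : Type} [Fintype V] [DecidableEq V] [Fintype E] [DecidableEq E]

/-- The arcs of `Z` are the missing edges. -/
structure Miss (hd : E → Bool → V) (Z : Finset (V × V)) : Prop where
  cov : ∀ x y, x ≠ y → (∃ e b, hd e b = x ∧ hd e (!b) = y) ∨ (x, y) ∈ Z ∨ (y, x) ∈ Z
  ne : ∀ x y, (x, y) ∈ Z → x ≠ y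
  anti : ∀ x y, (x, y) ∈ Z → (y, x) ∉ Z
  out : ∀ x y, (x, y) ∈ Z → ∀ e b, ¬ (hd e b = x ∧ hd e (!b) = y)
  bal : BalZ Z

/-- the tournament of an orientation -/
def tour (hd : E → Bool → V) (Z : Finset (V × V)) (ω : E → Bool) : V → V → Bool := fun x y =>
  decide ((∃ e, hd e (ω e) = y ∧ hd e (!ω e) = x) ∨ (x, y) ∈ Z)

/-- the orientation of a tournament -/
def ori (hd : E → Bool → V) (T : V → V → Bool) : E → Bool := fun e => T (hd e false) (hd e true)

/-- number of the edges with tail `x` -/
def outd (hd : E → Bool → V) (ω : E → Bool) (x : V) : ℕ :=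
  (univ.filter fun e => hd e (!ω e) = x).card

theorem bool_or (a b : Bool) : a = b ∨ a = !b := by cases a <;> cases b <;> simp

theorem in_out {hd : E → Bool → V} (hl : NoLoop hd) (ω : E → Bool) (x : V) :
    indeg hd ω x + outd hd ω x = deg hd x := by
  unfold indeg outd deg
  rw [← Finset.card_union_of_disjoint]
  · congr 1
    ext e
    rw [mem_union, mem_filter, mem_filter, mem_filter]
    constructor
    · rintro (⟨h1, h2⟩ | ⟨h1, h2⟩)
      · exact ⟨h1, _, h2⟩
      · exact ⟨h1, _, h2⟩
    · rintro ⟨h1, b, h2⟩
      rcases bool_or b (ω e) with h3 | h3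
      · exact Or.inl ⟨h1, h3 ▸ h2⟩
      · exact Or.inr ⟨h1, h3 ▸ h2⟩
  · rw [Finset.disjoint_left]
    intro e h1 h2
    rw [mem_filter] at h1 h2
    have h3 := hl e
    cases h4 : ω e
    · rw [h4] at h1 h2
      exact h3 (h2.2.trans h1.2.symm)
    · rw [h4] at h1 h2
      exact h3 (h1.2.trans h2.2.symm)

variable {hd : E → Bool → V} {Z : Finset (V × V)}

/-- two edges with the same ends are equal -/
theorem same_edge (hs : Simple hd) {e e' : E} {b b' : Bool} (h1 : hd e b = hd e' b')
    (h2 : hd e (!b) = hd e' (!b')) : e = e' := by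
  apply hs.2
  show s(hd e true, hd e false) = s(hd e' true, hd e' false)
  cases b <;> cases b'
  · rw [h1, show hd e true = hd e' true from h2]
  · rw [h1, show hd e true = hd e' false from h2]
    exact Sym2.eq_swap
  · rw [h1, show hd e false = hd e' true from h2]
    exact Sym2.eq_swap
  · rw [h1, show hd e false = hd e' false from h2]

theorem same_end (hs : Simple hd) {e e' : E} {b b' : Bool} (h1 : hd e b = hd e' b')
    (h2 : hd e (!b) = hd e' (!b')) : b = b' := by
  have h3 := same_edge hs h1 h2
  subst h3
  have h4 := hs.1 e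
  cases b <;> cases b'
  · rfl
  · exact absurd h1.symm h4
  · exact absurd h1 h4
  · rfl

theorem tour_isT (hs : Simple hd) (hm : Miss hd Z) (ω : E → Bool) : IsT (tour hd Z ω) := by
  refine ⟨fun x => ?_, fun x y hxy => ?_⟩
  · unfold tour
    rw [decide_eq_false_iff_not]
    rintro (⟨e, h1, h2⟩ | h1)
    · have h3 := hs.1 e
      cases h4 : ω e
      · rw [h4] at h1 h2
        exact h3 (h2.trans h1.symm)
      · rw [h4] at h1 h2
        exact h3 (h1.trans h2.symm)
    · exact hm.ne _ _ h1 rfl
  · unfold tour
    by_cases h1 : (∃ e, hd e (ω e) = y ∧ hd e (!ω e) = x) ∨ (x, y) ∈ Z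
    · rw [decide_eq_true h1, Bool.not_true, decide_eq_false_iff_not]
      rintro (⟨e', h2, h3⟩ | h2)
      · rcases h1 with ⟨e, h4, h5⟩ | h4
        · have h6 : hd e (ω e) = hd e' (!ω e') := h4.trans h3.symm
          have h7 : hd e (!ω e) = hd e' (!!ω e') := by
            rw [Bool.not_not]
            exact h5.trans h2.symm
          have h8 := same_edge hs h6 h7
          have h9 := same_end hs h6 h7
          rw [h8] at h9
          cases h10 : ω e' <;> rw [h10] at h9 <;> exact absurd h9 (by decide)
        · exact hm.out _ _ h4 e' (ω e') ⟨h2, h3⟩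
      · rcases h1 with ⟨e, h4, h5⟩ | h4
        · exact hm.out _ _ h2 e (ω e) ⟨h4, h5⟩
        · exact hm.anti _ _ h4 h2
    · rw [decide_eq_false h1, Bool.not_false, decide_eq_true_iff]
      push Not at h1
      rcases hm.cov x y hxy with ⟨e, b, h2, h3⟩ | h2 | h2
      · left
        refine ⟨e, ?_⟩
        rcases bool_or b (ω e) with h4 | h4
        · rw [h4] at h2 h3
          exact ⟨h2, h3⟩
        · exfalso
          rw [h4] at h2
          rw [h4, Bool.not_not] at h3
          exact h1.1 e h3 h2
      · exact absurd h2 h1.2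
      · exact Or.inr h2

theorem tour_od (hs : Simple hd) (hm : Miss hd Z) (ω : E → Bool) (x : V) :
    od (tour hd Z ω) x = outd hd ω x + (univ.filter fun y => (x, y) ∈ Z).card := by
  have h1 : outd hd ω x =
      (univ.filter fun y => ∃ e, hd e (ω e) = y ∧ hd e (!ω e) = x).card := by
    unfold outd
    refine Finset.card_bij (fun e _ => hd e (ω e)) ?_ ?_ ?_
    · intro e he
      rw [mem_filter] at he ⊢
      exact ⟨mem_univ _, e, rfl, he.2⟩
    · intro e he e' he' h2
      rw [mem_filter] at he he'
      exact same_edge hs h2 (he.2.trans he'.2.symm)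
    · intro y hy
      rw [mem_filter] at hy
      obtain ⟨-, e, h2, h3⟩ := hy
      exact ⟨e, mem_filter.2 ⟨mem_univ _, h3⟩, h2⟩
  unfold od
  rw [h1, ← Finset.card_union_of_disjoint]
  · congr 1
    ext y
    rw [mem_union, mem_filter, mem_filter, mem_filter]
    unfold tour
    rw [decide_eq_true_iff]
    exact and_or_left
  · rw [Finset.disjoint_left]
    intro y h2 h3
    rw [mem_filter] at h2 h3
    obtain ⟨-, e, h4, h5⟩ := h2
    refine hm.out _ _ h3.2 e (!ω e) ⟨h5, ?_⟩
    rw [Bool.not_not]
    exact h4

theorem tour_ind (hs : Simple hd) (hm : Miss hd Z) (ω : E → Bool) (x : V) :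
    (univ.filter fun y => tour hd Z ω y x = true).card =
      indeg hd ω x + (univ.filter fun y => (y, x) ∈ Z).card := by
  have h1 : indeg hd ω x =
      (univ.filter fun y => ∃ e, hd e (ω e) = x ∧ hd e (!ω e) = y).card := by
    unfold indeg
    refine Finset.card_bij (fun e _ => hd e (!ω e)) ?_ ?_ ?_
    · intro e he
      rw [mem_filter] at he ⊢
      exact ⟨mem_univ _, e, he.2, rfl⟩
    · intro e he e' he' h2
      rw [mem_filter] at he he'
      exact same_edge hs (he.2.trans he'.2.symm) h2
    · intro y hy
      rw [mem_filter] at hy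
      obtain ⟨-, e, h2, h3⟩ := hy
      exact ⟨e, mem_filter.2 ⟨mem_univ _, h2⟩, h3⟩
  rw [h1, ← Finset.card_union_of_disjoint]
  · congr 1
    ext y
    rw [mem_union, mem_filter, mem_filter, mem_filter]
    unfold tour
    rw [decide_eq_true_iff]
    exact and_or_left
  · rw [Finset.disjoint_left]
    intro y h2 h3
    rw [mem_filter] at h2 h3
    obtain ⟨-, e, h4, h5⟩ := h2
    exact hm.out _ _ h3.2 e (!ω e) ⟨h5, by rw [Bool.not_not]; exact h4⟩

theorem bal_tour (hs : Simple hd) (hm : Miss hd Z) (ω : E → Bool) (x : V) :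
    Bal hd ω x ↔ 2 * od (tour hd Z ω) x + 1 = Fintype.card V := by
  have h1 := in_out hs.1 ω x
  have h2 := tour_od hs hm ω x
  have h3 := tour_ind hs hm ω x
  have h4 := ind_eq (tour_isT hs hm ω) x
  have h5 := hm.bal x
  rw [bal_iff hs.1]
  omega

/-- the tournament of `ori T` is `T` -/
theorem tour_ori (hs : Simple hd) (hm : Miss hd Z) {T : V → V → Bool} (hT : T ∈ Ts univ Z) :
    tour hd Z (ori hd T) = T := by
  have hT' := mem_Ts.1 hT
  funext x y
  by_cases hxy : x = y
  · rw [hxy, hT'.1.1 y]
    exact (tour_isT hs hm _).1 y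
  · have hT2 : T y x = !T x y := hT'.1.2 x y hxy
    have hU2 := (tour_isT hs hm (ori hd T)).2 x y hxy
    rcases hm.cov x y hxy with ⟨e, b, h2, h3⟩ | h2 | h2
    · cases hTxy : T x y
      · have h4 : tour hd Z (ori hd T) y x = true := by
          unfold tour
          rw [decide_eq_true_iff]
          left
          refine ⟨e, ?_⟩
          rw [hTxy] at hT2
          cases b
          · have h5 : ori hd T e = false := by
              unfold ori
              rw [h2, show hd e true = y from h3]
              exact hTxy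
            rw [h5]
            exact ⟨h2, h3⟩
          · have h5 : ori hd T e = true := by
              unfold ori
              rw [h2, show hd e false = y from h3]
              exact hT2
            rw [h5]
            exact ⟨h2, h3⟩
        rw [h4] at hU2
        cases h6 : tour hd Z (ori hd T) x y
        · rfl
        · rw [h6] at hU2
          exact absurd hU2 (by decide)
      · unfold tour
        rw [decide_eq_true_iff]
        left
        refine ⟨e, ?_⟩
        cases b
        · have h5 : ori hd T e = true := by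
            unfold ori
            rw [h2, show hd e true = y from h3]
            exact hTxy
          rw [h5]
          exact ⟨h3, h2⟩
        · rw [hTxy] at hT2
          have h5 : ori hd T e = false := by
            unfold ori
            rw [h2, show hd e false = y from h3]
            exact hT2
          rw [h5]
          exact ⟨h3, h2⟩
    · have h3 : T x y = true := hT'.2.2 _ h2
      rw [h3]
      unfold tour
      rw [decide_eq_true_iff]
      exact Or.inr h2
    · have h3 : T y x = true := hT'.2.2 _ h2
      have h4 : tour hd Z (ori hd T) y x = true := by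
        unfold tour
        rw [decide_eq_true_iff]
        exact Or.inr h2
      rw [h3] at hT2
      rw [h4] at hU2
      cases h5 : T x y
      · cases h6 : tour hd Z (ori hd T) x y
        · rfl
        · rw [h6] at hU2
          exact absurd hU2 (by decide)
      · rw [h5] at hT2
        exact absurd hT2 (by decide)


/-- **The bridge.** -/
theorem card_Om (hs : Simple hd) (hm : Miss hd Z) : (Om hd univ).card = (Ts univ Z).card := by
  refine Finset.card_nbij' (tour hd Z) (ori hd) ?_ ?_ ?_ ?_
  · intro ω hω
    have hω' := mem_Om.1 (Finset.mem_coe.1 hω)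
    refine Finset.mem_coe.2 (mem_Ts.2 ⟨tour_isT hs hm ω,
      fun x _ => (bal_tour hs hm ω x).1 (hω' x (mem_univ x)), fun p hp => ?_⟩)
    unfold tour
    rw [decide_eq_true_iff]
    exact Or.inr hp
  · intro T hT
    refine Finset.mem_coe.2 (mem_Om.2 fun x _ => ?_)
    rw [bal_tour hs hm, tour_ori hs hm (Finset.mem_coe.1 hT)]
    exact (mem_Ts.1 (Finset.mem_coe.1 hT)).2.1 x (mem_univ x)
  · intro ω _
    funext e
    unfold ori tour
    cases h1 : ω e
    · rw [decide_eq_false_iff_not]
      rintro (⟨e', h2, h3⟩ | h2)
      · have h4 : hd e true = hd e' (ω e') := h2.symm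
        have h5 : hd e (!true) = hd e' (!ω e') := h3.symm
        have h6 := same_edge hs h4 h5
        have h7 := same_end hs h4 h5
        rw [← h6, h1] at h7
        exact absurd h7 (by decide)
      · exact hm.out _ _ h2 e false ⟨rfl, rfl⟩
    · rw [decide_eq_true_iff]
      left
      exact ⟨e, by rw [h1], by rw [h1]; rfl⟩
  · intro T hT
    exact tour_ori hs hm (Finset.mem_coe.1 hT)

end MP_a3e05c_co.SW
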