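import Pool.Agent.Lib.MP_a3e05c_co.SW.Core

/-!
# EULER, near-cliques with 3, 4 or 5 missing edges: three missing edges
-/

open Finset

namespace MP_a3e05c_co.SW

variable {V : Type} [Fintype V] [DecidableEq V]

/-- the arcs inside a set -/
theorem inner_arcs {T : V → V → Bool} (hT : IsT T) (O : Finset V) :
    2 * ∑ x ∈ O, ∑ y ∈ O, bt (T x y) + O.card = O.card * O.card := by
  have h1 : ∑ x ∈ O, ∑ y ∈ O, bt (T x y) = ∑ x ∈ O, ∑ y ∈ O, bt (T y x) := Finset.sum_comm
  have h2 : ∀ x ∈ O, ∑ y ∈ O, (bt (T x y) + bt (T y x)) + 1 = O.card := by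
    intro x hx
    rw [← Finset.add_sum_erase O _ hx, hT.1 x]
    have h3 : ∀ y ∈ O.erase x, bt (T x y) + bt (T y x) = 1 := by
      intro y hy
      rw [mem_erase] at hy
      rw [hT.2 x y (Ne.symm hy.1)]
      cases T x y <;> rfl
    rw [Finset.sum_congr rfl h3, Finset.sum_const, smul_eq_mul, mul_one, Finset.card_erase_of_mem hx]
    have h4 : 0 < O.card := Finset.card_pos.2 ⟨x, hx⟩
    simp only [bt, Bool.false_eq_true, if_false]
    omega
  have h3 : ∑ x ∈ O, (∑ y ∈ O, (bt (T x y) + bt (T y x)) + 1) = ∑ _x ∈ O, O.card :=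
    Finset.sum_congr rfl h2
  rw [Finset.sum_add_distrib, Finset.sum_const, Finset.sum_const, smul_eq_mul, smul_eq_mul,
    mul_one] at h3
  have h4 : ∑ x ∈ O, ∑ y ∈ O, (bt (T x y) + bt (T y x)) =
      ∑ x ∈ O, ∑ y ∈ O, bt (T x y) + ∑ x ∈ O, ∑ y ∈ O, bt (T y x) := by
    rw [← Finset.sum_add_distrib]
    exact Finset.sum_congr rfl fun x _ => Finset.sum_add_distrib
  rw [h4, ← h1] at h3
  omega

/-- number of the directed triangles at `u` in a regular tournament -/
theorem triangles {T : V → V → Bool} (hT : IsT T) {d : ℕ} (hd : ∀ x, od T x = d) (u : V) :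
    2 * ∑ v, ∑ z, bt (T u v) * bt (T v z) * bt (T z u) = d * (d + 1) := by
  set O : Finset V := univ.filter fun y => T u y = true with hO
  have hOc : O.card = d := hd u
  have hin := inner_arcs hT O
  rw [hOc] at hin
  have h1 : ∀ v ∈ O, ∑ z, bt (T v z) * bt (T z u) + ∑ z ∈ O, bt (T v z) = d := by
    intro v hv
    have hv' : T u v = true := (mem_filter.1 hv).2
    have huv : u ≠ v := by
      rintro rfl
      rw [hT.1] at hv'
      exact absurd hv' (by decide)
    have hvu : T v u = false := by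
      rw [hT.2 u v huv, hv']
      rfl
    have h2 : ∑ z ∈ O, bt (T v z) = ∑ z, bt (T v z) * bt (T u z) := by
      rw [hO, Finset.sum_filter]
      refine Finset.sum_congr rfl fun z _ => ?_
      cases T u z <;> simp [bt]
    have h3 : od T v = ∑ z, bt (T v z) := by
      unfold od bt
      rw [card_filter]
    rw [h2, ← Finset.sum_add_distrib, ← hd v, h3]
    refine Finset.sum_congr rfl fun z _ => ?_
    by_cases hz : z = u
    · rw [hz, hvu]
      simp [bt]
    · rw [hT.2 u z (Ne.symm hz)]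
      cases T v z <;> cases T u z <;> rfl
  have h2 : ∑ v, ∑ z, bt (T u v) * bt (T v z) * bt (T z u) =
      ∑ v ∈ O, ∑ z, bt (T v z) * bt (T z u) := by
    rw [hO, Finset.sum_filter]
    refine Finset.sum_congr rfl fun v _ => ?_
    cases T u v <;> simp [bt]
  have h3 : ∑ v ∈ O, (∑ z, bt (T v z) * bt (T z u) + ∑ z ∈ O, bt (T v z)) = ∑ _v ∈ O, d :=
    Finset.sum_congr rfl h1
  rw [Finset.sum_add_distrib, Finset.sum_const, smul_eq_mul, hOc, ← h2] at h3
  have h4 : 2 * (∑ v, ∑ z, bt (T u v) * bt (T v z) * bt (T z u)) +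
      (2 * ∑ v ∈ O, ∑ z ∈ O, bt (T v z) + d) = 2 * (d * d) + d := by omega
  rw [hin] at h4
  have h5 : d * (d + 1) = d * d + d := by ring
  omega

/-- the directed triangle -/
def T3 (u v z : V) : Finset (V × V) := {(u, v), (v, z), (z, u)}

/-- all triangles are equivalent -/
theorem T3_eq {u v z v' z' : V} (huv : u ≠ v) (huz : u ≠ z) (hvz : v ≠ z) (huv' : u ≠ v')
    (huz' : u ≠ z') (hvz' : v' ≠ z') :
    (Ts univ (T3 u v z)).card = (Ts univ (T3 u v' z')).card := by
  -- a permutation with `u ↦ u`, `v' ↦ v`, `z' ↦ z`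
  obtain ⟨π, h1, h2, h3⟩ : ∃ π : Equiv.Perm V, π u = u ∧ π v' = v ∧ π z' = z := by
    refine ⟨Equiv.swap (Equiv.swap v' v z') z * Equiv.swap v' v, ?_, ?_, ?_⟩
    · rw [Equiv.Perm.mul_apply, Equiv.swap_apply_of_ne_of_ne huv' huv]
      refine Equiv.swap_apply_of_ne_of_ne ?_ huz
      intro h
      have h4 := congrArg (Equiv.swap v' v) h
      rw [Equiv.swap_apply_self, Equiv.swap_apply_of_ne_of_ne huv' huv] at h4
      exact huz' h4
    · rw [Equiv.Perm.mul_apply, Equiv.swap_apply_left]
      refine Equiv.swap_apply_of_ne_of_ne ?_ hvz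
      intro h
      have h4 := congrArg (Equiv.swap v' v) h
      rw [Equiv.swap_apply_self, Equiv.swap_apply_right] at h4
      exact hvz' h4
    · rw [Equiv.Perm.mul_apply, Equiv.swap_apply_left]
  refine Ts_perm π (fun x => by simp) ?_ ?_
  · intro p hp
    unfold T3 at hp ⊢
    simp only [mem_insert, mem_singleton] at hp
    rcases hp with rfl | rfl | rfl
    · simp [h1, h2]
    · simp [h2, h3]
    · simp [h1, h3]
  · intro p hp
    unfold T3 at hp ⊢
    simp only [mem_insert, mem_singleton] at hp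
    have e1 : π.symm u = u := by rw [Equiv.symm_apply_eq, h1]
    have e2 : π.symm v = v' := by rw [Equiv.symm_apply_eq, h2]
    have e3 : π.symm z = z' := by rw [Equiv.symm_apply_eq, h3]
    rcases hp with rfl | rfl | rfl
    · simp [e1, e2]
    · simp [e2, e3]
    · simp [e1, e3]

/-- **Three missing edges.** -/
theorem three {u v z : V} (huv : u ≠ v) (huz : u ≠ z) (hvz : v ≠ z) :
    8 * (Fintype.card V - 2) * (Ts univ (T3 u v z)).card =
      (Fintype.card V + 1) * (Ts (univ : Finset V) ∅).card := by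
  set n := Fintype.card V with hn
  have hn3 : 3 ≤ n := by
    have h1 : ({u, v, z} : Finset V).card = 3 := by
      rw [Finset.card_insert_of_notMem, Finset.card_insert_of_notMem, Finset.card_singleton]
      · rw [mem_singleton]
        exact hvz
      · rw [mem_insert, mem_singleton, not_or]
        exact ⟨huv, huz⟩
    rw [← h1]
    exact Finset.card_le_univ _
  rcases (Ts (univ : Finset V) ∅).eq_empty_or_nonempty with h0 | hne
  · have h1 : Ts univ (T3 u v z) = ∅ := by
      rw [eq_empty_iff_forall_notMem]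
      intro T hT
      have h2 : T ∈ Ts (univ : Finset V) ∅ := by
        rw [mem_Ts] at hT ⊢
        exact ⟨hT.1, hT.2.1, fun p hp => absurd hp (notMem_empty p)⟩
      rw [h0] at h2
      exact notMem_empty _ h2
    rw [h0, h1, card_empty, mul_zero, mul_zero]
  obtain ⟨d, hd⟩ : ∃ d, n = 2 * d + 1 := by
    obtain ⟨T, hT⟩ := hne
    have h1 := (mem_Ts.1 hT).2.1 u (mem_univ u)
    exact ⟨od T u, by omega⟩
  -- double counting
  have h1 : ∀ T ∈ Ts (univ : Finset V) ∅,
      2 * ∑ v, ∑ z, bt (T u v) * bt (T v z) * bt (T z u) = d * (d + 1) := by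
    intro T hT
    have hT' := mem_Ts.1 hT
    refine triangles hT'.1 (fun x => ?_) u
    have h2 := hT'.2.1 x (mem_univ x)
    omega
  have h2 : ∑ T ∈ Ts (univ : Finset V) ∅, 2 * ∑ v, ∑ z, bt (T u v) * bt (T v z) * bt (T z u) =
      (Ts (univ : Finset V) ∅).card * (d * (d + 1)) := by
    rw [Finset.sum_congr rfl h1, Finset.sum_const, smul_eq_mul]
  have h3 : ∀ v' z', ∑ T ∈ Ts (univ : Finset V) ∅, bt (T u v') * bt (T v' z') * bt (T z' u) =
      if u ≠ v' ∧ u ≠ z' ∧ v' ≠ z' then (Ts univ (T3 u v z)).card else 0 := by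
    intro v' z'
    by_cases hne : u ≠ v' ∧ u ≠ z' ∧ v' ≠ z'
    · rw [if_pos hne, T3_eq huv huz hvz hne.1 hne.2.1 hne.2.2]
      have h4 : Ts univ (T3 u v' z') = (Ts (univ : Finset V) ∅).filter fun T =>
          T u v' = true ∧ T v' z' = true ∧ T z' u = true := by
        ext T
        rw [mem_filter, mem_Ts, mem_Ts]
        unfold T3
        simp only [mem_insert, mem_singleton, forall_eq_or_imp, forall_eq, notMem_empty]
        tauto
      rw [h4, card_filter]
      refine Finset.sum_congr rfl fun T _ => ?_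
      cases T u v' <;> cases T v' z' <;> cases T z' u <;> rfl
    · rw [if_neg hne]
      refine Finset.sum_eq_zero fun T hT => ?_
      have hT' := (mem_Ts.1 hT).1
      by_cases e1 : u = v'
      · rw [← e1, hT'.1 u]
        simp [bt]
      · by_cases e2 : u = z'
        · rw [← e2, hT'.1 u]
          simp [bt]
        · by_cases e3 : v' = z'
          · rw [← e3, hT'.1 v']
            simp [bt]
          · exact absurd ⟨e1, e2, e3⟩ hne
  have h4 : ∑ T ∈ Ts (univ : Finset V) ∅, 2 * ∑ v, ∑ z, bt (T u v) * bt (T v z) * bt (T z u) =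
      2 * ∑ v', ∑ z', if u ≠ v' ∧ u ≠ z' ∧ v' ≠ z' then (Ts univ (T3 u v z)).card else 0 := by
    rw [← Finset.mul_sum]
    congr 1
    rw [Finset.sum_comm]
    refine Finset.sum_congr rfl fun v' _ => ?_
    rw [Finset.sum_comm]
    exact Finset.sum_congr rfl fun z' _ => h3 v' z'
  have h5 : ∑ v', ∑ z', (if u ≠ v' ∧ u ≠ z' ∧ v' ≠ z' then (Ts univ (T3 u v z)).card else 0) =
      (n - 1) * ((n - 2) * (Ts univ (T3 u v z)).card) := by
    have h6 : ∀ v', ∑ z', (if u ≠ v' ∧ u ≠ z' ∧ v' ≠ z' then (Ts univ (T3 u v z)).card else 0) =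
        if u ≠ v' then (n - 2) * (Ts univ (T3 u v z)).card else 0 := by
      intro v'
      by_cases e1 : u ≠ v'
      · rw [if_pos e1]
        have h7 : ∀ z', (if u ≠ v' ∧ u ≠ z' ∧ v' ≠ z' then (Ts univ (T3 u v z)).card else 0) =
            if z' ∈ ((univ.erase u).erase v' : Finset V) then (Ts univ (T3 u v z)).card else 0 := by
          intro z'
          refine if_congr ?_ rfl rfl
          rw [mem_erase, mem_erase]
          constructor
          · rintro ⟨-, h8, h9⟩
            exact ⟨Ne.symm h9, Ne.symm h8, mem_univ _⟩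
          · rintro ⟨h8, h9, -⟩
            exact ⟨e1, Ne.symm h9, Ne.symm h8⟩
        rw [Finset.sum_congr rfl fun z' _ => h7 z', Finset.sum_ite_mem, univ_inter,
          Finset.sum_const, smul_eq_mul, Finset.card_erase_of_mem, Finset.card_erase_of_mem
          (mem_univ u), Finset.card_univ, ← hn]
        · congr 1
        · rw [mem_erase]
          exact ⟨Ne.symm e1, mem_univ _⟩
      · rw [if_neg e1]
        refine Finset.sum_eq_zero fun z' _ => ?_
        rw [if_neg (fun h => e1 h.1)]
    rw [Finset.sum_congr rfl fun v' _ => h6 v']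
    have h7 : ∀ v', (if u ≠ v' then (n - 2) * (Ts univ (T3 u v z)).card else 0) =
        if v' ∈ (univ.erase u : Finset V) then (n - 2) * (Ts univ (T3 u v z)).card else 0 := by
      intro v'
      refine if_congr ?_ rfl rfl
      rw [mem_erase]
      exact ⟨fun h => ⟨Ne.symm h, mem_univ _⟩, fun h => Ne.symm h.1⟩
    rw [Finset.sum_congr rfl fun v' _ => h7 v', Finset.sum_ite_mem, univ_inter, Finset.sum_const,
      smul_eq_mul, Finset.card_erase_of_mem (mem_univ u), Finset.card_univ, ← hn]
  rw [h4, h5] at h2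
  have h6 : n - 1 = 2 * d := by omega
  have h7 : 0 < d := by omega
  rw [h6] at h2
  have h8 : (2 * d) * (8 * (n - 2) * (Ts univ (T3 u v z)).card) =
      (2 * d) * ((n + 1) * (Ts (univ : Finset V) ∅).card) := by
    have h9 : n + 1 = 2 * (d + 1) := by omega
    rw [h9]
    calc (2 * d) * (8 * (n - 2) * (Ts univ (T3 u v z)).card)
        = 4 * (2 * (2 * d * ((n - 2) * (Ts univ (T3 u v z)).card))) := by ring
      _ = 4 * ((Ts (univ : Finset V) ∅).card * (d * (d + 1))) := by rw [h2]
      _ = _ := by ring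
  exact Nat.eq_of_mul_eq_mul_left (by omega) h8

end MP_a3e05c_co.SW
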