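import Pool.Agent.Lib.MP_a3e05c_co.SW.Bridge
import Pool.Agent.Lib.MP_a3e05c_co.SW.Three
import Pool.Agent.Lib.MP_a3e05c_co.NCS.NearClique

/-!
# EULER, near-cliques with 3, 4 or 5 missing edges: the missing edges form a cycle
-/

open Finset

namespace MP_a3e05c_co.SW

open KL NC

variable {V : Type} [Fintype V] [DecidableEq V]

/-- the degree after insertion of an edge -/
theorem fd_ins {S : Finset (Sym2 V)} {a b : V} (hab : a ≠ b) (h : s(a, b) ∉ S) (x : V) :
    fd (insert s(a, b) S) x = fd S x + (if x = a then 1 else 0) + (if x = b then 1 else 0) := by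
  unfold fd
  rw [filter_insert]
  by_cases h1 : x = a
  · subst h1
    rw [if_pos (Sym2.mem_mk_left _ _), card_insert_of_notMem (fun h2 => h (mem_filter.1 h2).1),
      if_pos rfl, if_neg hab]
  · by_cases h2 : x = b
    · subst h2
      rw [if_pos (Sym2.mem_mk_right _ _),
        card_insert_of_notMem (fun h3 => h (mem_filter.1 h3).1), if_neg h1, if_pos rfl]
    · rw [if_neg (by rw [Sym2.mem_iff]; tauto), if_neg h1, if_neg h2, add_zero, add_zero]

theorem fd_empty (x : V) : fd (∅ : Finset (Sym2 V)) x = 0 := by simp [fd]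

/-- the next edge of a path in an even graph -/
theorem next {F : Finset (Sym2 V)} (hF : F ⊆ KE V) {u v : V} (hev : Even (fd F v))
    (h : s(u, v) ∈ F) : ∃ w, w ≠ u ∧ w ≠ v ∧ s(v, w) ∈ F := by
  have h1 : s(u, v) ∈ F.filter fun e => v ∈ e := mem_filter.2 ⟨h, Sym2.mem_mk_right _ _⟩
  have h2 : 1 < (F.filter fun e => v ∈ e).card := by
    have h3 : 0 < (F.filter fun e => v ∈ e).card := card_pos.2 ⟨_, h1⟩
    obtain ⟨k, hk⟩ := hev
    unfold fd at hk
    omega
  obtain ⟨e, he, hne⟩ := exists_mem_ne h2 s(u, v)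
  rw [mem_filter] at he
  obtain ⟨w, rfl⟩ := Sym2.mem_iff_exists.1 he.2
  refine ⟨w, fun h4 => hne ?_, fun h4 => ?_, he.1⟩
  · rw [h4]
    exact Sym2.eq_swap
  · have h5 := mem_KE.1 (hF he.1)
    rw [h4, Sym2.mk_isDiag_iff] at h5
    exact h5 rfl

/-- an even graph which is not empty contains a path with three edges, or a triangle -/
theorem path3 {F : Finset (Sym2 V)} (hF : F ⊆ KE V) (hev : ∀ v, Even (fd F v)) (hne : F ≠ ∅) :
    ∃ a b c d, a ≠ b ∧ c ≠ a ∧ c ≠ b ∧ d ≠ b ∧ d ≠ c ∧ s(a, b) ∈ F ∧ s(b, c) ∈ F ∧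
      s(c, d) ∈ F := by
  obtain ⟨e, he⟩ := nonempty_iff_ne_empty.2 hne
  induction e with
  | h a b =>
    obtain ⟨c, hc1, hc2, hc3⟩ := next hF (hev b) he
    obtain ⟨d, hd1, hd2, hd3⟩ := next hF (hev c) hc3
    refine ⟨a, b, c, d, ?_, hc1, hc2, hd1, hd2, he, hc3, hd3⟩
    intro h
    have h5 := mem_KE.1 (hF he)
    rw [h, Sym2.mk_isDiag_iff] at h5
    exact h5 rfl

theorem card3 {a b c d : V} (h1 : a ≠ b) (h2 : c ≠ a) (h3 : c ≠ b) (h4 : d ≠ b) (h5 : d ≠ c) :
    ({s(a, b), s(b, c), s(c, d)} : Finset (Sym2 V)).card = 3 := by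
  rw [card_insert_of_notMem, card_insert_of_notMem, card_singleton]
  · rw [mem_singleton, Sym2.eq_iff]
    tauto
  · rw [mem_insert, mem_singleton, Sym2.eq_iff, Sym2.eq_iff]
    tauto

theorem even_small {F : Finset (Sym2 V)} (hF : F ⊆ KE V) (hev : ∀ v, Even (fd F v))
    (hc : F.card ≤ 2) : F = ∅ := by
  by_contra hne
  obtain ⟨a, b, c, d, h1, h2, h3, h4, h5, e1, e2, e3⟩ := path3 hF hev hne
  have h6 : ({s(a, b), s(b, c), s(c, d)} : Finset (Sym2 V)) ⊆ F := by
    intro e he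
    simp only [mem_insert, mem_singleton] at he
    rcases he with rfl | rfl | rfl <;> assumption
  have h7 := card_le_card h6
  rw [card3 h1 h2 h3 h4 h5] at h7
  omega

theorem even_sdiff {F C : Finset (Sym2 V)} (hC : C ⊆ F) (hF : ∀ v, Even (fd F v))
    (hC' : ∀ v, Even (fd C v)) (v : V) : Even (fd (F \ C) v) := by
  have h : fd (F \ C) v + fd C v = fd F v := by
    unfold fd
    rw [← card_union_of_disjoint]
    · congr 1
      ext e
      simp only [mem_union, mem_filter, mem_sdiff]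
      constructor
      · rintro (h | h)
        · exact ⟨h.1.1, h.2⟩
        · exact ⟨hC h.1, h.2⟩
      · intro h
        by_cases h1 : e ∈ C
        · exact Or.inr ⟨h1, h.2⟩
        · exact Or.inl ⟨⟨h.1, h1⟩, h.2⟩
    · rw [disjoint_left]
      intro e h1 h2
      rw [mem_filter, mem_sdiff] at h1
      rw [mem_filter] at h2
      exact h1.1.2 h2.1
  have h1 := hF v
  rw [← h, Nat.even_add] at h1
  exact h1.2 (hC' v)

/-- no even subset leaves one or two edges -/
theorem no_rest {F C : Finset (Sym2 V)} (hF : F ⊆ KE V) (hev : ∀ v, Even (fd F v)) (hC : C ⊆ F)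
    (hC' : ∀ v, Even (fd C v)) (h1 : C.card < F.card) (h2 : F.card ≤ C.card + 2) : False := by
  have h3 := card_sdiff_add_card_eq_card hC
  have h4 := even_small (sdiff_subset.trans hF) (even_sdiff hC hev hC') (by omega)
  rw [h4, card_empty] at h3
  omega

theorem even_tri {a b c : V} (h1 : a ≠ b) (h2 : c ≠ a) (h3 : c ≠ b) (v : V) :
    Even (fd ({s(a, b), s(b, c), s(c, a)} : Finset (Sym2 V)) v) := by
  have h4 : ({s(a, b), s(b, c), s(c, a)} : Finset (Sym2 V)) =
      insert s(a, b) (insert s(b, c) (insert s(c, a) ∅)) := by simp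
  rw [h4, fd_ins h1, fd_ins (Ne.symm h3), fd_ins h2, fd_empty]
  · by_cases e1 : v = a <;> by_cases e2 : v = b <;> by_cases e3 : v = c <;> simp_all
  · simp
  · rw [insert_empty_eq, mem_singleton, Sym2.eq_iff]
    tauto
  · rw [insert_empty_eq, mem_insert, mem_singleton, Sym2.eq_iff, Sym2.eq_iff]
    tauto

theorem even_quad {a b c d : V} (h1 : a ≠ b) (h2 : c ≠ a) (h3 : c ≠ b) (h4 : d ≠ b) (h5 : d ≠ c)
    (h6 : d ≠ a) (v : V) :
    Even (fd ({s(a, b), s(b, c), s(c, d), s(d, a)} : Finset (Sym2 V)) v) := by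
  have h7 : ({s(a, b), s(b, c), s(c, d), s(d, a)} : Finset (Sym2 V)) =
      insert s(a, b) (insert s(b, c) (insert s(c, d) (insert s(d, a) ∅))) := by simp
  rw [h7, fd_ins h1, fd_ins (Ne.symm h3), fd_ins (Ne.symm h5), fd_ins h6, fd_empty]
  · by_cases e1 : v = a <;> by_cases e2 : v = b <;> by_cases e3 : v = c <;>
      by_cases e4 : v = d <;> simp_all
  · simp
  · rw [insert_empty_eq, mem_singleton, Sym2.eq_iff]
    tauto
  · rw [insert_empty_eq, mem_insert, mem_singleton, Sym2.eq_iff, Sym2.eq_iff]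
    tauto
  · rw [insert_empty_eq, mem_insert, mem_insert, mem_singleton, Sym2.eq_iff, Sym2.eq_iff,
      Sym2.eq_iff]
    tauto

theorem rot4 {α : Type} [DecidableEq α] (x a b c : α) :
    ({x, a, b, c} : Finset α) = {a, b, c, x} := by
  ext e
  simp only [mem_insert, mem_singleton]
  tauto

theorem rot5 {α : Type} [DecidableEq α] (y x a b c : α) :
    ({y, x, a, b, c} : Finset α) = {a, b, c, x, y} := by
  ext e
  simp only [mem_insert, mem_singleton]
  tauto

theorem card4 {a b c d x : V} (h1 : a ≠ b) (h2 : c ≠ a) (h3 : c ≠ b) (h4 : d ≠ b) (h5 : d ≠ c)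
    (h6 : d ≠ a) (h7 : x ≠ c) :
    ({s(d, x), s(a, b), s(b, c), s(c, d)} : Finset (Sym2 V)).card = 4 := by
  rw [card_insert_of_notMem, card3 h1 h2 h3 h4 h5]
  simp only [mem_insert, mem_singleton, Sym2.eq_iff]
  rintro ((h | h) | (h | h) | (h | h))
  · exact h6 h.1
  · exact h4 h.1
  · exact h4 h.1
  · exact h5 h.1
  · exact h5 h.1
  · exact h7 h.2

theorem card5 {a b c d x y : V} (h1 : a ≠ b) (h2 : c ≠ a) (h3 : c ≠ b) (h4 : d ≠ b) (h5 : d ≠ c)
    (h6 : d ≠ a) (h7 : x ≠ c) (h8 : x ≠ a) (h9 : x ≠ b) (h10 : x ≠ d) (h11 : y ≠ d) :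
    ({s(x, y), s(d, x), s(a, b), s(b, c), s(c, d)} : Finset (Sym2 V)).card = 5 := by
  rw [card_insert_of_notMem, card4 h1 h2 h3 h4 h5 h6 h7]
  simp only [mem_insert, mem_singleton, Sym2.eq_iff]
  rintro ((h | h) | (h | h) | (h | h) | (h | h))
  · exact h10 h.1
  · exact h11 h.2
  · exact h8 h.1
  · exact h9 h.1
  · exact h9 h.1
  · exact h7 h.1
  · exact h7 h.1
  · exact h10 h.1

/-- three missing edges -/
theorem class3 {F : Finset (Sym2 V)} (hF : F ⊆ KE V) (hev : ∀ v, Even (fd F v))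
    (hc : F.card = 3) : ∃ a b c, a ≠ b ∧ a ≠ c ∧ b ≠ c ∧
      F = {s(a, b), s(b, c), s(c, a)} := by
  have hne : F ≠ ∅ := by
    rintro rfl
    simp at hc
  obtain ⟨a, b, c, d, h1, h2, h3, h4, h5, e1, e2, e3⟩ := path3 hF hev hne
  have h6 : ({s(a, b), s(b, c), s(c, d)} : Finset (Sym2 V)) ⊆ F := by
    intro e he
    simp only [mem_insert, mem_singleton] at he
    rcases he with rfl | rfl | rfl <;> assumption
  have h7 := eq_of_subset_of_card_le h6 (by rw [card3 h1 h2 h3 h4 h5, hc])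
  have h8 : s(b, a) ∈ F := by
    rw [Sym2.eq_swap]
    exact e1
  obtain ⟨x, hx1, hx2, hx3⟩ := next hF (hev a) h8
  rw [← h7] at hx3
  simp only [mem_insert, mem_singleton, Sym2.eq_iff] at hx3
  have h9 : d = a := by
    rcases hx3 with (h | h) | (h | h) | (h | h)
    · exact absurd h.2 hx1
    · exact absurd h.1 h1
    · exact absurd h.1 h1
    · exact absurd h.1.symm h2
    · exact absurd h.1.symm h2
    · exact h.1.symm
  refine ⟨a, b, c, h1, Ne.symm h2, Ne.symm h3, ?_⟩
  rw [← h7, h9]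

/-- four missing edges -/
theorem class4 {F : Finset (Sym2 V)} (hF : F ⊆ KE V) (hev : ∀ v, Even (fd F v))
    (hc : F.card = 4) : ∃ a b c d, a ≠ b ∧ a ≠ c ∧ a ≠ d ∧ b ≠ c ∧ b ≠ d ∧ c ≠ d ∧
      F = {s(a, b), s(b, c), s(c, d), s(d, a)} := by
  have hne : F ≠ ∅ := by
    rintro rfl
    simp at hc
  obtain ⟨a, b, c, d, h1, h2, h3, h4, h5, e1, e2, e3⟩ := path3 hF hev hne
  have h6 : ({s(a, b), s(b, c), s(c, d)} : Finset (Sym2 V)) ⊆ F := by
    intro e he
    simp only [mem_insert, mem_singleton] at he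
    rcases he with rfl | rfl | rfl <;> assumption
  by_cases hda : d = a
  · exfalso
    subst hda
    exact no_rest hF hev h6 (even_tri h1 h2 h3) (by rw [card3 h1 h2 h3 h4 h5]; omega)
      (by rw [card3 h1 h2 h3 h4 h5]; omega)
  obtain ⟨x, hx1, hx2, e4⟩ := next hF (hev d) e3
  have h7 : ({s(d, x), s(a, b), s(b, c), s(c, d)} : Finset (Sym2 V)) ⊆ F := by
    intro e he
    rw [mem_insert] at he
    rcases he with rfl | he
    · exact e4
    · exact h6 he
  have h8 : ({s(d, x), s(a, b), s(b, c), s(c, d)} : Finset (Sym2 V)).card = 4 :=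
    card4 h1 h2 h3 h4 h5 hda hx1
  have h9 := eq_of_subset_of_card_le h7 (by rw [h8, hc])
  have h10 : s(b, a) ∈ F := by
    rw [Sym2.eq_swap]
    exact e1
  obtain ⟨y, hy1, hy2, hy3⟩ := next hF (hev a) h10
  rw [← h9] at hy3
  simp only [mem_insert, mem_singleton, Sym2.eq_iff] at hy3
  have h11 : x = a := by
    rcases hy3 with (h | h) | (h | h) | (h | h) | (h | h)
    · exact absurd h.1.symm hda
    · exact h.1.symm
    · exact absurd h.2 hy1
    · exact absurd h.1 h1
    · exact absurd h.1 h1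
    · exact absurd h.1.symm h2
    · exact absurd h.1.symm h2
    · exact absurd h.1.symm hda
  refine ⟨a, b, c, d, h1, Ne.symm h2, Ne.symm hda, Ne.symm h3, Ne.symm h4, Ne.symm h5, ?_⟩
  rw [← h9, h11, rot4]

/-- five missing edges -/
theorem class5 {F : Finset (Sym2 V)} (hF : F ⊆ KE V) (hev : ∀ v, Even (fd F v))
    (hc : F.card = 5) : ∃ a b c d e, a ≠ b ∧ a ≠ c ∧ a ≠ d ∧ a ≠ e ∧ b ≠ c ∧ b ≠ d ∧ b ≠ e ∧
      c ≠ d ∧ c ≠ e ∧ d ≠ e ∧ F = {s(a, b), s(b, c), s(c, d), s(d, e), s(e, a)} := by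
  have hne : F ≠ ∅ := by
    rintro rfl
    simp at hc
  obtain ⟨a, b, c, d, h1, h2, h3, h4, h5, e1, e2, e3⟩ := path3 hF hev hne
  have h6 : ({s(a, b), s(b, c), s(c, d)} : Finset (Sym2 V)) ⊆ F := by
    intro e he
    simp only [mem_insert, mem_singleton] at he
    rcases he with rfl | rfl | rfl <;> assumption
  by_cases hda : d = a
  · exfalso
    subst hda
    exact no_rest hF hev h6 (even_tri h1 h2 h3) (by rw [card3 h1 h2 h3 h4 h5]; omega)
      (by rw [card3 h1 h2 h3 h4 h5]; omega)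
  obtain ⟨x, hx1, hx2, e4⟩ := next hF (hev d) e3
  by_cases hxb : x = b
  · exfalso
    subst hxb
    have h6' : ({s(x, c), s(c, d), s(d, x)} : Finset (Sym2 V)) ⊆ F := by
      intro e he
      simp only [mem_insert, mem_singleton] at he
      rcases he with rfl | rfl | rfl <;> assumption
    have h7 := card3 (Ne.symm h3) h4 h5 (Ne.symm h3) hx2
    exact no_rest hF hev h6' (even_tri (Ne.symm h3) h4 h5) (by rw [h7]; omega) (by rw [h7]; omega)
  have h7 : ({s(d, x), s(a, b), s(b, c), s(c, d)} : Finset (Sym2 V)) ⊆ F := by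
    intro e he
    rw [mem_insert] at he
    rcases he with rfl | he
    · exact e4
    · exact h6 he
  have h8 : ({s(d, x), s(a, b), s(b, c), s(c, d)} : Finset (Sym2 V)).card = 4 :=
    card4 h1 h2 h3 h4 h5 hda hx1
  by_cases hxa : x = a
  · exfalso
    subst hxa
    rw [rot4] at h7 h8
    exact no_rest hF hev h7 (even_quad h1 h2 h3 h4 h5 hda) (by rw [h8]; omega) (by rw [h8]; omega)
  obtain ⟨y, hy1, hy2, e5⟩ := next hF (hev x) e4
  have h9 : ({s(x, y), s(d, x), s(a, b), s(b, c), s(c, d)} : Finset (Sym2 V)) ⊆ F := by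
    intro e he
    rw [mem_insert] at he
    rcases he with rfl | he
    · exact e5
    · exact h7 he
  have h10 : ({s(x, y), s(d, x), s(a, b), s(b, c), s(c, d)} : Finset (Sym2 V)).card = 5 :=
    card5 h1 h2 h3 h4 h5 hda hx1 hxa hxb hx2 hy1
  have h11 := eq_of_subset_of_card_le h9 (by rw [h10, hc])
  have h12 : s(b, a) ∈ F := by
    rw [Sym2.eq_swap]
    exact e1
  obtain ⟨t, ht1, ht2, ht3⟩ := next hF (hev a) h12
  rw [← h11] at ht3
  simp only [mem_insert, mem_singleton, Sym2.eq_iff] at ht3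
  have h13 : y = a := by
    rcases ht3 with (h | h) | (h | h) | (h | h) | (h | h) | (h | h)
    · exact absurd h.1.symm hxa
    · exact h.1.symm
    · exact absurd h.1.symm hda
    · exact absurd h.1.symm hxa
    · exact absurd h.2 ht1
    · exact absurd h.1 h1
    · exact absurd h.1 h1
    · exact absurd h.1.symm h2
    · exact absurd h.1.symm h2
    · exact absurd h.1.symm hda
  refine ⟨a, b, c, d, x, h1, Ne.symm h2, Ne.symm hda, Ne.symm hxa, Ne.symm h3, Ne.symm h4,
    Ne.symm hxb, Ne.symm h5, Ne.symm hx1, Ne.symm hx2, ?_⟩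
  rw [← h11, h13, rot5]

/-! ### balanced sets of arcs -/

theorem oz_ins {Z : Finset (V × V)} {a b : V} (h : (a, b) ∉ Z) (x : V) :
    (univ.filter fun y => (x, y) ∈ insert (a, b) Z).card =
      (univ.filter fun y => (x, y) ∈ Z).card + if x = a then 1 else 0 := by
  by_cases hx : x = a
  · subst hx
    rw [if_pos rfl, show (univ.filter fun y => (x, y) ∈ insert (x, b) Z) =
      insert b (univ.filter fun y => (x, y) ∈ Z) from ?_, card_insert_of_notMem]
    · rw [mem_filter]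
      exact fun h1 => h h1.2
    · ext y
      simp only [mem_filter, mem_insert, mem_univ, true_and, Prod.mk.injEq]
  · rw [if_neg hx, add_zero]
    congr 1
    ext y
    simp only [mem_filter, mem_insert, mem_univ, true_and, Prod.mk.injEq]
    tauto

theorem iz_ins {Z : Finset (V × V)} {a b : V} (h : (a, b) ∉ Z) (x : V) :
    (univ.filter fun y => (y, x) ∈ insert (a, b) Z).card =
      (univ.filter fun y => (y, x) ∈ Z).card + if x = b then 1 else 0 := by
  by_cases hx : x = b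
  · subst hx
    rw [if_pos rfl, show (univ.filter fun y => (y, x) ∈ insert (a, x) Z) =
      insert a (univ.filter fun y => (y, x) ∈ Z) from ?_, card_insert_of_notMem]
    · rw [mem_filter]
      exact fun h1 => h h1.2
    · ext y
      simp only [mem_filter, mem_insert, mem_univ, true_and, Prod.mk.injEq, and_true]
  · rw [if_neg hx, add_zero]
    congr 1
    ext y
    simp only [mem_filter, mem_insert, mem_univ, true_and, Prod.mk.injEq]
    tauto

theorem bal3 {u v z : V} (h1 : u ≠ v) (h2 : u ≠ z) (h3 : v ≠ z) :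
    BalZ (Z1 u v z {(v, z)}) := by
  intro x
  unfold Z1
  rw [← insert_empty_eq (v, z), oz_ins, oz_ins, oz_ins, iz_ins, iz_ins, iz_ins]
  · simp only [notMem_empty, filter_false, card_empty]
    omega
  all_goals
    simp only [mem_insert, notMem_empty, Prod.mk.injEq, or_false, not_or, not_and]
    tauto

theorem bal4 {u w v z : V} (h1 : u ≠ w) (h2 : u ≠ v) (h3 : u ≠ z) (h4 : w ≠ v) (h5 : w ≠ z)
    (h6 : v ≠ z) : BalZ (Z2 u w v z {(v, z)}) := by
  intro x
  unfold Z2
  rw [← insert_empty_eq (v, z), oz_ins, oz_ins, oz_ins, oz_ins, iz_ins, iz_ins, iz_ins, iz_ins]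
  · simp only [notMem_empty, filter_false, card_empty]
    omega
  all_goals
    simp only [mem_insert, notMem_empty, Prod.mk.injEq, or_false, not_or, not_and]
    tauto

theorem wcfg4 {u w v z : V} (h1 : u ≠ w) (h2 : u ≠ v) (h3 : u ≠ z) (h4 : w ≠ v) (h5 : w ≠ z)
    (h6 : v ≠ z) : WCfg u w v z {(v, z)} where
  uw := h1
  uv := h2
  uz := h3
  wv := h4
  wz := h5
  vz := h6
  out := by
    intro p hp
    rw [mem_singleton] at hp
    subst hp
    exact ⟨Ne.symm h2, Ne.symm h4, Ne.symm h3, Ne.symm h5⟩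
  bal1 := bal3 h2 h3 h6
  bal2 := bal4 h1 h2 h3 h4 h5 h6

theorem Z1_eq_Z2 (u v c z : V) : Z1 u v z {(v, c), (c, z)} = Z2 u v c z {(c, z)} := by
  unfold Z1 Z2
  ext p
  simp only [mem_insert, mem_singleton]
  tauto

theorem Z1_eq_T3 (u v z : V) : Z1 u v z {(v, z)} = T3 u v z := by
  unfold Z1 T3
  ext p
  simp only [mem_insert, mem_singleton]
  tauto

theorem bal5 {u w v c z : V} (h1 : u ≠ w) (h2 : u ≠ v) (h3 : u ≠ z) (h4 : w ≠ v) (h5 : w ≠ z)
    (h6 : v ≠ z) (h7 : c ≠ u) (h8 : c ≠ w) (h9 : c ≠ v) (h10 : c ≠ z) :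
    BalZ (Z2 u w v z {(v, c), (c, z)}) := by
  intro x
  unfold Z2
  rw [← insert_empty_eq (c, z), oz_ins, oz_ins, oz_ins, oz_ins, oz_ins, iz_ins, iz_ins, iz_ins,
    iz_ins, iz_ins]
  · simp only [notMem_empty, filter_false, card_empty]
    omega
  all_goals
    simp only [mem_insert, notMem_empty, Prod.mk.injEq, or_false, not_or, not_and]
    tauto

theorem wcfg5 {u w v c z : V} (h1 : u ≠ w) (h2 : u ≠ v) (h3 : u ≠ z) (h4 : w ≠ v) (h5 : w ≠ z)
    (h6 : v ≠ z) (h7 : c ≠ u) (h8 : c ≠ w) (h9 : c ≠ v) (h10 : c ≠ z) :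
    WCfg u w v z {(v, c), (c, z)} where
  uw := h1
  uv := h2
  uz := h3
  wv := h4
  wz := h5
  vz := h6
  out := by
    intro p hp
    rw [mem_insert, mem_singleton] at hp
    rcases hp with rfl | rfl
    · exact ⟨Ne.symm h2, Ne.symm h4, h7, h8⟩
    · exact ⟨h7, h8, Ne.symm h3, Ne.symm h5⟩
  bal1 := by
    rw [Z1_eq_Z2]
    exact bal4 h2 (Ne.symm h7) h3 (Ne.symm h9) h6 h10
  bal2 := bal5 h1 h2 h3 h4 h5 h6 h7 h8 h9 h10

/-! ### from the missing edges to `Miss` -/

variable {E : Type} [Fintype E] [DecidableEq E]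

theorem miss_of {hd : E → Bool → V} {Z : Finset (V × V)}
    (hZ : KE V \ es hd = Z.image fun p => s(p.1, p.2)) (ne : ∀ x y, (x, y) ∈ Z → x ≠ y)
    (anti : ∀ x y, (x, y) ∈ Z → (y, x) ∉ Z) (bal : BalZ Z) : Miss hd Z where
  cov := by
    intro x y hxy
    by_cases h1 : s(x, y) ∈ es hd
    · left
      unfold es at h1
      rw [mem_image] at h1
      obtain ⟨e, -, he⟩ := h1
      rw [Sym2.eq_iff] at he
      rcases he with he | he
      · exact ⟨e, true, he.1, he.2⟩
      · exact ⟨e, false, he.2, he.1⟩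
    · right
      have h2 : s(x, y) ∈ KE V \ es hd := by
        rw [mem_sdiff, mem_KE, Sym2.mk_isDiag_iff]
        exact ⟨hxy, h1⟩
      rw [hZ, mem_image] at h2
      obtain ⟨p, hp, h3⟩ := h2
      rw [Sym2.eq_iff] at h3
      rcases h3 with h3 | h3
      · left
        rw [← h3.1, ← h3.2]
        exact hp
      · right
        rw [← h3.1, ← h3.2]
        exact hp
  ne := ne
  anti := anti
  out := by
    intro x y hxy e b hb
    have h1 : s(x, y) ∈ KE V \ es hd := by
      rw [hZ, mem_image]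
      exact ⟨(x, y), hxy, rfl⟩
    rw [mem_sdiff] at h1
    apply h1.2
    unfold es
    rw [mem_image]
    refine ⟨e, mem_univ _, ?_⟩
    rw [← hb.1, ← hb.2]
    cases b
    · exact Sym2.eq_swap
    · rfl
  bal := bal

theorem bal_empty : BalZ (∅ : Finset (V × V)) := fun x => by simp

end MP_a3e05c_co.SW
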