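import Pool.Agent.Lib.MP_a3e05c_co.SW.Defs

/-!
# EULER, near-cliques with 3, 4 or 5 missing edges: moves on tournaments
-/

open Finset

namespace MP_a3e05c_co.SW

variable {V : Type} [Fintype V] [DecidableEq V]

/-- splitting according to the arc between `x` and `y` -/
theorem Ts_split (A : Finset V) (S : Finset (V × V)) {x y : V} (hxy : x ≠ y) :
    (Ts A S).card = (Ts A (insert (x, y) S)).card + (Ts A (insert (y, x) S)).card := by
  rw [← Finset.card_filter_add_card_filter_not (s := Ts A S) (fun T => T x y = true)]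
  congr 1
  · congr 1
    ext T
    rw [mem_filter, mem_Ts, mem_Ts]
    constructor
    · rintro ⟨⟨h1, h2, h3⟩, h4⟩
      refine ⟨h1, h2, fun p hp => ?_⟩
      rcases mem_insert.1 hp with rfl | hp
      · exact h4
      · exact h3 p hp
    · rintro ⟨h1, h2, h3⟩
      exact ⟨⟨h1, h2, fun p hp => h3 p (mem_insert_of_mem hp)⟩, h3 _ (mem_insert_self _ _)⟩
  · congr 1
    ext T
    rw [mem_filter, mem_Ts, mem_Ts]
    constructor
    · rintro ⟨⟨h1, h2, h3⟩, h4⟩
      refine ⟨h1, h2, fun p hp => ?_⟩
      rcases mem_insert.1 hp with rfl | hp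
      · show T y x = true
        rw [h1.2 x y hxy]
        cases h5 : T x y
        · rfl
        · exact absurd h5 h4
      · exact h3 p hp
    · rintro ⟨h1, h2, h3⟩
      refine ⟨⟨h1, h2, fun p hp => h3 p (mem_insert_of_mem hp)⟩, fun h4 => ?_⟩
      have h5 : T y x = true := h3 _ (mem_insert_self _ _)
      rw [h1.2 x y hxy, h4] at h5
      exact absurd h5 (by decide)

/-- relabelling -/
theorem Ts_perm_mem (π : Equiv.Perm V) {A A' : Finset V} {S S' : Finset (V × V)}
    (hA : ∀ x ∈ A', π x ∈ A) (hS : ∀ p ∈ S', (π p.1, π p.2) ∈ S) {T : V → V → Bool}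
    (hT : T ∈ Ts A S) : (fun x y => T (π x) (π y)) ∈ Ts A' S' := by
  obtain ⟨h1, h2, h3⟩ := mem_Ts.1 hT
  refine mem_Ts.2 ⟨⟨fun x => h1.1 _, fun x y hxy => ?_⟩, fun x hx => ?_,
    fun p hp => h3 _ (hS p hp)⟩
  · exact h1.2 _ _ fun h => hxy (π.injective h)
  · rw [← h2 _ (hA x hx)]
    congr 2
    unfold od
    refine Finset.card_bij (fun y _ => π y) ?_ ?_ ?_
    · intro y hy
      rw [mem_filter] at hy ⊢
      exact ⟨mem_univ _, hy.2⟩
    · intro y _ y' _ h
      exact π.injective h
    · intro y hy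
      rw [mem_filter] at hy
      refine ⟨π.symm y, ?_, π.apply_symm_apply y⟩
      rw [mem_filter]
      refine ⟨mem_univ _, ?_⟩
      dsimp only
      rw [π.apply_symm_apply]
      exact hy.2

theorem Ts_perm_le (π : Equiv.Perm V) {A A' : Finset V} {S S' : Finset (V × V)}
    (hA : ∀ x ∈ A', π x ∈ A) (hS : ∀ p ∈ S', (π p.1, π p.2) ∈ S) :
    (Ts A S).card ≤ (Ts A' S').card := by
  refine Finset.card_le_card_of_injOn (fun T x y => T (π x) (π y)) ?_ ?_
  · intro T hT
    exact Finset.mem_coe.2 (Ts_perm_mem π hA hS (Finset.mem_coe.1 hT))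
  · intro T _ T' _ h
    funext x y
    have h1 := congrFun (congrFun h (π.symm x)) (π.symm y)
    simpa using h1

theorem Ts_perm (π : Equiv.Perm V) {A A' : Finset V} {S S' : Finset (V × V)}
    (hA : ∀ x, x ∈ A' ↔ π x ∈ A) (hS : ∀ p ∈ S', (π p.1, π p.2) ∈ S)
    (hS' : ∀ p ∈ S, (π.symm p.1, π.symm p.2) ∈ S') :
    (Ts A S).card = (Ts A' S').card := by
  refine le_antisymm (Ts_perm_le π (fun x hx => (hA x).1 hx) hS) (Ts_perm_le π.symm ?_ hS')
  intro x hx
  rw [hA, π.apply_symm_apply]
  exact hx

/-- the in-degree -/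
theorem ind_eq {T : V → V → Bool} (hT : IsT T) (x : V) :
    (univ.filter fun y => T y x = true).card + od T x + 1 = Fintype.card V := by
  have h1 : (univ.filter fun y => T y x = true).card + (univ.filter fun y => T x y = true).card =
      ((univ : Finset V).erase x).card := by
    rw [← Finset.card_union_of_disjoint]
    · congr 1
      ext y
      rw [mem_union, mem_filter, mem_filter, mem_erase]
      constructor
      · rintro (⟨-, h⟩ | ⟨-, h⟩)
        · refine ⟨?_, mem_univ _⟩
          rintro rfl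
          rw [hT.1] at h
          exact absurd h (by decide)
        · refine ⟨?_, mem_univ _⟩
          rintro rfl
          rw [hT.1] at h
          exact absurd h (by decide)
      · rintro ⟨h, -⟩
        have h2 := hT.2 x y (Ne.symm h)
        cases h3 : T x y
        · left
          rw [h2, h3]
          exact ⟨mem_univ _, rfl⟩
        · right
          exact ⟨mem_univ _, rfl⟩
    · rw [Finset.disjoint_left]
      intro y h h'
      rw [mem_filter] at h h'
      have h0 : x ≠ y := by
        rintro rfl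
        rw [hT.1] at h
        exact absurd h.2 (by decide)
      have h2 := hT.2 x y h0
      rw [h.2, h'.2] at h2
      exact absurd h2 (by decide)
  rw [Finset.card_erase_of_mem (mem_univ x), Finset.card_univ] at h1
  have h2 : 0 < Fintype.card V := Fintype.card_pos_iff.2 ⟨x⟩
  unfold od
  omega

/-- reversal of all arcs outside the balanced set `Z` -/
theorem Ts_reverse {Z S S' : Finset (V × V)}
    (hZ : ∀ x, (univ.filter fun y => (x, y) ∈ Z).card = (univ.filter fun y => (y, x) ∈ Z).card)
    (hS : ∀ p ∈ S', (p.2, p.1) ∈ S ∧ (p.1, p.2) ∉ Z ∧ (p.2, p.1) ∉ Z) :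
    (Ts univ (Z ∪ S)).card ≤ (Ts univ (Z ∪ S')).card := by
  refine Finset.card_le_card_of_injOn
    (fun T x y => if (x, y) ∈ Z ∨ (y, x) ∈ Z then T x y else T y x) ?_ ?_
  · intro T hT
    have hT' := mem_Ts.1 (Finset.mem_coe.1 hT)
    obtain ⟨h1, h2, h3⟩ := hT'
    have hZ1 : ∀ x y, (x, y) ∈ Z → T x y = true := fun x y h => h3 (x, y) (mem_union_left _ h)
    have hZ2 : ∀ x y, (x, y) ∈ Z → T y x = false := by
      intro x y h
      have h4 : x ≠ y := by
        rintro rfl
        have h5 := hZ1 x x h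
        rw [h1.1] at h5
        exact absurd h5 (by decide)
      rw [h1.2 x y h4, hZ1 x y h]
      rfl
    refine Finset.mem_coe.2 (mem_Ts.2 ⟨⟨fun x => ?_, fun x y hxy => ?_⟩, fun x _ => ?_,
      fun p hp => ?_⟩)
    · dsimp only
      split_ifs
      · exact h1.1 x
      · exact h1.1 x
    · dsimp only
      by_cases h4 : (x, y) ∈ Z ∨ (y, x) ∈ Z
      · rw [if_pos h4, if_pos h4.symm]
        exact h1.2 x y hxy
      · rw [if_neg h4, if_neg (fun h5 => h4 h5.symm)]
        exact h1.2 y x (Ne.symm hxy)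
    · have h4 := h2 x (mem_univ x)
      have h5 := ind_eq h1 x
      have h6 : (univ.filter fun y => T y x = true).card =
          (univ.filter fun y => (y, x) ∈ Z).card +
            (univ.filter fun y => ¬ ((x, y) ∈ Z ∨ (y, x) ∈ Z) ∧ T y x = true).card := by
        rw [← Finset.card_union_of_disjoint]
        · congr 1
          ext y
          rw [mem_union, mem_filter, mem_filter, mem_filter]
          constructor
          · rintro ⟨-, h7⟩
            by_cases h8 : (y, x) ∈ Z
            · exact Or.inl ⟨mem_univ _, h8⟩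
            · refine Or.inr ⟨mem_univ _, ?_, h7⟩
              rintro (h9 | h9)
              · rw [hZ2 x y h9] at h7
                exact absurd h7 (by decide)
              · exact h8 h9
          · rintro (⟨-, h7⟩ | ⟨-, -, h7⟩)
            · exact ⟨mem_univ _, hZ1 _ _ h7⟩
            · exact ⟨mem_univ _, h7⟩
        · rw [Finset.disjoint_left]
          intro y h7 h8
          rw [mem_filter] at h7 h8
          exact h8.2.1 (Or.inr h7.2)
      have h7 : od (fun x y => if (x, y) ∈ Z ∨ (y, x) ∈ Z then T x y else T y x) x =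
          (univ.filter fun y => (x, y) ∈ Z).card +
            (univ.filter fun y => ¬ ((x, y) ∈ Z ∨ (y, x) ∈ Z) ∧ T y x = true).card := by
        unfold od
        rw [← Finset.card_union_of_disjoint]
        · congr 1
          ext y
          rw [mem_union, mem_filter, mem_filter, mem_filter]
          dsimp only
          by_cases h8 : (x, y) ∈ Z ∨ (y, x) ∈ Z
          · rw [if_pos h8]
            constructor
            · rintro ⟨-, h9⟩
              rcases h8 with h8 | h8
              · exact Or.inl ⟨mem_univ _, h8⟩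
              · rw [hZ2 _ _ h8] at h9
                exact absurd h9 (by decide)
            · rintro (⟨-, h9⟩ | ⟨-, h9, -⟩)
              · exact ⟨mem_univ _, hZ1 _ _ h9⟩
              · exact absurd h8 h9
          · rw [if_neg h8]
            constructor
            · rintro ⟨-, h9⟩
              exact Or.inr ⟨mem_univ _, h8, h9⟩
            · rintro (⟨-, h9⟩ | ⟨-, -, h9⟩)
              · exact absurd (Or.inl h9) h8
              · exact ⟨mem_univ _, h9⟩
        · rw [Finset.disjoint_left]
          intro y h8 h9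
          rw [mem_filter] at h8 h9
          exact h9.2.1 (Or.inl h8.2)
      rw [h7, hZ x]
      omega
    · dsimp only
      rcases mem_union.1 hp with hp | hp
      · rw [if_pos (Or.inl hp)]
        exact hZ1 _ _ hp
      · obtain ⟨h4, h5, h6⟩ := hS p hp
        rw [if_neg (by rintro (h7 | h7); exacts [h5 h7, h6 h7])]
        exact h3 (p.2, p.1) (mem_union_right _ h4)
  · intro T _ T' _ h
    funext x y
    by_cases h4 : (x, y) ∈ Z ∨ (y, x) ∈ Z
    · have h1 := congrFun (congrFun h x) y
      dsimp only at h1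
      rwa [if_pos h4, if_pos h4] at h1
    · have h1 := congrFun (congrFun h y) x
      dsimp only at h1
      rwa [if_neg (fun h5 => h4 h5.symm), if_neg (fun h5 => h4 h5.symm)] at h1

/-- exchange of the arcs at `u` and `w` to the vertices of `Y` -/
def ex (u w : V) (Y : Finset V) (T : V → V → Bool) : V → V → Bool := fun a b =>
  if a ∈ Y then T a (Equiv.swap u w b) else if b ∈ Y then T (Equiv.swap u w a) b else T a b

theorem ex_ex {u w : V} {Y : Finset V} (hu : u ∉ Y) (hw : w ∉ Y) (T : V → V → Bool) :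
    ex u w Y (ex u w Y T) = T := by
  have hsw : ∀ x, Equiv.swap u w x ∈ Y ↔ x ∈ Y := by
    intro x
    by_cases h1 : x = u
    · rw [h1, Equiv.swap_apply_left]
      exact ⟨fun h => absurd h hw, fun h => absurd h hu⟩
    · by_cases h2 : x = w
      · rw [h2, Equiv.swap_apply_right]
        exact ⟨fun h => absurd h hu, fun h => absurd h hw⟩
      · rw [Equiv.swap_apply_of_ne_of_ne h1 h2]
  funext a b
  unfold ex
  by_cases ha : a ∈ Y
  · simp [ha]
  · by_cases hb : b ∈ Y
    · simp [ha, hb, hsw]
    · simp [ha, hb]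

theorem ex_isT {u w : V} {Y : Finset V} (hu : u ∉ Y) (hw : w ∉ Y) {T : V → V → Bool}
    (hT : IsT T) : IsT (ex u w Y T) := by
  have hfix : ∀ x ∈ Y, Equiv.swap u w x = x := by
    intro x hx
    exact Equiv.swap_apply_of_ne_of_ne (fun h => hu (h ▸ hx)) (fun h => hw (h ▸ hx))
  refine ⟨fun x => ?_, fun x y hxy => ?_⟩
  · unfold ex
    by_cases hx : x ∈ Y
    · rw [if_pos hx, hfix x hx]
      exact hT.1 x
    · rw [if_neg hx, if_neg hx]
      exact hT.1 x
  · unfold ex
    by_cases hx : x ∈ Y
    · by_cases hy : y ∈ Y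
      · simp only [hx, hy, if_true, hfix x hx, hfix y hy]
        exact hT.2 x y hxy
      · rw [if_pos hx, if_neg hy, if_pos hx]
        refine hT.2 _ _ fun h => ?_
        have h1 : Equiv.swap u w x = y := by
          rw [h, Equiv.swap_apply_self]
        rw [hfix x hx] at h1
        exact hxy h1
    · by_cases hy : y ∈ Y
      · rw [if_pos hy, if_neg hx, if_pos hy]
        refine hT.2 _ _ fun h => ?_
        have h1 : Equiv.swap u w y = x := by
          rw [← h, Equiv.swap_apply_self]
        rw [hfix y hy] at h1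
        exact hxy h1.symm
      · rw [if_neg hy, if_neg hx, if_neg hx, if_neg hy]
        exact hT.2 x y hxy

theorem ex_od {u w : V} {Y : Finset V} (hu : u ∉ Y) (hw : w ∉ Y) (T : V → V → Bool) {x : V}
    (hxu : x ≠ u) (hxw : x ≠ w) : od (ex u w Y T) x = od T x := by
  unfold od
  by_cases hx : x ∈ Y
  · refine Finset.card_bij (fun y _ => Equiv.swap u w y) ?_ ?_ ?_
    · intro y hy
      rw [mem_filter] at hy ⊢
      unfold ex at hy
      rw [if_pos hx] at hy
      exact ⟨mem_univ _, hy.2⟩
    · intro y _ y' _ h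
      exact (Equiv.swap u w).injective h
    · intro y hy
      rw [mem_filter] at hy
      refine ⟨Equiv.swap u w y, ?_, Equiv.swap_apply_self u w y⟩
      rw [mem_filter]
      unfold ex
      rw [if_pos hx, Equiv.swap_apply_self]
      exact ⟨mem_univ _, hy.2⟩
  · congr 1
    ext y
    rw [mem_filter, mem_filter]
    unfold ex
    rw [if_neg hx, Equiv.swap_apply_of_ne_of_ne hxu hxw, ite_self]

/-- the exchange as a bijection of `Ts A S` -/
theorem ex_mem {u w : V} {Y A : Finset V} {S : Finset (V × V)} (hu : u ∉ Y) (hw : w ∉ Y)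
    (huA : u ∉ A) (hwA : w ∉ A)
    (hS : ∀ p ∈ S, ¬ (p.1 ∈ Y ∧ (p.2 = u ∨ p.2 = w)) ∧ ¬ (p.2 ∈ Y ∧ (p.1 = u ∨ p.1 = w)))
    {T : V → V → Bool} (hT : T ∈ Ts A S) : ex u w Y T ∈ Ts A S := by
  rw [mem_Ts] at hT ⊢
  obtain ⟨h1, h2, h3⟩ := hT
  refine ⟨ex_isT hu hw h1, fun x hx => ?_, fun p hp => ?_⟩
  · rw [ex_od hu hw T (fun h => huA (h ▸ hx)) (fun h => hwA (h ▸ hx))]
    exact h2 x hx
  · have h4 := hS p hp
    have h5 := h3 p hp
    unfold ex
    by_cases h6 : p.1 ∈ Y
    · have h7 : p.2 ≠ u := fun h => h4.1 ⟨h6, Or.inl h⟩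
      have h8 : p.2 ≠ w := fun h => h4.1 ⟨h6, Or.inr h⟩
      rw [if_pos h6, Equiv.swap_apply_of_ne_of_ne h7 h8]
      exact h5
    · rw [if_neg h6]
      by_cases h7 : p.2 ∈ Y
      · have h8 : p.1 ≠ u := fun h => h4.2 ⟨h7, Or.inl h⟩
        have h9 : p.1 ≠ w := fun h => h4.2 ⟨h7, Or.inr h⟩
        rw [if_pos h7, Equiv.swap_apply_of_ne_of_ne h8 h9]
        exact h5
      · rw [if_neg h7]
        exact h5

theorem ex_left {u w : V} {Y : Finset V} (hu : u ∉ Y) (T : V → V → Bool) {x : V} (hx : x ∈ Y) :
    ex u w Y T u x = T w x := by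
  unfold ex
  rw [if_neg hu, if_pos hx, Equiv.swap_apply_left]

theorem ex_right {u w : V} {Y : Finset V} (hw : w ∉ Y) (T : V → V → Bool) {x : V} (hx : x ∈ Y) :
    ex u w Y T w x = T u x := by
  unfold ex
  rw [if_neg hw, if_pos hx, Equiv.swap_apply_right]

theorem ex_other {u w : V} {Y : Finset V} (T : V → V → Bool) {x y : V} (hx : x ∉ Y) (hy : y ∉ Y) :
    ex u w Y T x y = T x y := by
  unfold ex
  rw [if_neg hx, if_neg hy]

end MP_a3e05c_co.SW
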