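import Pool.Agent.Lib.MP_a3e05c_co.SW.Root
import Pool.Agent.Lib.MP_a3e05c_co.SW.Moves
import Pool.Agent.Lib.MP_a3e05c_co.KL.Palin
import Pool.Agent.Lib.MP_a3e05c_co.KL.Coeff

/-!
# EULER, near-cliques with 3, 4 or 5 missing edges: the polynomial of the common neighbours
-/

open Finset Polynomial

namespace MP_a3e05c_co.SW

variable {V : Type} [Fintype V] [DecidableEq V]

/-- the configuration: `u → w`, `u → v`, `z → u`, `w → v`, `w → z`; no other arc of `S` touches
`u` or `w` -/
structure Cfg (u w v z : V) (S : Finset (V × V)) : Prop where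
  uw : u ≠ w
  uv : u ≠ v
  uz : u ≠ z
  wv : w ≠ v
  wz : w ≠ z
  vz : v ≠ z
  a1 : (u, w) ∈ S
  a2 : (u, v) ∈ S
  a3 : (z, u) ∈ S
  a4 : (w, v) ∈ S
  a5 : (w, z) ∈ S
  out : ∀ p ∈ S, (p.1 = u ∨ p.1 = w ∨ p.2 = u ∨ p.2 = w) →
    p = (u, w) ∨ p = (u, v) ∨ p = (z, u) ∨ p = (w, v) ∨ p = (w, z)

/-- all vertices but `u` and `w` -/
def A0 (u w : V) : Finset V := univ.filter fun x => x ≠ u ∧ x ≠ w

/-- all vertices but `u`, `w`, `v`, `z` -/
def C0 (u w v z : V) : Finset V := univ.filter fun x => x ≠ u ∧ x ≠ w ∧ x ≠ v ∧ x ≠ z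

/-- number of arcs from `x` to `C` -/
def jj (C : Finset V) (T : V → V → Bool) (x : V) : ℕ := (C.filter fun y => T x y = true).card

/-- indicator -/
def bt (b : Bool) : ℕ := if b = true then 1 else 0

theorem mk_eq (C : Finset V) (T : V → V → Bool) (x : V) : mk ({x} ×ˢ C) T = jj C T x := by
  unfold mk jj
  refine Finset.card_bij (fun p _ => p.2) ?_ ?_ ?_
  · intro p hp
    rw [mem_filter, mem_product, mem_singleton] at hp
    rw [mem_filter]
    refine ⟨hp.1.2, ?_⟩
    rw [← hp.1.1]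
    exact hp.2
  · intro p hp p' hp' h
    rw [mem_filter, mem_product, mem_singleton] at hp hp'
    exact Prod.ext (hp.1.1.trans hp'.1.1.symm) h
  · intro y hy
    rw [mem_filter] at hy
    refine ⟨(x, y), ?_, rfl⟩
    rw [mem_filter, mem_product, mem_singleton]
    exact ⟨⟨rfl, hy.1⟩, hy.2⟩

theorem jj_sum (C : Finset V) (T : V → V → Bool) (x : V) : jj C T x = ∑ y ∈ C, bt (T x y) := by
  unfold jj bt
  rw [card_filter]

section

variable {u w v z : V} {S : Finset (V × V)}

theorem Cfg.compl (h : Cfg u w v z S) : (C0 u w v z)ᶜ = {u, w, v, z} := by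
  ext x
  rw [mem_compl]
  unfold C0
  rw [mem_filter, mem_insert, mem_insert, mem_insert, mem_singleton]
  constructor
  · intro h1
    by_contra h2
    push Not at h2
    exact h1 ⟨mem_univ _, h2.1, h2.2.1, h2.2.2.1, h2.2.2.2⟩
  · rintro (h1 | h1 | h1 | h1) ⟨-, h2, h3, h4, h5⟩
    · exact h2 h1
    · exact h3 h1
    · exact h4 h1
    · exact h5 h1

theorem Cfg.od (h : Cfg u w v z S) (T : V → V → Bool) (x : V) :
    od T x = jj (C0 u w v z) T x + (bt (T x u) + bt (T x w) + bt (T x v) + bt (T x z)) := by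
  have h1 : SW.od T x = ∑ y, bt (T x y) := by
    unfold SW.od bt
    rw [card_filter]
  rw [h1, ← Finset.sum_add_sum_compl (C0 u w v z), h.compl, jj_sum]
  congr 1
  rw [Finset.sum_insert, Finset.sum_insert, Finset.sum_insert, Finset.sum_singleton]
  · ring
  · rw [mem_singleton]
    exact h.vz
  · rw [mem_insert, mem_singleton, not_or]
    exact ⟨h.wv, h.wz⟩
  · rw [mem_insert, mem_insert, mem_singleton, not_or, not_or]
    exact ⟨h.uw, h.uv, h.uz⟩

theorem Cfg.card (h : Cfg u w v z S) : (C0 u w v z).card + 4 = Fintype.card V := by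
  have h1 := Finset.card_add_card_compl (C0 u w v z)
  rw [h.compl] at h1
  have h2 : ({u, w, v, z} : Finset V).card = 4 := by
    rw [Finset.card_insert_of_notMem, Finset.card_insert_of_notMem,
      Finset.card_insert_of_notMem, Finset.card_singleton]
    · rw [mem_singleton]
      exact h.vz
    · rw [mem_insert, mem_singleton, not_or]
      exact ⟨h.wv, h.wz⟩
    · rw [mem_insert, mem_insert, mem_singleton, not_or, not_or]
      exact ⟨h.uw, h.uv, h.uz⟩
  omega

/-- the number of arcs -/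
theorem two_sum_od {T : V → V → Bool} (hT : IsT T) :
    2 * ∑ x, od T x + Fintype.card V = Fintype.card V * Fintype.card V := by
  have h1 : ∑ x, (univ.filter fun y => T y x = true).card = ∑ x, od T x := by
    unfold od
    have h2 : ∀ x, (univ.filter fun y => T y x = true).card =
        ∑ y, if T y x = true then 1 else 0 := fun x => by rw [card_filter]
    have h3 : ∀ x, (univ.filter fun y => T x y = true).card =
        ∑ y, if T x y = true then 1 else 0 := fun x => by rw [card_filter]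
    rw [Finset.sum_congr rfl fun x _ => h2 x, Finset.sum_congr rfl fun x _ => h3 x,
      Finset.sum_comm]
  have h2 : ∑ x, ((univ.filter fun y => T y x = true).card + od T x + 1) =
      ∑ _x : V, Fintype.card V := Finset.sum_congr rfl fun x _ => ind_eq hT x
  rw [Finset.sum_add_distrib, Finset.sum_add_distrib, h1, Finset.sum_const, Finset.sum_const,
    Finset.card_univ, smul_eq_mul, smul_eq_mul, mul_one] at h2
  omega

theorem A0_compl (huw : u ≠ w) : (A0 u w)ᶜ = {u, w} := by
  ext x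
  rw [mem_compl]
  unfold A0
  rw [mem_filter, mem_insert, mem_singleton]
  constructor
  · intro h1
    by_contra h2
    push Not at h2
    exact h1 ⟨mem_univ _, h2.1, h2.2⟩
  · rintro (h1 | h1) ⟨-, h2, h3⟩
    · exact h2 h1
    · exact h3 h1

/-- conservation of the flow -/
theorem od_uw (huw : u ≠ w) {T : V → V → Bool} (hT : T ∈ Ts (A0 u w) S) :
    od T u + od T w + 1 = Fintype.card V := by
  rw [mem_Ts] at hT
  obtain ⟨h1, h2, -⟩ := hT
  have h3 := two_sum_od h1
  rw [← Finset.sum_add_sum_compl (A0 u w), A0_compl huw, Finset.sum_pair huw] at h3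
  have h4 : ∑ x ∈ A0 u w, (2 * od T x + 1) = ∑ _x ∈ A0 u w, Fintype.card V :=
    Finset.sum_congr rfl h2
  rw [Finset.sum_add_distrib, ← Finset.mul_sum, Finset.sum_const, Finset.sum_const, smul_eq_mul,
    smul_eq_mul, mul_one] at h4
  have h5 := Finset.card_add_card_compl (A0 u w)
  rw [A0_compl huw, Finset.card_pair huw] at h5
  have h6 : (A0 u w).card * Fintype.card V + 2 * Fintype.card V =
      Fintype.card V * Fintype.card V := by
    rw [← h5]
    ring
  omega

theorem Cfg.arcs (h : Cfg u w v z S) {A : Finset V} {T : V → V → Bool} (hT : T ∈ Ts A S) :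
    T u u = false ∧ T u w = true ∧ T u v = true ∧ T u z = false ∧
      T w u = false ∧ T w w = false ∧ T w v = true ∧ T w z = true := by
  rw [mem_Ts] at hT
  obtain ⟨h1, -, h3⟩ := hT
  have e1 : T u w = true := h3 _ h.a1
  have e2 : T u v = true := h3 _ h.a2
  have e3 : T z u = true := h3 _ h.a3
  have e4 : T w v = true := h3 _ h.a4
  have e5 : T w z = true := h3 _ h.a5
  refine ⟨h1.1 u, e1, e2, ?_, ?_, h1.1 w, e4, e5⟩
  · have h4 := h1.2 u z h.uz
    rw [e3] at h4
    cases h5 : T u z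
    · rfl
    · rw [h5] at h4
      exact absurd h4 (by decide)
  · rw [h1.2 u w h.uw, e1]
    rfl

theorem Cfg.jj_add (h : Cfg u w v z S) {T : V → V → Bool} (hT : T ∈ Ts (A0 u w) S) :
    jj (C0 u w v z) T u + jj (C0 u w v z) T w + 1 = (C0 u w v z).card := by
  have h1 := od_uw h.uw hT
  obtain ⟨e1, e2, e3, e4, e5, e6, e7, e8⟩ := h.arcs hT
  rw [h.od T u, h.od T w, e1, e2, e3, e4, e5, e6, e7, e8] at h1
  have h2 := h.card
  unfold bt at h1
  simp only [if_true, Bool.false_eq_true, if_false] at h1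
  omega

/-- the hypothesis of `ex_mem` -/
theorem Cfg.exS (h : Cfg u w v z S) {Y : Finset V} (hY : Y ⊆ C0 u w v z) :
    ∀ p ∈ S, ¬ (p.1 ∈ Y ∧ (p.2 = u ∨ p.2 = w)) ∧ ¬ (p.2 ∈ Y ∧ (p.1 = u ∨ p.1 = w)) := by
  intro p hp
  have hne : ∀ x ∈ Y, x ≠ u ∧ x ≠ w ∧ x ≠ v ∧ x ≠ z := fun x hx => by
    have := hY hx
    unfold C0 at this
    exact (mem_filter.1 this).2
  constructor
  · rintro ⟨h1, h2⟩
    obtain ⟨n1, n2, n3, n4⟩ := hne _ h1
    rcases h.out p hp (by tauto) with rfl | rfl | rfl | rfl | rfl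
    · exact n1 rfl
    · exact n1 rfl
    · exact n4 rfl
    · exact n2 rfl
    · exact n2 rfl
  · rintro ⟨h1, h2⟩
    obtain ⟨n1, n2, n3, n4⟩ := hne _ h1
    rcases h.out p hp (by tauto) with rfl | rfl | rfl | rfl | rfl
    · exact n2 rfl
    · exact n3 rfl
    · exact n1 rfl
    · exact n3 rfl
    · exact n4 rfl

theorem notMem_C0u {Y : Finset V} (hY : Y ⊆ C0 u w v z) : u ∉ Y := fun h => by
  have := hY h
  unfold C0 at this
  exact (mem_filter.1 this).2.1 rfl

theorem notMem_C0w {Y : Finset V} (hY : Y ⊆ C0 u w v z) : w ∉ Y := fun h => by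
  have := hY h
  unfold C0 at this
  exact (mem_filter.1 this).2.2.1 rfl

theorem notMem_A0u : u ∉ A0 u w := fun h => (mem_filter.1 h).2.1 rfl

theorem notMem_A0w : w ∉ A0 u w := fun h => (mem_filter.1 h).2.2 rfl

theorem Cfg.exm (h : Cfg u w v z S) {Y : Finset V} (hY : Y ⊆ C0 u w v z) {T : V → V → Bool}
    (hT : T ∈ Ts (A0 u w) S) : ex u w Y T ∈ Ts (A0 u w) S :=
  ex_mem (notMem_C0u hY) (notMem_C0w hY) notMem_A0u notMem_A0w (h.exS hY) hT

/-- invariance of the sums under the exchange -/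
theorem Cfg.sum_ex (h : Cfg u w v z S) {Y : Finset V} (hY : Y ⊆ C0 u w v z) {R : Type}
    [AddCommMonoid R] (F : (V → V → Bool) → R) :
    ∑ T ∈ Ts (A0 u w) S, F (ex u w Y T) = ∑ T ∈ Ts (A0 u w) S, F T :=
  Finset.sum_nbij' (ex u w Y) (ex u w Y) (fun _ hT => h.exm hY hT) (fun _ hT => h.exm hY hT)
    (fun T _ => ex_ex (notMem_C0u hY) (notMem_C0w hY) T)
    (fun T _ => ex_ex (notMem_C0u hY) (notMem_C0w hY) T) (fun _ _ => rfl)

theorem jj_ex_u {Y : Finset V} (hY : Y ⊆ C0 u w v z) (T : V → V → Bool) :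
    jj Y (ex u w Y T) u = jj Y T w := by
  rw [jj_sum, jj_sum]
  exact Finset.sum_congr rfl fun y hy => by rw [ex_left (notMem_C0u hY) T hy]

/-- the generating polynomial -/
noncomputable def fp (u w v z : V) (S : Finset (V × V)) : ℝ[X] :=
  ∑ T ∈ Ts (A0 u w) S, X ^ jj (C0 u w v z) T u

theorem fp_coeff (j : ℕ) : (fp u w v z S).coeff j =
    (((Ts (A0 u w) S).filter fun T => jj (C0 u w v z) T u = j).card : ℝ) := by
  unfold fp
  rw [Polynomial.finsetSum_coeff, card_filter]
  push_cast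
  refine Finset.sum_congr rfl fun T _ => ?_
  rw [Polynomial.coeff_X_pow]
  exact if_congr eq_comm rfl rfl

theorem fp_eval : (fp u w v z S).eval 1 = ((Ts (A0 u w) S).card : ℝ) := by
  unfold fp
  rw [Polynomial.eval_finsetSum]
  simp

theorem Cfg.fp_palin (h : Cfg u w v z S) {j : ℕ} (hj : j ≤ (C0 u w v z).card - 1) :
    (fp u w v z S).coeff j = (fp u w v z S).coeff ((C0 u w v z).card - 1 - j) := by
  unfold fp
  rw [Polynomial.finsetSum_coeff, Polynomial.finsetSum_coeff,
    ← h.sum_ex (Finset.Subset.refl _) (fun T => (X ^ jj (C0 u w v z) T u : ℝ[X]).coeff j)]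
  refine Finset.sum_congr rfl fun T hT => ?_
  rw [jj_ex_u (Finset.Subset.refl _), Polynomial.coeff_X_pow, Polynomial.coeff_X_pow]
  have h2 := h.jj_add hT
  by_cases h3 : j = jj (C0 u w v z) T w
  · rw [if_pos h3, if_pos]
    omega
  · rw [if_neg h3, if_neg]
    omega

theorem Cfg.fp_factor (h : Cfg u w v z S) (hne : (Ts (A0 u w) S).Nonempty) :
    ∃ s : Fin (((C0 u w v z).card - 1) / 2) → ℝ,
      KL.Factor ((C0 u w v z).card - 1) (fp u w v z S) s := by
  refine KL.palin_factor _ _ ?_ ?_ ?_ ?_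
  · intro h0
    have h1 := fp_eval (u := u) (w := w) (v := v) (z := z) (S := S)
    rw [h0, Polynomial.eval_zero] at h1
    have h2 : (0 : ℝ) < ((Ts (A0 u w) S).card : ℝ) := by exact_mod_cast hne.card_pos
    linarith
  · unfold fp
    refine Polynomial.natDegree_sum_le_of_forall_le _ _ (fun T hT => ?_)
    rw [Polynomial.natDegree_X_pow]
    have := h.jj_add hT
    omega
  · exact fun j hj => h.fp_palin hj
  · intro ζ hζ
    refine tour_root (A := A0 u w) (S := S) (M := {u} ×ˢ C0 u w v z) ?_ hne ?_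
    · intro p hp
      rw [mem_product, mem_singleton] at hp
      rw [hp.1]
      exact notMem_A0u
    · unfold fp at hζ
      rw [map_sum] at hζ
      simp only [map_pow, aeval_X] at hζ
      rw [← hζ]
      exact Finset.sum_congr rfl fun T _ => by rw [mk_eq]

end

end MP_a3e05c_co.SW
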