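import Pool.Agent.Lib.MP_a3e05c_co.KL.PDefs

/-!
# EULER, near-cliques with 3, 4 or 5 missing edges: tournaments

`T x y = true` means that the arc goes from `x` to `y`.
-/

open Finset

namespace MP_a3e05c_co.SW

variable {V : Type} [Fintype V] [DecidableEq V]

/-- `T` is a tournament -/
def IsT (T : V → V → Bool) : Prop :=
  (∀ x, T x x = false) ∧ ∀ x y, x ≠ y → T y x = !T x y

instance (T : V → V → Bool) : Decidable (IsT T) :=
  inferInstanceAs (Decidable ((∀ x, T x x = false) ∧ ∀ x y, x ≠ y → T y x = !T x y))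

/-- out-degree -/
def od (T : V → V → Bool) (x : V) : ℕ := (univ.filter fun y => T x y = true).card

/-- the tournaments which contain the arcs of `S` and have out-degree `(|V| - 1) / 2` on `A` -/
def Ts (A : Finset V) (S : Finset (V × V)) : Finset (V → V → Bool) :=
  univ.filter fun T => IsT T ∧ (∀ x ∈ A, 2 * od T x + 1 = Fintype.card V) ∧
    ∀ p ∈ S, T p.1 p.2 = true

/-- number of the arcs of `T` in `M` -/
def mk (M : Finset (V × V)) (T : V → V → Bool) : ℕ := (M.filter fun p => T p.1 p.2 = true).card

theorem mem_Ts {A : Finset V} {S : Finset (V × V)} {T : V → V → Bool} :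
    T ∈ Ts A S ↔ IsT T ∧ (∀ x ∈ A, 2 * od T x + 1 = Fintype.card V) ∧
      ∀ p ∈ S, T p.1 p.2 = true := by
  simp [Ts]

/-- the pairs `p` with `i p.1 < i p.2` -/
def PP (i : V → ℕ) : Finset (V × V) := univ.filter fun p => i p.1 < i p.2

theorem prod_pairs {R : Type} [CommMonoid R] {i : V → ℕ} (hi : Function.Injective i)
    (F : V → V → R) (hF : ∀ x, F x x = 1) :
    ∏ x, ∏ y, F x y = ∏ p ∈ PP i, F p.1 p.2 * F p.2 p.1 := by
  have h1 : ∏ x, ∏ y, F x y = ∏ p : V × V, F p.1 p.2 :=
    (Fintype.prod_prod_type' (f := fun x y => F x y)).symm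
  have h2 : ∏ p ∈ univ.filter (fun p : V × V => ¬ i p.1 < i p.2), F p.1 p.2 =
      ∏ p ∈ PP i, F p.2 p.1 := by
    have h3 : ∏ p ∈ univ.filter (fun p : V × V => i p.2 < i p.1), F p.1 p.2 =
        ∏ p ∈ univ.filter (fun p : V × V => ¬ i p.1 < i p.2), F p.1 p.2 := by
      refine Finset.prod_subset ?_ ?_
      · intro p hp
        rw [mem_filter] at hp ⊢
        exact ⟨mem_univ _, by omega⟩
      · intro p hp hp'
        rw [mem_filter] at hp hp'
        have h4 : i p.1 = i p.2 := by
          have h5 : ¬ i p.2 < i p.1 := fun h => hp' ⟨mem_univ _, h⟩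
          have h6 := hp.2
          omega
        rw [hi h4]
        exact hF _
    rw [← h3]
    refine Finset.prod_nbij' (fun p => (p.2, p.1)) (fun p => (p.2, p.1)) ?_ ?_ ?_ ?_ ?_
    · intro p hp
      rw [mem_filter] at hp
      unfold PP
      rw [mem_filter]
      exact ⟨mem_univ _, hp.2⟩
    · intro p hp
      unfold PP at hp
      rw [mem_filter] at hp ⊢
      exact ⟨mem_univ _, hp.2⟩
    · intro p _
      rfl
    · intro p _
      rfl
    · intro p _
      rfl
  rw [h1, ← Finset.prod_filter_mul_prod_filter_not univ (fun p : V × V => i p.1 < i p.2), h2,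
    Finset.prod_mul_distrib]
  rfl

theorem sum_pairs {R : Type} [AddCommMonoid R] {i : V → ℕ} (hi : Function.Injective i)
    (F : V → V → R) (hF : ∀ x, F x x = 0) :
    ∑ x, ∑ y, F x y = ∑ p ∈ PP i, (F p.1 p.2 + F p.2 p.1) := by
  have h := prod_pairs (R := Multiplicative R) hi (fun x y => Multiplicative.ofAdd (F x y))
    (fun x => by rw [hF x]; rfl)
  have h1 := congrArg Multiplicative.toAdd h
  simpa [toAdd_prod] using h1

/-- the sum of products over all tournaments -/
theorem sum_tour {R : Type} [CommRing R] {i : V → ℕ} (hi : Function.Injective i)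
    (h : V → V → R) :
    ∑ T ∈ univ.filter (fun T : V → V → Bool => IsT T),
        ∏ x, ∏ y, (if T x y = true then h x y else 1) =
      ∏ p ∈ PP i, (h p.1 p.2 + h p.2 p.1) := by
  rw [Finset.prod_add]
  refine Finset.sum_nbij' (fun T => (PP i).filter fun p => T p.1 p.2 = true)
    (fun t x y => if i x < i y then decide ((x, y) ∈ t) else
      if i y < i x then !decide ((y, x) ∈ t) else false) ?_ ?_ ?_ ?_ ?_
  · intro T _
    rw [mem_powerset]
    exact filter_subset _ _
  · intro t _
    rw [mem_filter]
    refine ⟨mem_univ _, fun x => ?_, fun x y hxy => ?_⟩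
    · simp
    · have h1 : i x ≠ i y := fun h2 => hxy (hi h2)
      rcases lt_or_gt_of_ne h1 with h2 | h2
      · simp [h2, not_lt.2 h2.le]
      · simp [h2, not_lt.2 h2.le]
  · intro T hT
    rw [mem_filter] at hT
    obtain ⟨-, hT1, hT2⟩ := hT
    funext x y
    rcases lt_trichotomy (i x) (i y) with h1 | h1 | h1
    · have h2 : (x, y) ∈ PP i := by
        unfold PP
        rw [mem_filter]
        exact ⟨mem_univ _, h1⟩
      simp [h1, h2]
    · have h2 := hi h1
      subst h2
      simp [hT1]
    · have h2 : (y, x) ∈ PP i := by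
        unfold PP
        rw [mem_filter]
        exact ⟨mem_univ _, h1⟩
      have h3 : y ≠ x := by
        rintro rfl
        exact lt_irrefl _ h1
      have h4 := hT2 y x h3
      simp [h1, not_lt.2 h1.le, h2, h4]
  · intro t ht
    rw [mem_powerset] at ht
    ext p
    rw [mem_filter]
    constructor
    · rintro ⟨h1, h2⟩
      unfold PP at h1
      rw [mem_filter] at h1
      dsimp only at h2
      rw [if_pos h1.2] at h2
      simpa using h2
    · intro h1
      have h2 := ht h1
      refine ⟨h2, ?_⟩
      unfold PP at h2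
      rw [mem_filter] at h2
      dsimp only
      rw [if_pos h2.2]
      simpa using h1
  · intro T hT
    rw [mem_filter] at hT
    obtain ⟨-, hT1, hT2⟩ := hT
    rw [prod_pairs hi _ (fun x => by rw [hT1 x]; simp)]
    have h3 : ∀ p ∈ PP i, (if T p.1 p.2 = true then h p.1 p.2 else 1) *
        (if T p.2 p.1 = true then h p.2 p.1 else 1) =
        if T p.1 p.2 = true then h p.1 p.2 else h p.2 p.1 := by
      intro p hp
      unfold PP at hp
      rw [mem_filter] at hp
      have h4 : p.1 ≠ p.2 := by
        intro h5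
        rw [h5] at hp
        exact lt_irrefl _ hp.2
      have h5 := hT2 _ _ h4
      cases h6 : T p.1 p.2
      · rw [h6] at h5
        simp [h5]
      · rw [h6] at h5
        simp [h5]
    rw [Finset.prod_congr rfl h3, Finset.prod_ite]
    congr 1
    rw [Finset.filter_not]

/-- the number of arcs -/
theorem sum_od {i : V → ℕ} (hi : Function.Injective i) {T : V → V → Bool} (hT : IsT T) :
    ∑ x, od T x = (PP i).card := by
  have h1 : ∀ x, od T x = ∑ y, if T x y = true then 1 else 0 := fun x => by
    unfold od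
    rw [card_filter]
  rw [Finset.sum_congr rfl fun x _ => h1 x,
    sum_pairs hi (fun x y => if T x y = true then 1 else 0) (fun x => by rw [hT.1 x]; simp),
    card_eq_sum_ones]
  refine Finset.sum_congr rfl fun p hp => ?_
  unfold PP at hp
  rw [mem_filter] at hp
  have h4 : p.1 ≠ p.2 := by
    intro h5
    rw [h5] at hp
    exact lt_irrefl _ hp.2
  have h5 := hT.2 _ _ h4
  cases h6 : T p.1 p.2
  · rw [h6] at h5
    simp [h5]
  · rw [h6] at h5
    simp [h5]

theorem exists_inj (V : Type) [Fintype V] : ∃ i : V → ℕ, Function.Injective i :=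
  ⟨fun x => (Fintype.equivFin V x : ℕ), fun _ _ h =>
    (Fintype.equivFin V).injective (Fin.val_injective h)⟩

end MP_a3e05c_co.SW
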