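import Pool.Agent.Lib.MP_a3e05c_co.SW.Core

/-!
# EULER, near-cliques with 3, 4 or 5 missing edges: the second moment
-/

open Finset Polynomial

namespace MP_a3e05c_co.SW

variable {V : Type} [Fintype V] [DecidableEq V]

/-- the discriminant of a quadratic polynomial without roots outside the real line -/
theorem quad_disc {a b c : ℝ} (hc : 0 ≤ c)
    (h : ∀ ζ : ℂ, (a : ℂ) + b * ζ + c * ζ ^ 2 = 0 → ζ.im = 0) : 4 * a * c ≤ b ^ 2 := by
  by_contra hcon
  push Not at hcon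
  rcases hc.lt_or_eq with hc0 | hc0
  · set D : ℝ := Real.sqrt (4 * a * c - b ^ 2) with hD
    have hD0 : 0 < D := Real.sqrt_pos.2 (by linarith)
    have hD2 : D ^ 2 = 4 * a * c - b ^ 2 := Real.sq_sqrt (by linarith)
    have hD2' : (D : ℂ) ^ 2 = 4 * a * c - b ^ 2 := by
      exact_mod_cast congrArg (fun x : ℝ => (x : ℂ)) hD2
    have hcC : (c : ℂ) ≠ 0 := by exact_mod_cast hc0.ne'
    have h1 := h ((-b + D * Complex.I) / (2 * c)) (by
      field_simp
      have hI : Complex.I ^ 2 = -1 := Complex.I_sq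
      linear_combination (D : ℂ) ^ 2 * hI - hD2')
    have h2 : ((-b + D * Complex.I) / (2 * c) : ℂ) =
        ((-b / (2 * c) : ℝ) : ℂ) + ((D / (2 * c) : ℝ) : ℂ) * Complex.I := by
      push_cast
      ring
    rw [h2, Complex.add_im, Complex.ofReal_im, Complex.mul_I_im, Complex.ofReal_re,
      zero_add] at h1
    have h3 : 0 < D / (2 * c) := by positivity
    exact h3.ne' h1
  · rw [← hc0] at hcon
    nlinarith [sq_nonneg b]

/-- sign -/
def sn (b : Bool) : ℝ := if b = true then 1 else -1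

theorem sn_sq (b : Bool) : sn b * sn b = 1 := by
  cases b <;> norm_num [sn]

theorem sum_sn (C : Finset V) (T : V → V → Bool) (x : V) :
    ∑ y ∈ C, sn (T x y) = 2 * (jj C T x : ℝ) - C.card := by
  have h1 : ∀ b, sn b = 2 * (bt b : ℝ) - 1 := by
    intro b
    cases b <;> norm_num [sn, bt]
  rw [Finset.sum_congr rfl fun y _ => h1 (T x y), Finset.sum_sub_distrib, ← Finset.mul_sum,
    jj_sum, Finset.sum_const, nsmul_eq_mul, mul_one]
  push_cast
  ring

variable {u w v z : V} {S : Finset (V × V)}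

/-- the sum of the squares -/
theorem Cfg.second (h : Cfg u w v z S) :
    2 * ∑ T ∈ Ts (A0 u w) S,
        (2 * (jj (C0 u w v z) T u : ℝ) - (((C0 u w v z).card - 1 : ℕ) : ℝ)) ^ 2 =
      (C0 u w v z).card * (Ts (A0 u w) S).card -
        ∑ x ∈ C0 u w v z, ∑ T ∈ Ts (A0 u w) S, sn (T u x) * sn (T w x) := by
  set C := C0 u w v z with hC
  set Ω := Ts (A0 u w) S with hΩ
  -- the sums of the signs
  have h1 : ∀ T ∈ Ω, ∑ x ∈ C, sn (T u x) + 1 =
      2 * (jj C T u : ℝ) - ((C.card - 1 : ℕ) : ℝ) := by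
    intro T hT
    have h2 : jj C T u + jj C T w + 1 = C.card := h.jj_add hT
    have h3 : ((C.card - 1 : ℕ) : ℝ) = (C.card : ℝ) - 1 := by
      rw [Nat.cast_sub (by omega)]
      norm_num
    rw [sum_sn, h3]
    ring
  have h2 : ∀ T ∈ Ω, ∑ x ∈ C, sn (T w x) + 1 = -(∑ x ∈ C, sn (T u x) + 1) := by
    intro T hT
    have h2 : jj C T u + jj C T w + 1 = C.card := h.jj_add hT
    have h3 : (jj C T u : ℝ) + jj C T w + 1 = C.card := by exact_mod_cast h2
    rw [sum_sn, sum_sn]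
    linarith
  have h3 : ∑ T ∈ Ω, ∑ x ∈ C, sn (T w x) = ∑ T ∈ Ω, ∑ x ∈ C, sn (T u x) := by
    rw [← h.sum_ex (Finset.Subset.refl C) (fun T => ∑ x ∈ C, sn (T w x))]
    refine Finset.sum_congr rfl fun T _ => Finset.sum_congr rfl fun x hx => ?_
    rw [ex_right (notMem_C0w (Finset.Subset.refl C)) T hx]
  have h4 : ∀ x ∈ C, ∀ y ∈ C, x ≠ y →
      ∑ T ∈ Ω, sn (T u x) * sn (T w y) = ∑ T ∈ Ω, sn (T u x) * sn (T u y) := by
    intro x hx y hy hxy
    have hy' : {y} ⊆ C0 u w v z := Finset.singleton_subset_iff.2 hy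
    rw [← h.sum_ex hy' (fun T => sn (T u x) * sn (T w y))]
    refine Finset.sum_congr rfl fun T _ => ?_
    rw [ex_right (notMem_C0w hy') T (mem_singleton_self y),
      ex_other T (notMem_C0u hy') (by
        rw [mem_singleton]
        exact hxy)]
  have h5 : ∑ T ∈ Ω, (∑ x ∈ C, sn (T u x)) * (∑ x ∈ C, sn (T u x)) -
      ∑ T ∈ Ω, (∑ x ∈ C, sn (T u x)) * (∑ x ∈ C, sn (T w x)) =
      C.card * Ω.card - ∑ x ∈ C, ∑ T ∈ Ω, sn (T u x) * sn (T w x) := by
    have e1 : ∀ F : V → (V → V → Bool) → ℝ,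
        ∑ T ∈ Ω, (∑ x ∈ C, sn (T u x)) * (∑ y ∈ C, F y T) =
        ∑ x ∈ C, ∑ y ∈ C, ∑ T ∈ Ω, sn (T u x) * F y T := by
      intro F
      have e2 : ∀ T ∈ Ω, (∑ x ∈ C, sn (T u x)) * (∑ y ∈ C, F y T) =
          ∑ x ∈ C, ∑ y ∈ C, sn (T u x) * F y T := by
        intro T _
        rw [Finset.sum_mul_sum]
      rw [Finset.sum_congr rfl e2, Finset.sum_comm]
      refine Finset.sum_congr rfl fun x _ => ?_
      rw [Finset.sum_comm]
    rw [e1 (fun y T => sn (T u y)), e1 (fun y T => sn (T w y)), ← Finset.sum_sub_distrib]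
    have e3 : ∀ x ∈ C, (∑ y ∈ C, ∑ T ∈ Ω, sn (T u x) * sn (T u y) -
        ∑ y ∈ C, ∑ T ∈ Ω, sn (T u x) * sn (T w y)) =
        (Ω.card : ℝ) - ∑ T ∈ Ω, sn (T u x) * sn (T w x) := by
      intro x hx
      rw [← Finset.sum_sub_distrib, Finset.sum_eq_single x]
      · congr 1
        rw [Finset.sum_congr rfl fun T _ => sn_sq (T u x), Finset.sum_const, nsmul_eq_mul,
          mul_one]
      · intro y hy hyx
        rw [h4 x hx y hy (Ne.symm hyx), sub_self]
      · intro hx'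
        exact absurd hx hx'
    rw [Finset.sum_congr rfl e3, Finset.sum_sub_distrib, Finset.sum_const, nsmul_eq_mul]
  have h6 : ∀ T ∈ Ω, 2 * (2 * (jj C T u : ℝ) - ((C.card - 1 : ℕ) : ℝ)) ^ 2 =
      (∑ x ∈ C, sn (T u x)) * (∑ x ∈ C, sn (T u x)) -
        (∑ x ∈ C, sn (T u x)) * (∑ x ∈ C, sn (T w x)) +
        (∑ x ∈ C, sn (T u x) - ∑ x ∈ C, sn (T w x)) := by
    intro T hT
    rw [← h1 T hT]
    have h7 := h2 T hT
    have h8 : ∑ x ∈ C, sn (T w x) = -(∑ x ∈ C, sn (T u x)) - 2 := by linarith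
    rw [h8]
    ring
  rw [Finset.mul_sum, Finset.sum_congr rfl h6, Finset.sum_add_distrib, Finset.sum_sub_distrib,
    Finset.sum_sub_distrib, h3, sub_self, add_zero, h5]

/-- the two leaves at `x` -/
theorem Cfg.pair (h : Cfg u w v z S) {x : V} (hx : x ∈ C0 u w v z) :
    ((Ts (A0 u w) S).card : ℝ) * ∑ T ∈ Ts (A0 u w) S, sn (T u x) * sn (T w x) ≤
      (∑ T ∈ Ts (A0 u w) S, sn (T u x)) ^ 2 := by
  set Ω := Ts (A0 u w) S with hΩ
  rcases Ω.eq_empty_or_nonempty with h0 | hne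
  · rw [h0]
    simp
  set M : Finset (V × V) := {(u, x), (w, x)} with hM
  have hmk : ∀ T, SW.mk M T = bt (T u x) + bt (T w x) := by
    intro T
    unfold SW.mk bt
    rw [hM, card_filter, Finset.sum_pair]
    intro h1
    exact h.uw (Prod.mk.inj h1).1
  have hmk2 : ∀ T, SW.mk M T < 3 := by
    intro T
    rw [hmk]
    unfold bt
    split_ifs <;> norm_num
  set c : ℕ → ℕ := fun j => (Ω.filter fun T => SW.mk M T = j).card with hc
  have hsum : ∀ {R : Type} [CommRing R] (g : ℕ → R),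
      ∑ T ∈ Ω, g (SW.mk M T) = (c 0 : R) * g 0 + (c 1 : R) * g 1 + (c 2 : R) * g 2 := by
    intro R _ g
    rw [← Finset.sum_fiberwise_of_maps_to (s := Ω) (t := range 3) (g := fun T => SW.mk M T)
      (fun T _ => mem_range.2 (hmk2 T))]
    have h1 : ∀ j ∈ range 3, ∑ T ∈ Ω.filter (fun T => SW.mk M T = j), g (SW.mk M T) =
        (c j : R) * g j := by
      intro j _
      rw [Finset.sum_congr rfl (g := fun _ => g j) (fun T hT => by rw [(mem_filter.1 hT).2]),
        Finset.sum_const, nsmul_eq_mul]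
    rw [Finset.sum_congr rfl h1, Finset.sum_range_succ, Finset.sum_range_succ,
      Finset.sum_range_succ, Finset.sum_range_zero, zero_add]
  have hdisc : 4 * (c 0 : ℝ) * (c 2 : ℝ) ≤ (c 1 : ℝ) ^ 2 := by
    refine quad_disc (Nat.cast_nonneg _) fun ζ hζ => ?_
    refine (tour_root (A := A0 u w) (S := S) (M := M) ?_ hne (ζ := ζ) ?_).1
    · intro p hp
      rw [hM, mem_insert, mem_singleton] at hp
      rcases hp with rfl | rfl
      · exact notMem_A0u
      · exact notMem_A0w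
    · rw [hsum (fun j => ζ ^ j), pow_zero, pow_one, mul_one]
      exact_mod_cast hζ
  have h1 : ∑ T ∈ Ω, sn (T u x) * sn (T w x) = (c 0 : ℝ) - c 1 + c 2 := by
    have h2 : ∀ T ∈ Ω, sn (T u x) * sn (T w x) =
        (fun j : ℕ => (1 : ℝ) - 4 * j + 2 * (j : ℝ) ^ 2) (SW.mk M T) := by
      intro T _
      rw [hmk]
      unfold sn bt
      cases T u x <;> cases T w x <;> norm_num
    rw [Finset.sum_congr rfl h2, hsum (fun j : ℕ => (1 : ℝ) - 4 * j + 2 * (j : ℝ) ^ 2)]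
    norm_num
    ring
  have h2 : ∑ T ∈ Ω, sn (T w x) = ∑ T ∈ Ω, sn (T u x) := by
    have hx' : {x} ⊆ C0 u w v z := Finset.singleton_subset_iff.2 hx
    rw [← h.sum_ex hx' (fun T => sn (T w x))]
    refine Finset.sum_congr rfl fun T _ => ?_
    rw [ex_right (notMem_C0w hx') T (mem_singleton_self x)]
  have h3 : ∑ T ∈ Ω, sn (T u x) = (c 2 : ℝ) - c 0 := by
    have h4 : ∑ T ∈ Ω, (sn (T u x) + sn (T w x)) = 2 * ((c 2 : ℝ) - c 0) := by
      have h5 : ∀ T ∈ Ω, sn (T u x) + sn (T w x) =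
          (fun j : ℕ => (2 : ℝ) * j - 2) (SW.mk M T) := by
        intro T _
        rw [hmk]
        unfold sn bt
        cases T u x <;> cases T w x <;> norm_num
      rw [Finset.sum_congr rfl h5, hsum (fun j : ℕ => (2 : ℝ) * j - 2)]
      norm_num
      ring
    rw [Finset.sum_add_distrib, h2] at h4
    linarith
  have h4 : (Ω.card : ℝ) = c 0 + c 1 + c 2 := by
    have h5 := hsum (R := ℝ) (fun _ => 1)
    rw [Finset.sum_const, nsmul_eq_mul, mul_one, mul_one, mul_one, mul_one] at h5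
    exact h5
  rw [h1, h3, h4]
  nlinarith [hdisc]

end MP_a3e05c_co.SW
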