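import Pool.Agent.Lib.MP_a3e05c_co.SW.Bound

/-!
# EULER, near-cliques with 3, 4 or 5 missing edges: relations between the counts

`W` is a path from `v` to `z`; `Z1 = u → v ⇝ z → u`, `Z2 = u → w → v ⇝ z → u`.
-/

open Finset Polynomial

namespace MP_a3e05c_co.SW

variable {V : Type} [Fintype V] [DecidableEq V] {u w v z : V} {W : Finset (V × V)}

/-- the cycle `u → v ⇝ z → u` -/
def Z1 (u v z : V) (W : Finset (V × V)) : Finset (V × V) := insert (u, v) (insert (z, u) W)

/-- the cycle `u → w → v ⇝ z → u` -/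
def Z2 (u w v z : V) (W : Finset (V × V)) : Finset (V × V) :=
  insert (u, w) (insert (w, v) (insert (z, u) W))

/-- the same out- and in-degrees -/
def BalZ (Z : Finset (V × V)) : Prop :=
  ∀ x, (univ.filter fun y => (x, y) ∈ Z).card = (univ.filter fun y => (y, x) ∈ Z).card

structure WCfg (u w v z : V) (W : Finset (V × V)) : Prop where
  uw : u ≠ w
  uv : u ≠ v
  uz : u ≠ z
  wv : w ≠ v
  wz : w ≠ z
  vz : v ≠ z
  out : ∀ p ∈ W, p.1 ≠ u ∧ p.1 ≠ w ∧ p.2 ≠ u ∧ p.2 ≠ w
  bal1 : BalZ (Z1 u v z W)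
  bal2 : BalZ (Z2 u w v z W)

/-- `u → w`, `w → v`, `w → z` and the cycle `Z1` -/
def S1 (u w v z : V) (W : Finset (V × V)) : Finset (V × V) :=
  insert (u, w) (insert (w, z) (insert (w, v) (Z1 u v z W)))

/-- `u → w`, `w → v`, `z → w` and the cycle `Z1` -/
def S2 (u w v z : V) (W : Finset (V × V)) : Finset (V × V) :=
  insert (u, w) (insert (z, w) (insert (w, v) (Z1 u v z W)))

theorem WCfg.cfg (h : WCfg u w v z W) : Cfg u w v z (S1 u w v z W) where
  uw := h.uw
  uv := h.uv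
  uz := h.uz
  wv := h.wv
  wz := h.wz
  vz := h.vz
  a1 := by simp [S1]
  a2 := by simp [S1, Z1]
  a3 := by simp [S1, Z1]
  a4 := by simp [S1]
  a5 := by simp [S1]
  out := by
    intro p hp hq
    unfold S1 Z1 at hp
    simp only [mem_insert] at hp
    rcases hp with hp | hp | hp | hp | hp | hp
    · exact Or.inl hp
    · exact Or.inr (Or.inr (Or.inr (Or.inr hp)))
    · exact Or.inr (Or.inr (Or.inr (Or.inl hp)))
    · exact Or.inr (Or.inl hp)
    · exact Or.inr (Or.inr (Or.inl hp))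
    · exfalso
      obtain ⟨h1, h2, h3, h4⟩ := h.out p hp
      tauto

theorem WCfg.w_mem (h : WCfg u w v z W) {x : V} : (x, w) ∉ W ∧ (w, x) ∉ W ∧ (x, u) ∉ W ∧
    (u, x) ∉ W :=
  ⟨fun h1 => (h.out _ h1).2.2.2 rfl, fun h1 => (h.out _ h1).2.1 rfl,
    fun h1 => (h.out _ h1).2.2.1 rfl, fun h1 => (h.out _ h1).1 rfl⟩

/-- reversal outside `Z`, two arcs -/
theorem rev_two {Z : Finset (V × V)} (hZ : BalZ Z) {a b c d : V} (h1 : (a, b) ∉ Z)
    (h2 : (b, a) ∉ Z) (h3 : (c, d) ∉ Z) (h4 : (d, c) ∉ Z) :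
    (Ts univ (insert (c, d) (insert (a, b) Z))).card =
      (Ts univ (insert (d, c) (insert (b, a) Z))).card := by
  have e : ∀ a b c d : V, insert (c, d) (insert (a, b) Z) = Z ∪ {(c, d), (a, b)} := by
    intro a b c d
    ext p
    simp only [mem_insert, mem_union, mem_singleton]
    tauto
  rw [e, e]
  refine le_antisymm (Ts_reverse hZ ?_) (Ts_reverse hZ ?_)
  · intro p hp
    rw [mem_insert, mem_singleton] at hp
    rcases hp with rfl | rfl
    · exact ⟨by simp, h4, h3⟩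
    · exact ⟨by simp, h2, h1⟩
  · intro p hp
    rw [mem_insert, mem_singleton] at hp
    rcases hp with rfl | rfl
    · exact ⟨by simp, h3, h4⟩
    · exact ⟨by simp, h1, h2⟩

/-- splitting at two pairs, with reversal -/
theorem split_two {Z : Finset (V × V)} (hZ : BalZ Z) {a b c d : V} (hab : a ≠ b) (hcd : c ≠ d)
    (h1 : (a, b) ∉ Z) (h2 : (b, a) ∉ Z) (h3 : (c, d) ∉ Z) (h4 : (d, c) ∉ Z) :
    (Ts univ Z).card = 2 * (Ts univ (insert (c, d) (insert (a, b) Z))).card +
      2 * (Ts univ (insert (d, c) (insert (a, b) Z))).card := by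
  rw [Ts_split univ Z hab, Ts_split univ (insert (a, b) Z) hcd,
    Ts_split univ (insert (b, a) Z) hcd, rev_two hZ h2 h1 h3 h4, rev_two hZ h2 h1 h4 h3]
  ring

theorem WCfg.nZ1 (h : WCfg u w v z W) : (w, v) ∉ Z1 u v z W ∧ (v, w) ∉ Z1 u v z W ∧
    (w, z) ∉ Z1 u v z W ∧ (z, w) ∉ Z1 u v z W := by
  unfold Z1
  simp only [mem_insert, Prod.mk.injEq, not_or, not_and]
  have h1 := h.uw
  have h2 := h.wv
  have h3 := h.wz
  have h4 := h.uz
  have h5 := h.uv
  refine ⟨⟨fun e => absurd e.symm h1, fun e => absurd e h3, h.w_mem.2.1⟩,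
    ⟨fun e => absurd e.symm h5, fun _ e => h1 e.symm, h.w_mem.1⟩,
    ⟨fun e => absurd e.symm h1, fun e => absurd e h3, h.w_mem.2.1⟩,
    ⟨fun e => absurd e.symm h4, fun _ e => h1 e.symm, h.w_mem.1⟩⟩

theorem WCfg.nZ2 (h : WCfg u w v z W) : (u, v) ∉ Z2 u w v z W ∧ (v, u) ∉ Z2 u w v z W ∧
    (w, z) ∉ Z2 u w v z W ∧ (z, w) ∉ Z2 u w v z W := by
  unfold Z2
  simp only [mem_insert, Prod.mk.injEq, not_or, not_and]
  have h1 := h.uw
  have h2 := h.wv
  have h3 := h.wz
  have h4 := h.uz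
  have h5 := h.uv
  have h6 := h.vz
  refine ⟨⟨fun _ e => h2 e.symm, fun e => absurd e h1, fun e => absurd e h4, h.w_mem.2.2.2⟩,
    ⟨fun e => absurd e.symm h5, fun e => absurd e.symm h2, fun e => absurd e h6, h.w_mem.2.2.1⟩,
    ⟨fun e => absurd e.symm h1, fun _ e => h6 e.symm, fun e => absurd e h3, h.w_mem.2.1⟩,
    ⟨fun e => absurd e.symm h4, fun e => absurd e.symm h3, fun _ e => h1 e.symm, h.w_mem.1⟩⟩

/-- exchange of `u` and `w` -/
theorem WCfg.q_eq (h : WCfg u w v z W) :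
    (Ts univ (S2 u w v z W)).card =
      (Ts univ (insert (w, u) (insert (z, w) (insert (w, v) (Z1 u v z W))))).card := by
  have hu : ∀ x, x ≠ u → x ≠ w → Equiv.swap u w x = x := fun x h1 h2 =>
    Equiv.swap_apply_of_ne_of_ne h1 h2
  have hv := hu v (Ne.symm h.uv) (Ne.symm h.wv)
  have hz := hu z (Ne.symm h.uz) (Ne.symm h.wz)
  refine Ts_perm (Equiv.swap u w) (fun x => by simp) ?_ ?_
  · intro p hp
    unfold Z1 at hp
    simp only [mem_insert] at hp
    unfold S2 Z1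
    simp only [mem_insert]
    rcases hp with rfl | rfl | rfl | rfl | rfl | hp
    · simp
    · simp [hz]
    · simp [hv]
    · simp [hv]
    · simp [hz]
    · obtain ⟨h1, h2, h3, h4⟩ := h.out p hp
      rw [hu _ h1 h2, hu _ h3 h4]
      tauto
  · intro p hp
    unfold S2 Z1 at hp
    simp only [mem_insert] at hp
    unfold Z1
    simp only [mem_insert, Equiv.symm_swap]
    rcases hp with rfl | rfl | rfl | rfl | rfl | hp
    · simp
    · simp [hz]
    · simp [hv]
    · simp [hv]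
    · simp [hz]
    · obtain ⟨h1, h2, h3, h4⟩ := h.out p hp
      rw [hu _ h1 h2, hu _ h3 h4]
      tauto

/-- the number of tournaments containing `Z1` -/
theorem WCfg.cnt1 (h : WCfg u w v z W) : (Ts univ (Z1 u v z W)).card =
    2 * ((Ts univ (S1 u w v z W)).card +
      (Ts univ (insert (w, u) (insert (w, z) (insert (w, v) (Z1 u v z W))))).card) +
    4 * (Ts univ (S2 u w v z W)).card := by
  obtain ⟨h1, h2, h3, h4⟩ := h.nZ1
  rw [split_two h.bal1 h.wv h.wz h1 h2 h3 h4,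
    Ts_split univ (insert (w, z) (insert (w, v) (Z1 u v z W))) h.uw,
    Ts_split univ (insert (z, w) (insert (w, v) (Z1 u v z W))) h.uw]
  have h5 := h.q_eq
  unfold S2 at h5
  unfold S1 S2
  omega

/-- the number of tournaments containing `Z2` -/
theorem WCfg.cnt2 (h : WCfg u w v z W) : (Ts univ (Z2 u w v z W)).card =
    2 * (Ts univ (S1 u w v z W)).card + 2 * (Ts univ (S2 u w v z W)).card := by
  obtain ⟨h1, h2, h3, h4⟩ := h.nZ2
  rw [split_two h.bal2 h.uv h.wz h1 h2 h3 h4]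
  congr 3
  · congr 1
    unfold S1 Z1 Z2
    ext p
    simp only [mem_insert]
    tauto
  · congr 1
    unfold S2 Z1 Z2
    ext p
    simp only [mem_insert]
    tauto

/-- `p₀` -/
theorem Cfg.p0 {S : Finset (V × V)} (h : Cfg u w v z S) {K : ℕ}
    (hK : (C0 u w v z).card = 2 * K + 1) : (Ts univ S).card = cj u w v z S K := by
  unfold cj
  congr 1
  ext T
  have hc := h.card
  rw [mem_filter]
  have key : ∀ T ∈ Ts (A0 u w) S, SW.od T u = jj (C0 u w v z) T u + 2 := by
    intro T hT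
    obtain ⟨e1, e2, e3, e4, e5, e6, e7, e8⟩ := h.arcs hT
    rw [h.od T u, e1, e2, e3, e4]
    simp [bt]
  constructor
  · intro hT
    have h1 : T ∈ Ts (A0 u w) S := by
      rw [mem_Ts] at hT ⊢
      exact ⟨hT.1, fun x _ => hT.2.1 x (mem_univ x), hT.2.2⟩
    refine ⟨h1, ?_⟩
    have h2 := (mem_Ts.1 hT).2.1 u (mem_univ u)
    have h3 := key T h1
    omega
  · rintro ⟨h1, h2⟩
    have h3 := key T h1
    have h4 := od_uw h.uw h1
    rw [mem_Ts] at h1 ⊢
    refine ⟨h1.1, fun x _ => ?_, h1.2.2⟩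
    by_cases hxu : x = u
    · rw [hxu]
      omega
    · by_cases hxw : x = w
      · rw [hxw]
        omega
      · exact h1.2.1 x (mem_filter.2 ⟨mem_univ _, hxu, hxw⟩)

/-- reversal of the arc between `u` and `w` -/
def fl (u w : V) (T : V → V → Bool) : V → V → Bool := fun a b =>
  if (a = u ∧ b = w) ∨ (a = w ∧ b = u) then !T a b else T a b

theorem fl_fl (u w : V) (T : V → V → Bool) : fl u w (fl u w T) = T := by
  funext a b
  unfold fl
  by_cases h : (a = u ∧ b = w) ∨ (a = w ∧ b = u)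
  · rw [if_pos h, if_pos h, Bool.not_not]
  · rw [if_neg h, if_neg h]

theorem fl_isT (huw : u ≠ w) {T : V → V → Bool} (hT : IsT T) : IsT (fl u w T) := by
  refine ⟨fun x => ?_, fun x y hxy => ?_⟩
  · unfold fl
    rw [if_neg]
    · exact hT.1 x
    · rintro (⟨h1, h2⟩ | ⟨h1, h2⟩)
      · exact huw (h1.symm.trans h2)
      · exact huw (h2.symm.trans h1)
  · unfold fl
    by_cases h : (x = u ∧ y = w) ∨ (x = w ∧ y = u)
    · rw [if_pos h, if_pos (by tauto), hT.2 x y hxy]
    · rw [if_neg h, if_neg (by tauto), hT.2 x y hxy]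

theorem fl_od {T : V → V → Bool} {x : V} (hxu : x ≠ u) (hxw : x ≠ w) :
    od (fl u w T) x = od T x := by
  unfold od
  congr 1
  ext y
  rw [mem_filter, mem_filter]
  unfold fl
  rw [if_neg (by tauto)]

theorem fl_mem {A : Finset V} {S₀ : Finset (V × V)} (huw : u ≠ w) (huA : u ∉ A) (hwA : w ∉ A)
    (h1 : (u, w) ∉ S₀) (h2 : (w, u) ∉ S₀) {T : V → V → Bool} {a b : V}
    (hab : (a = u ∧ b = w) ∨ (a = w ∧ b = u)) (hT : T ∈ Ts A (insert (a, b) S₀)) :
    fl u w T ∈ Ts A (insert (b, a) S₀) := by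
  rw [mem_Ts] at hT ⊢
  obtain ⟨h3, h4, h5⟩ := hT
  refine ⟨fl_isT huw h3, fun x hx => ?_, fun p hp => ?_⟩
  · have h6 : x ≠ u := by
      rintro rfl
      exact huA hx
    have h7 : x ≠ w := by
      rintro rfl
      exact hwA hx
    rw [fl_od h6 h7]
    exact h4 x hx
  · rcases mem_insert.1 hp with rfl | hp
    · have h6 : T a b = true := h5 _ (mem_insert_self _ _)
      unfold fl
      rw [if_pos (by tauto)]
      have h7 : a ≠ b := by
        rcases hab with ⟨rfl, rfl⟩ | ⟨rfl, rfl⟩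
        · exact huw
        · exact Ne.symm huw
      show (!T b a) = true
      rw [h3.2 a b h7, h6]
      rfl
    · unfold fl
      rw [if_neg]
      · exact h5 p (mem_insert_of_mem hp)
      · rintro (⟨h6, h7⟩ | ⟨h6, h7⟩)
        · exact h1 (by rw [← h6, ← h7]; exact hp)
        · exact h2 (by rw [← h6, ← h7]; exact hp)

/-- `p₂` -/
theorem Cfg.p2 {S₀ : Finset (V × V)} (h : Cfg u w v z (insert (u, w) S₀)) (h1 : (u, w) ∉ S₀)
    (h2 : (w, u) ∉ S₀) {K : ℕ} (hK : (C0 u w v z).card = 2 * K + 1) :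
    (Ts univ (insert (w, u) S₀)).card = cj u w v z (insert (u, w) S₀) (K + 1) := by
  unfold cj
  have hc := h.card
  have key : ∀ T ∈ Ts (A0 u w) (insert (u, w) S₀), SW.od T u = jj (C0 u w v z) T u + 2 := by
    intro T hT
    obtain ⟨e1, e2, e3, e4, e5, e6, e7, e8⟩ := h.arcs hT
    rw [h.od T u, e1, e2, e3, e4]
    simp [bt]
  -- out-degrees of the reversed tournament
  have hodu : ∀ T : V → V → Bool, T u w = true → SW.od T u = SW.od (fl u w T) u + 1 := by
    intro T hT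
    rw [h.od T u, h.od (fl u w T) u]
    have e1 : jj (C0 u w v z) (fl u w T) u = jj (C0 u w v z) T u := by
      unfold jj
      congr 1
      refine Finset.filter_congr fun y hy => ?_
      have hy' := (mem_filter.1 hy).2
      unfold fl
      rw [if_neg]
      rintro (⟨-, h6⟩ | ⟨-, h6⟩)
      · exact hy'.2.1 h6
      · exact hy'.1 h6
    have e2 : fl u w T u u = T u u := by
      unfold fl
      rw [if_neg]
      rintro (⟨-, h6⟩ | ⟨h6, -⟩)
      · exact h.uw h6
      · exact h.uw h6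
    have e3 : fl u w T u w = false := by
      unfold fl
      rw [if_pos (Or.inl ⟨rfl, rfl⟩), hT]
      rfl
    have e4 : fl u w T u v = T u v := by
      unfold fl
      rw [if_neg]
      rintro (⟨-, h6⟩ | ⟨h6, -⟩)
      · exact h.wv h6.symm
      · exact h.uw h6
    have e5 : fl u w T u z = T u z := by
      unfold fl
      rw [if_neg]
      rintro (⟨-, h6⟩ | ⟨h6, -⟩)
      · exact h.wz h6.symm
      · exact h.uw h6
    rw [e1, e2, e3, e4, e5, hT]
    simp [bt]
    ring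
  refine Finset.card_nbij' (fl u w) (fl u w) ?_ ?_ (fun T _ => fl_fl u w T)
    (fun T _ => fl_fl u w T)
  · intro T hT
    have hT' : T ∈ Ts univ (insert (w, u) S₀) := hT
    have hT0 := mem_Ts.1 hT'
    have h3 : T ∈ Ts (A0 u w) (insert (w, u) S₀) :=
      mem_Ts.2 ⟨hT0.1, fun x _ => hT0.2.1 x (mem_univ x), hT0.2.2⟩
    have h4 : fl u w T ∈ Ts (A0 u w) (insert (u, w) S₀) :=
      fl_mem h.uw notMem_A0u notMem_A0w h1 h2 (Or.inr ⟨rfl, rfl⟩) h3
    refine Finset.mem_coe.2 (mem_filter.2 ⟨h4, ?_⟩)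
    have h5 := key _ h4
    have h6 := hodu (fl u w T) (h.arcs h4).2.1
    rw [fl_fl] at h6
    have h7 := hT0.2.1 u (mem_univ u)
    omega
  · intro T hT
    have hT' := mem_filter.1 (Finset.mem_coe.1 hT)
    have h4 : fl u w T ∈ Ts (A0 u w) (insert (w, u) S₀) :=
      fl_mem h.uw notMem_A0u notMem_A0w h1 h2 (Or.inl ⟨rfl, rfl⟩) hT'.1
    have h5 := key _ hT'.1
    have h6 := hodu T (h.arcs hT'.1).2.1
    have h7 := od_uw h.uw h4
    have h8 := mem_Ts.1 h4
    refine Finset.mem_coe.2 (mem_Ts.2 ⟨h8.1, fun x _ => ?_, h8.2.2⟩)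
    have h9 := hT'.2
    by_cases hxu : x = u
    · rw [hxu]
      omega
    · by_cases hxw : x = w
      · rw [hxw]
        omega
      · exact h8.2.1 x (mem_filter.2 ⟨mem_univ _, hxu, hxw⟩)

end MP_a3e05c_co.SW
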