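import Pool.Agent.Lib.MP_a3e05c_co.SW.Defs
import Pool.Agent.Lib.MP_a3e05c_co.KL.QSd

/-!
# EULER, near-cliques with 3, 4 or 5 missing edges: real roots
-/

open Finset

namespace MP_a3e05c_co.SW

variable {V : Type} [Fintype V] [DecidableEq V]

/-- a number which is not in `(-∞, 0]` is a quotient of two numbers of the upper half plane -/
theorem exists_quot {ζ : ℂ} (hcon : ¬ (ζ.im = 0 ∧ ζ.re ≤ 0)) :
    ∃ t : ℂ, 0 < t.im ∧ 0 < (ζ * t).im := by
  have hpos : 0 < ‖ζ‖ + ζ.re := by
    by_contra hle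
    apply hcon
    have h1 : ‖ζ‖ ≤ -ζ.re := by linarith
    have h2 : |ζ.re| ≤ ‖ζ‖ := Complex.abs_re_le_norm ζ
    have h3 : ζ.re ≤ 0 := by
      have := norm_nonneg ζ
      linarith
    have h4 : ‖ζ‖ = |ζ.re| := by
      rw [abs_of_nonpos h3] at h2 ⊢
      linarith
    refine ⟨?_, h3⟩
    have h5 := Complex.sq_norm ζ
    rw [h4, sq_abs, Complex.normSq_apply] at h5
    nlinarith
  have hz0 : 0 < ‖ζ‖ := by
    rcases (norm_nonneg ζ).lt_or_eq with h | h
    · exact h
    · exfalso
      have h0 : ζ = 0 := norm_eq_zero.1 h.symm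
      rw [h0] at hpos
      simp at hpos
  refine ⟨Complex.I * ((‖ζ‖ : ℂ) + (starRingEnd ℂ) ζ), ?_, ?_⟩
  · simpa using hpos
  · have h5 : ζ * (starRingEnd ℂ) ζ = (‖ζ‖ : ℂ) ^ 2 := by
      rw [Complex.mul_conj, Complex.normSq_eq_norm_sq]
      push_cast
      rfl
    have hzt : ζ * (Complex.I * ((‖ζ‖ : ℂ) + (starRingEnd ℂ) ζ)) =
        Complex.I * ((‖ζ‖ : ℂ) * (ζ + (‖ζ‖ : ℂ))) := by
      linear_combination Complex.I * h5
    rw [hzt]
    have h6 : (Complex.I * ((‖ζ‖ : ℂ) * (ζ + (‖ζ‖ : ℂ)))).im = ‖ζ‖ * (ζ.re + ‖ζ‖) := by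
      simp
    rw [h6]
    exact mul_pos hz0 (by linarith)

/-- the exponents -/
private def cc (M : Finset (V × V)) (T : V → V → Bool) (q : V × Bool) : ℕ :=
  (univ.filter fun y => T q.1 y = true ∧ decide ((q.1, y) ∈ M) = q.2).card

private theorem cc_prod {R : Type} [CommRing R] (M : Finset (V × V)) (T : V → V → Bool)
    (z : V × Bool → R) :
    ∏ q, z q ^ cc M T q =
      ∏ x, ∏ y, (if T x y = true then z (x, decide ((x, y) ∈ M)) else 1) := by
  rw [Fintype.prod_prod_type]
  refine Finset.prod_congr rfl fun x _ => ?_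
  rw [← Finset.prod_filter, ← Finset.prod_fiberwise (univ.filter fun y => T x y = true)
    (fun y => decide ((x, y) ∈ M)) (fun y => z (x, decide ((x, y) ∈ M)))]
  refine Finset.prod_congr rfl fun b _ => ?_
  rw [Finset.filter_filter]
  have h1 : ∀ y ∈ univ.filter (fun y => T x y = true ∧ decide ((x, y) ∈ M) = b),
      z (x, decide ((x, y) ∈ M)) = z (x, b) := by
    intro y hy
    rw [(mem_filter.1 hy).2.2]
  rw [Finset.prod_congr rfl h1, Finset.prod_const]
  rfl

private theorem cc_row (M : Finset (V × V)) (T : V → V → Bool) (x : V) :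
    ∑ b, cc M T (x, b) = od T x := by
  unfold od cc
  rw [Finset.card_eq_sum_card_fiberwise (f := fun y => decide ((x, y) ∈ M)) (t := univ)
    (fun y _ => Finset.mem_coe.2 (Finset.mem_univ _))]
  refine Finset.sum_congr rfl fun b _ => ?_
  rw [Finset.filter_filter]

private theorem cc_true (M : Finset (V × V)) (T : V → V → Bool) :
    ∑ x, cc M T (x, true) = mk M T := by
  unfold mk cc
  rw [Finset.card_eq_sum_card_fiberwise (f := fun p : V × V => p.1) (t := univ)
    (fun p _ => Finset.mem_coe.2 (Finset.mem_univ _))]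
  refine Finset.sum_congr rfl fun x _ => ?_
  refine Finset.card_nbij' (fun y => (x, y)) (fun p => p.2) ?_ ?_ ?_ ?_
  · intro y hy
    simp only [coe_filter, Set.mem_ofPred_eq, mem_univ, true_and, decide_eq_true_eq] at hy
    simp only [coe_filter, Set.mem_ofPred_eq, mem_filter]
    exact ⟨⟨hy.2, hy.1⟩, trivial⟩
  · intro p hp
    simp only [coe_filter, Set.mem_ofPred_eq, mem_filter] at hp
    simp only [coe_filter, Set.mem_ofPred_eq, mem_univ, true_and, decide_eq_true_eq]
    obtain ⟨⟨h1, h2⟩, h3⟩ := hp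
    rw [← h3]
    exact ⟨h2, h1⟩
  · intro y _
    rfl
  · intro p hp
    simp only [coe_filter, Set.mem_ofPred_eq, mem_filter] at hp
    obtain ⟨⟨h1, h2⟩, h3⟩ := hp
    rw [← h3]

/-- **Real roots.**  The marked arcs start outside `A`. -/
theorem tour_root {A : Finset V} {S M : Finset (V × V)} (hM : ∀ p ∈ M, p.1 ∉ A)
    (hne : (Ts A S).Nonempty) {ζ : ℂ} (hζ : ∑ T ∈ Ts A S, ζ ^ mk M T = 0) :
    ζ.im = 0 ∧ ζ.re ≤ 0 := by
  classical
  by_contra hcon
  obtain ⟨t, ht0, hzt0⟩ := exists_quot hcon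
  obtain ⟨i, hi⟩ := exists_inj V
  -- the index set
  let ι := {T : V → V → Bool // IsT T ∧ ∀ p ∈ S, T p.1 p.2 = true}
  have hsum : ∀ {R : Type} [CommRing R] (z : V × Bool → R),
      ∑ T : ι, ∏ q, z q ^ cc M T.1 q = ∏ p ∈ PP i,
        ((if (p.2, p.1) ∈ S then 0 else z (p.1, decide ((p.1, p.2) ∈ M))) +
          (if (p.1, p.2) ∈ S then 0 else z (p.2, decide ((p.2, p.1) ∈ M)))) := by
    intro R _ z
    rw [← sum_tour hi (fun x y => if (y, x) ∈ S then 0 else z (x, decide ((x, y) ∈ M)))]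
    have h1 : ∑ T : ι, ∏ q, z q ^ cc M T.1 q =
        ∑ T ∈ (univ.filter fun T : V → V → Bool => IsT T ∧ ∀ p ∈ S, T p.1 p.2 = true),
          ∏ q, z q ^ cc M T q := by
      rw [← Finset.sum_subtype_eq_sum_filter, Finset.subtype_univ]
    have h2 : (univ.filter fun T : V → V → Bool => IsT T ∧ ∀ p ∈ S, T p.1 p.2 = true) ⊆
        univ.filter (fun T : V → V → Bool => IsT T) := by
      intro T hT
      rw [mem_filter] at hT ⊢
      exact ⟨hT.1, hT.2.1⟩
    rw [h1]
    rw [← Finset.sum_subset h2]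
    · refine Finset.sum_congr rfl fun T hT => ?_
      rw [mem_filter] at hT
      obtain ⟨-, hT1, hT2⟩ := hT
      rw [cc_prod]
      refine Finset.prod_congr rfl fun x _ => Finset.prod_congr rfl fun y _ => ?_
      by_cases h3 : T x y = true
      · rw [if_pos h3, if_pos h3, if_neg]
        intro h4
        have h5 := hT2 _ h4
        have h6 : x ≠ y := by
          rintro rfl
          rw [hT1.1 x] at h3
          exact Bool.false_ne_true h3
        have h7 := hT1.2 x y h6
        rw [h3] at h7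
        have h5' : T y x = true := h5
        rw [h5'] at h7
        exact absurd h7 (by decide)
      · rw [if_neg h3, if_neg h3]
    · intro T hT hT'
      rw [mem_filter] at hT hT'
      have h3 : ∃ p ∈ S, T p.1 p.2 ≠ true := by
        by_contra h4
        push Not at h4
        exact hT' ⟨hT.1, hT.2, h4⟩
      obtain ⟨p, hp, h4⟩ := h3
      by_cases h5 : p.1 = p.2
      · -- then the sum over the other side is empty: `(x, x) ∈ S`
        obtain ⟨T₀, hT₀⟩ := hne
        rw [mem_Ts] at hT₀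
        have h6 := hT₀.2.2 p hp
        rw [h5, hT₀.1.1] at h6
        exact absurd h6 (by decide)
      · have h6 := hT.2.2 _ _ h5
        have h7 : T p.2 p.1 = true := by
          rw [h6]
          cases h8 : T p.1 p.2
          · rfl
          · exact absurd h8 h4
        refine Finset.prod_eq_zero (mem_univ p.2) (Finset.prod_eq_zero (mem_univ p.1) ?_)
        rw [if_pos h7, if_pos hp]
  -- the hypothesis of `qs_family`
  have hq : ∀ z : V × Bool → ℂ, (∀ v, 0 ≤ (z v).im) →
      ∑ T : ι, ∏ v, (z v).im ^ cc M T.1 v ≤ ‖∑ T : ι, ∏ v, z v ^ cc M T.1 v‖ := by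
    intro z hz
    rw [hsum (fun v => (z v).im), hsum z, norm_prod]
    refine Finset.prod_le_prod (fun p _ => ?_) (fun p _ => ?_)
    · split_ifs
      · norm_num
      · rw [zero_add]
        exact hz _
      · rw [add_zero]
        exact hz _
      · exact add_nonneg (hz _) (hz _)
    · split_ifs
      · simp
      · rw [zero_add, zero_add]
        exact Complex.im_le_norm _
      · rw [add_zero, add_zero]
        exact Complex.im_le_norm _
      · rw [← Complex.add_im]
        exact Complex.im_le_norm _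
  have hD : ∀ T : ι, ∑ v, cc M T.1 v = (PP i).card := by
    intro T
    rw [Fintype.sum_prod_type, ← sum_od hi T.2.1]
    exact Finset.sum_congr rfl fun x _ => cc_row M T.1 x
  have hfam := KL.qs_family (fun (T : ι) v => cc M T.1 v) _ hD hq
    (A.map ⟨fun x => (x, false), fun x y h => (Prod.mk.inj h).1⟩)
    (fun _ => (Fintype.card V - 1) / 2) (fun v => (if v.2 = true then ζ else 1) * t) (by
      intro v
      split_ifs
      · exact hzt0.le
      · rw [one_mul]
        exact ht0.le)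
  set A' : Finset (V × Bool) := A.map ⟨fun x => (x, false), fun x y h => (Prod.mk.inj h).1⟩
    with hA'
  have hmemA' : ∀ v : V × Bool, v ∈ A' ↔ v.1 ∈ A ∧ v.2 = false := by
    intro v
    rw [hA', mem_map]
    constructor
    · rintro ⟨x, h1, rfl⟩
      exact ⟨h1, rfl⟩
    · rintro ⟨h1, h2⟩
      exact ⟨v.1, h1, Prod.ext rfl h2.symm⟩
  have hcc0 : ∀ x ∈ A, ∀ T : V → V → Bool, cc M T (x, true) = 0 := by
    intro x hx T
    unfold cc
    rw [card_eq_zero, filter_eq_empty_iff]
    rintro y - ⟨-, h2⟩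
    exact hM _ (of_decide_eq_true h2) hx
  have hccod : ∀ x ∈ A, ∀ T : V → V → Bool, cc M T (x, false) = od T x := by
    intro x hx T
    rw [← cc_row M T x, Fintype.sum_bool, hcc0 x hx T, zero_add]
  have hodd : ∀ x ∈ A, 2 * ((Fintype.card V - 1) / 2) + 1 = Fintype.card V := by
    intro x hx
    obtain ⟨T, hT⟩ := hne
    rw [mem_Ts] at hT
    have h1 := hT.2.1 x hx
    omega
  have hfil : ∀ T : ι, (∀ v ∈ A', cc M T.1 v = (Fintype.card V - 1) / 2) ↔ T.1 ∈ Ts A S := by
    intro T
    rw [mem_Ts]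
    constructor
    · intro h
      refine ⟨T.2.1, fun x hx => ?_, T.2.2⟩
      have h1 := h (x, false) ((hmemA' _).2 ⟨hx, rfl⟩)
      rw [hccod x hx] at h1
      have h2 := hodd x hx
      omega
    · rintro ⟨-, h, -⟩ v hv
      rw [hmemA'] at hv
      have h1 : v = (v.1, false) := Prod.ext rfl hv.2
      have h2 := h v.1 hv.1
      rw [h1, hccod _ hv.1]
      omega
  have hmono : ∀ T ∈ Ts A S, ∏ v ∈ A'ᶜ, ((if v.2 = true then ζ else 1) * t) ^ cc M T v =
      ζ ^ mk M T * t ^ ((PP i).card - ∑ v ∈ A', (Fintype.card V - 1) / 2) := by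
    intro T hT
    rw [mem_Ts] at hT
    have h1 : ∏ v ∈ A'ᶜ, ((if v.2 = true then ζ else 1) * t) ^ cc M T v =
        (∏ v ∈ A'ᶜ, (if v.2 = true then ζ else 1) ^ cc M T v) * ∏ v ∈ A'ᶜ, t ^ cc M T v := by
      rw [← Finset.prod_mul_distrib]
      exact Finset.prod_congr rfl fun v _ => mul_pow _ _ _
    have h2 : ∏ v ∈ A'ᶜ, (if v.2 = true then ζ else 1) ^ cc M T v = ζ ^ mk M T := by
      have h3 : ∏ v ∈ A'ᶜ, (if v.2 = true then ζ else 1) ^ cc M T v =
          ∏ v : V × Bool, (if v.2 = true then ζ else 1) ^ cc M T v := by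
        refine Finset.prod_subset (subset_univ _) ?_
        intro v _ hv
        rw [mem_compl, not_not, hmemA'] at hv
        rw [if_neg (by rw [hv.2]; decide), one_pow]
      rw [h3, Fintype.prod_prod_type, ← cc_true M T, ← Finset.prod_pow_eq_pow_sum]
      refine Finset.prod_congr rfl fun x _ => ?_
      rw [Fintype.prod_bool]
      simp
    have h4 : ∑ v ∈ A'ᶜ, cc M T v = (PP i).card - ∑ v ∈ A', (Fintype.card V - 1) / 2 := by
      have h5 := hD ⟨T, hT.1, hT.2.2⟩
      have h6 : ∑ v ∈ A', cc M T v = ∑ v ∈ A', (Fintype.card V - 1) / 2 :=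
        Finset.sum_congr rfl ((hfil ⟨T, hT.1, hT.2.2⟩).2 (mem_Ts.2 hT))
      have h7 := Finset.sum_add_sum_compl A' (fun v => cc M T v)
      have h8 : ∑ v, cc M T v = (PP i).card := h5
      omega
    rw [h1, h2, Finset.prod_pow_eq_pow_sum, h4]
  have htrans : ∀ {R : Type} [AddCommMonoid R] (F : (V → V → Bool) → R),
      ∑ T ∈ univ.filter (fun T : ι => ∀ v ∈ A', cc M T.1 v = (Fintype.card V - 1) / 2), F T.1 =
        ∑ T ∈ Ts A S, F T := by
    intro R _ F
    refine Finset.sum_bij (fun T _ => T.1) ?_ ?_ ?_ ?_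
    · intro T hT
      rw [mem_filter] at hT
      exact (hfil T).1 hT.2
    · intro T _ T' _ h
      exact Subtype.ext h
    · intro T hT
      have hT' := mem_Ts.1 hT
      refine ⟨⟨T, hT'.1, hT'.2.2⟩, ?_, rfl⟩
      rw [mem_filter]
      exact ⟨mem_univ _, (hfil ⟨T, hT'.1, hT'.2.2⟩).2 hT⟩
    · intro T _
      rfl
  rw [htrans (fun T => ∏ v ∈ A'ᶜ, (((if v.2 = true then ζ else 1) * t).im) ^ cc M T v),
    htrans (fun T => ∏ v ∈ A'ᶜ, ((if v.2 = true then ζ else 1) * t) ^ cc M T v),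
    Finset.sum_congr rfl hmono, ← Finset.sum_mul, hζ, zero_mul, norm_zero] at hfam
  have hposs : 0 < ∑ T ∈ Ts A S,
      ∏ v ∈ A'ᶜ, (((if v.2 = true then ζ else 1) * t).im) ^ cc M T v := by
    refine Finset.sum_pos (fun T _ => Finset.prod_pos (fun v _ => pow_pos ?_ _)) hne
    split_ifs
    · exact hzt0
    · rw [one_mul]
      exact ht0
  linarith

end MP_a3e05c_co.SW
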